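import Pool.Agent.PWX.Defs

/-! # PWX / MatB: algebra of the averages `PB` -/

set_option autoImplicit false
set_option linter.unusedSectionVars false

namespace Pool.Agent.PWX

open Pool.Agent.PWI Equiv

variable {X : Type} [Fintype X] [DecidableEq X]

theorem pm_mul (σ τ : Perm X) : pm (σ * τ) = pm σ * pm τ := by
  ext p q
  simp only [pm, Matrix.mul_apply, Perm.mul_apply]
  rw [Finset.sum_eq_single (τ q)]
  · simp
  · intro b _ hb
    simp [hb]
  · intro h
    exact absurd (Finset.mem_univ _) h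

theorem pm_one : pm (1 : Perm X) = 1 := by
  ext p q
  simp [pm, Matrix.one_apply]

private theorem mul_pm_apply (A : Matrix X X ℝ) (σ : Perm X) (p q : X) :
    (A * pm σ) p q = A p (σ q) := by
  simp only [pm, Matrix.mul_apply]
  rw [Finset.sum_eq_single (σ q)]
  · simp
  · intro b _ hb
    simp [hb]
  · intro h
    exact absurd (Finset.mem_univ _) h

private theorem pm_mul_apply (A : Matrix X X ℝ) (σ : Perm X) (p q : X) :
    (pm σ * A) (σ p) q = A p q := by
  simp only [pm, Matrix.mul_apply]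
  rw [Finset.sum_eq_single p]
  · simp
  · intro b _ hb
    rw [if_neg (fun h => hb (σ.injective h.symm)), zero_mul]
  · intro h
    exact absurd (Finset.mem_univ _) h

theorem hs_pm_right (A : Matrix X X ℝ) (σ : Perm X) : hs (A * pm σ) = hs A := by
  unfold hs
  refine Finset.sum_congr rfl fun p _ => ?_
  simp only [mul_pm_apply]
  exact Equiv.sum_comp σ fun q => A p q ^ 2

theorem hs_pm_left (A : Matrix X X ℝ) (σ : Perm X) : hs (pm σ * A) = hs A := by
  unfold hs
  rw [← Equiv.sum_comp σ]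
  simp only [pm_mul_apply]

theorem hs_nonneg (A : Matrix X X ℝ) : 0 ≤ hs A :=
  Finset.sum_nonneg fun _ _ => Finset.sum_nonneg fun _ _ => sq_nonneg _

theorem hs_smul (c : ℝ) (A : Matrix X X ℝ) : hs (c • A) = c ^ 2 * hs A := by
  unfold hs
  simp only [Matrix.smul_apply, smul_eq_mul, mul_pow, Finset.mul_sum]

/-- the parallelogram law -/
theorem hs_par (A B : Matrix X X ℝ) : hs (B - A) + hs (B + A) = 2 * hs A + 2 * hs B := by
  unfold hs
  simp only [Matrix.sub_apply, Matrix.add_apply, Finset.mul_sum, ← Finset.sum_add_distrib]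
  refine Finset.sum_congr rfl fun p _ => Finset.sum_congr rfl fun q _ => ?_
  ring

/-- inner product -/
def ip (A B : Matrix X X ℝ) : ℝ := ∑ p, ∑ q, A p q * B p q

theorem hs_sub (A B : Matrix X X ℝ) : hs (B - A) = hs B + hs A - 2 * ip B A := by
  unfold hs ip
  simp only [Matrix.sub_apply, Finset.mul_sum, ← Finset.sum_add_distrib, ← Finset.sum_sub_distrib]
  refine Finset.sum_congr rfl fun p _ => Finset.sum_congr rfl fun q _ => ?_
  ring

theorem ip_smul (c : ℝ) (A B : Matrix X X ℝ) : ip (c • A) B = c * ip A B := by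
  unfold ip
  simp only [Matrix.smul_apply, smul_eq_mul, mul_assoc, Finset.mul_sum]

theorem ip_sum {ι : Type*} (s : Finset ι) (A : ι → Matrix X X ℝ) (B : Matrix X X ℝ) :
    ip (∑ i ∈ s, A i) B = ∑ i ∈ s, ip (A i) B := by
  unfold ip
  simp only [Matrix.sum_apply, Finset.sum_mul]
  symm
  rw [Finset.sum_comm]
  refine Finset.sum_congr rfl fun p _ => ?_
  rw [Finset.sum_comm]

/-- convexity of `hs` -/
theorem hs_avg (m : ℕ) (M : (Fin m → Bool) → Matrix X X ℝ) :
    hs (((2 : ℝ) ^ m)⁻¹ • ∑ e, M e) ≤ ((2 : ℝ) ^ m)⁻¹ * ∑ e, hs (M e) := by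
  have h2 : (0 : ℝ) < 2 ^ m := by positivity
  unfold hs
  have h3 : ∑ e, ∑ p, ∑ q, M e p q ^ 2 = ∑ p, ∑ q, ∑ e, M e p q ^ 2 := by
    rw [Finset.sum_comm]
    refine Finset.sum_congr rfl fun p _ => ?_
    rw [Finset.sum_comm]
  rw [h3, Finset.mul_sum]
  refine Finset.sum_le_sum fun p _ => ?_
  rw [Finset.mul_sum]
  refine Finset.sum_le_sum fun q _ => ?_
  rw [Matrix.smul_apply, Matrix.sum_apply, smul_eq_mul]
  have h4 := sq_sum_le_card_mul_sum_sq (s := (Finset.univ : Finset (Fin m → Bool)))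
    (f := fun e => M e p q)
  have h5 : ((Finset.univ : Finset (Fin m → Bool)).card : ℝ) = 2 ^ m := by
    simp
  rw [h5] at h4
  calc ((2 ^ m)⁻¹ * ∑ e, M e p q) ^ 2 = ((2 ^ m)⁻¹) ^ 2 * (∑ e, M e p q) ^ 2 := by ring
    _ ≤ ((2 ^ m)⁻¹) ^ 2 * (2 ^ m * ∑ e, M e p q ^ 2) :=
        mul_le_mul_of_nonneg_left h4 (by positivity)
    _ = (2 ^ m)⁻¹ * ∑ e, M e p q ^ 2 := by
        field_simp

theorem PB_snoc (x : ℕ → Perm X) (q j : ℕ) :
    PB x q (j + 1) = (2 : ℝ)⁻¹ • (PB x q j * pm (x (q + j)) + PB x q j) := by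
  unfold PB
  rw [← (Fin.snocEquiv (fun _ : Fin (j + 1) => Bool)).sum_comp, Fintype.sum_prod_type,
    Fintype.sum_bool]
  have h1 : ∀ (b : Bool) (e : Fin j → Bool),
      cube x q (j + 1) ((Fin.snocEquiv (fun _ : Fin (j + 1) => Bool)) (b, e)) =
        cube x q j e * (if b then x (q + j) else 1) := fun b e => cube_snoc x q j b e
  simp only [h1, if_true, Bool.false_eq_true, if_false, mul_one, pm_mul]
  rw [← Finset.sum_mul, Matrix.smul_mul, ← smul_add, smul_smul, pow_succ, mul_inv, mul_comm]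

theorem PB_cons (x : ℕ → Perm X) (q j : ℕ) :
    PB x q (j + 1) = (2 : ℝ)⁻¹ • (pm (x q) * PB x (q + 1) j + PB x (q + 1) j) := by
  unfold PB
  rw [← (Fin.consEquiv (fun _ : Fin (j + 1) => Bool)).sum_comp, Fintype.sum_prod_type,
    Fintype.sum_bool]
  have h1 : ∀ (b : Bool) (e : Fin j → Bool),
      cube x q (j + 1) ((Fin.consEquiv (fun _ : Fin (j + 1) => Bool)) (b, e)) =
        (if b then x q else 1) * cube x (q + 1) j e := fun b e => cube_cons x q j b e
  simp only [h1, if_true, Bool.false_eq_true, if_false, one_mul, pm_mul]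
  rw [← Finset.mul_sum, Matrix.mul_smul, ← smul_add, smul_smul, pow_succ, mul_inv, mul_comm]

theorem PB_z (x : ℕ → Perm X) (q : ℕ) : PB x q 0 = 1 := by
  unfold PB cube
  simp [pm_one]

theorem PB_add (x : ℕ → Perm X) (q j m : ℕ) : PB x q (j + m) = PB x q j * PB x (q + j) m := by
  induction m with
  | zero => rw [PB_z, mul_one, add_zero]
  | succ m ih =>
    rw [← add_assoc, PB_snoc, PB_snoc, ih, Matrix.mul_smul, mul_add, mul_assoc, add_assoc q j m]

private theorem inv_pow_mul (j : ℕ) : ((2 : ℝ) ^ j)⁻¹ * ∑ _e : Fin j → Bool, (1 : ℝ) = 1 := by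
  simp

theorem PB_apply (x : ℕ → Perm X) (q j : ℕ) (p r : X) :
    PB x q j p r = ((2 : ℝ) ^ j)⁻¹ * ∑ e : Fin j → Bool, pm (cube x q j e) p r := by
  unfold PB
  rw [Matrix.smul_apply, Matrix.sum_apply, smul_eq_mul]

private theorem pm_nonneg (σ : Perm X) (p r : X) : 0 ≤ pm σ p r := by
  unfold pm
  split_ifs <;> norm_num

theorem PB_ds (x : ℕ → Perm X) (q j : ℕ) :
    (∀ p r, 0 ≤ PB x q j p r) ∧ (∀ p, ∑ r, PB x q j p r = 1) ∧ ∀ r, ∑ p, PB x q j p r = 1 := by
  refine ⟨fun p r => ?_, fun p => ?_, fun r => ?_⟩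
  · rw [PB_apply]
    exact mul_nonneg (by positivity) (Finset.sum_nonneg fun e _ => pm_nonneg _ _ _)
  · simp only [PB_apply]
    rw [← Finset.mul_sum, Finset.sum_comm]
    have h : ∀ σ : Perm X, ∑ r, pm σ p r = 1 := by
      intro σ
      unfold pm
      rw [Finset.sum_eq_single (σ⁻¹ p)]
      · simp
      · intro b _ hb
        rw [if_neg]
        rintro rfl
        exact hb (by simp)
      · intro h
        exact absurd (Finset.mem_univ _) h
    simp only [h]
    exact inv_pow_mul j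
  · simp only [PB_apply]
    rw [← Finset.mul_sum, Finset.sum_comm]
    have h : ∀ σ : Perm X, ∑ p, pm σ p r = 1 := by
      intro σ
      unfold pm
      simp
    simp only [h]
    exact inv_pow_mul j

theorem PB_zero (x : ℕ → Perm X) (q : ℕ) : hs (PB x q 0) = Fintype.card X := by
  rw [PB_z]
  unfold hs
  simp [Matrix.one_apply]

theorem PB_congr {x y : ℕ → Perm X} {q q' j : ℕ} (h : ∀ i < j, x (q + i) = y (q' + i)) :
    PB x q j = PB y q' j := by
  unfold PB
  simp only [cube_congr h]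

/-- the positive entries -/
theorem PB_pos {x : ℕ → Perm X} {q j : ℕ} {p r : X} (h : ((2 : ℝ) ^ j)⁻¹ < PB x q j p r) :
    ∃ e : Fin j → Bool, (∃ i, e i = true) ∧ cube x q j e r = p := by
  by_contra hc
  push Not at hc
  have h1 : ∑ e : Fin j → Bool, pm (cube x q j e) p r ≤ 1 := by
    rw [Finset.sum_eq_single (fun _ => false)]
    · unfold pm
      split_ifs <;> norm_num
    · intro e _ he
      have h2 : ∃ i, e i = true := by
        by_contra h3
        push Not at h3
        exact he (funext fun i => by simpa using h3 i)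
      unfold pm
      exact if_neg fun h => hc e h2 h.symm
    · intro h
      exact absurd (Finset.mem_univ _) h
  rw [PB_apply] at h
  have h3 : ((2 : ℝ) ^ j)⁻¹ * ∑ e : Fin j → Bool, pm (cube x q j e) p r ≤ ((2 : ℝ) ^ j)⁻¹ * 1 :=
    mul_le_mul_of_nonneg_left h1 (by positivity)
  linarith

/-- the positive entries, weak form -/
theorem PB_pos' {x : ℕ → Perm X} {q j : ℕ} {p r : X} (h : 0 < PB x q j p r) :
    ∃ e : Fin j → Bool, cube x q j e r = p := by
  by_contra hc
  push Not at hc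
  rw [PB_apply, Finset.sum_eq_zero, mul_zero] at h
  · exact lt_irrefl _ h
  · intro e _
    unfold pm
    exact if_neg fun h => hc e h.symm

theorem hs_right (x : ℕ → Perm X) (q j : ℕ) :
    hs (PB x q j * pm (x (q + j)) - PB x q j) = 4 * (hs (PB x q j) - hs (PB x q (j + 1))) := by
  have h1 := hs_par (PB x q j) (PB x q j * pm (x (q + j)))
  rw [PB_snoc, hs_smul]
  rw [hs_pm_right] at h1
  linarith

theorem hs_left (x : ℕ → Perm X) (q j : ℕ) :
    hs (pm (x q) * PB x (q + 1) j - PB x (q + 1) j) =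
      4 * (hs (PB x (q + 1) j) - hs (PB x q (j + 1))) := by
  have h1 := hs_par (PB x (q + 1) j) (pm (x q) * PB x (q + 1) j)
  rw [PB_cons, hs_smul]
  rw [hs_pm_left] at h1
  linarith

/-- the main inequality (from `0 ≤ hs (P_B P_A - P_B)`) -/
theorem hs_main (x : ℕ → Perm X) (q j m : ℕ) :
    hs (PB x q j) - hs (PB x q (j + m)) ≤
      ((2 : ℝ) ^ m)⁻¹ * ∑ e : Fin m → Bool, hs (PB x q j * pm (cube x (q + j) m e) - PB x q j) := by
  have h1 : ((2 : ℝ) ^ m)⁻¹ * ∑ e : Fin m → Bool,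
      hs (PB x q j * pm (cube x (q + j) m e) - PB x q j) =
      2 * hs (PB x q j) - 2 * ip (PB x q (j + m)) (PB x q j) := by
    have h2 : PB x q (j + m) =
        ((2 : ℝ) ^ m)⁻¹ • ∑ e : Fin m → Bool, PB x q j * pm (cube x (q + j) m e) := by
      rw [PB_add, ← Finset.mul_sum, ← Matrix.mul_smul]
      rfl
    have h3 : ∀ e : Fin m → Bool, hs (PB x q j * pm (cube x (q + j) m e) - PB x q j) =
        2 * hs (PB x q j) * 1 - 2 * ip (PB x q j * pm (cube x (q + j) m e)) (PB x q j) := by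
      intro e
      rw [hs_sub, hs_pm_right]
      ring
    simp only [h3]
    rw [Finset.sum_sub_distrib, ← Finset.mul_sum, ← Finset.mul_sum, mul_sub, h2, ip_smul, ip_sum,
      mul_left_comm, inv_pow_mul]
    ring
  have h4 := hs_nonneg (PB x q (j + m) - PB x q j)
  rw [hs_sub] at h4
  rw [h1]
  linarith

/-- convexity -/
theorem hs_conv_right (A : Matrix X X ℝ) (x : ℕ → Perm X) (q m : ℕ) :
    hs (A * PB x q m - A) ≤
      ((2 : ℝ) ^ m)⁻¹ * ∑ e : Fin m → Bool, hs (A * pm (cube x q m e) - A) := by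
  have h : A * PB x q m - A =
      ((2 : ℝ) ^ m)⁻¹ • ∑ e : Fin m → Bool, (A * pm (cube x q m e) - A) := by
    rw [Finset.sum_sub_distrib, smul_sub, ← Finset.mul_sum, ← Matrix.mul_smul]
    congr 1
    rw [Finset.sum_const, ← Nat.cast_smul_eq_nsmul ℝ, smul_smul]
    simp
  rw [h]
  exact hs_avg m _

theorem hs_conv_left (A : Matrix X X ℝ) (x : ℕ → Perm X) (q m : ℕ) :
    hs (PB x q m * A - A) ≤
      ((2 : ℝ) ^ m)⁻¹ * ∑ e : Fin m → Bool, hs (pm (cube x q m e) * A - A) := by
  have h : PB x q m * A - A =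
      ((2 : ℝ) ^ m)⁻¹ • ∑ e : Fin m → Bool, (pm (cube x q m e) * A - A) := by
    rw [Finset.sum_sub_distrib, smul_sub, ← Finset.sum_mul, ← Matrix.smul_mul]
    congr 1
    rw [Finset.sum_const, ← Nat.cast_smul_eq_nsmul ℝ, smul_smul]
    simp
  rw [h]
  exact hs_avg m _

end Pool.Agent.PWX
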