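import Pool.Agent.PWX.MatB
import Pool.Agent.PWM.Orb
import Pool.Agent.RGC.HomC

/-!
# PWX, module C: the orbit of a homomorphism, exponential decay
-/

set_option linter.unusedSectionVars false

namespace Pool.Agent.PWX

open Pool.Agent.PWI Equiv

variable {X : Type} [Fintype X] [DecidableEq X] {g n : ℕ}

/-- the orbit of a homomorphism -/
def OO (ρ : SG g n →* Perm X) : Set (SG g n →* Perm X) :=
  {h | ∃ S : PMod g n, ∀ x, h x = ρ (S.1 x)}

theorem oo_fin (ρ : SG g n →* Perm X) : (OO ρ).Finite := by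
  have : Finite (SG g n →* Perm X) := Pool.Agent.RGC.hom_finite g n (Perm X)
  exact Set.toFinite _

private def cmp (h : SG g n →* Perm X) (R : PMod g n) : SG g n →* Perm X :=
  h.comp (R.1 : SG g n ≃* SG g n).toMonoidHom

private theorem cmp_apply (h : SG g n →* Perm X) (R : PMod g n) (x : SG g n) :
    cmp h R x = h (R.1 x) := rfl

private theorem oo_comp {ρ : SG g n →* Perm X} {h : SG g n →* Perm X} (hh : h ∈ OO ρ)
    (R : PMod g n) : cmp h R ∈ OO ρ := by
  obtain ⟨S, hS⟩ := hh
  exact ⟨S * R, fun x => by rw [cmp_apply, hS]; rfl⟩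

private theorem oo_sum (ρ : SG g n →* Perm X) (R : PMod g n) (F : (SG g n →* Perm X) → ℝ) :
    ∑ h ∈ (oo_fin ρ).toFinset, F (cmp h R) = ∑ h ∈ (oo_fin ρ).toFinset, F h := by
  refine Finset.sum_nbij' (fun h => cmp h R) (fun h => cmp h R⁻¹) ?_ ?_ ?_ ?_ ?_
  · intro h hh
    rw [Set.Finite.mem_toFinset] at hh ⊢
    exact oo_comp hh R
  · intro h hh
    rw [Set.Finite.mem_toFinset] at hh ⊢
    exact oo_comp hh R⁻¹
  · intro h _
    refine MonoidHom.ext fun x => ?_
    show h (R.1 ((R.1)⁻¹ x)) = h x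
    simp
  · intro h _
    refine MonoidHom.ext fun x => ?_
    show h ((R.1)⁻¹ (R.1 x)) = h x
    simp
  · intro h _
    rfl

/-- the sum of the norms -/
private noncomputable def NN (ρ : SG g n →* Perm X) (q j : ℕ) : ℝ :=
  ∑ h ∈ (oo_fin ρ).toFinset, hs (PB (fun i => h (sa i)) q j)

private theorem nn_shift (ρ : SG g n →* Perm X) (q j : ℕ) (hj : q + j + 1 ≤ g) :
    NN ρ (q + 1) j = NN ρ q j := by
  obtain ⟨S, -, e⟩ := shiftA (g := g) (n := n) q j hj
  unfold NN
  rw [← oo_sum ρ S (fun h => hs (PB (fun i => h (sa i)) (q + 1) j))]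
  refine Finset.sum_congr rfl fun h _ => ?_
  rw [PB_congr (x := fun i => cmp h S (sa i)) (y := fun i => h (sa i)) (q' := q) fun i hi => by
    show h (S.1 (sa (q + 1 + i))) = h (sa (q + i))
    rw [e i hi]]

private theorem nn_const (ρ : SG g n →* Perm X) (q j : ℕ) (hj : q + j ≤ g) :
    NN ρ q j = NN ρ 0 j := by
  induction q with
  | zero => rfl
  | succ q ih => rw [nn_shift ρ q j (by omega), ih (by omega)]

/-- the value of the defect -/
private noncomputable def th (ρ : SG g n →* Perm X) (j : ℕ) : ℝ := 4 * (NN ρ 0 j - NN ρ 0 (j + 1))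

private theorem th_right (ρ : SG g n →* Perm X) (j : ℕ) (S : PMod g n)
    (hS : ∀ i < j, S.1 (sa i) = sa i) :
    ∑ h ∈ (oo_fin ρ).toFinset, hs (PB (fun i => h (sa i)) 0 j * pm (h (S.1 (sa j))) -
      PB (fun i => h (sa i)) 0 j) = th ρ j := by
  have h1 := oo_sum ρ S (fun h => hs (PB (fun i => h (sa i)) 0 j * pm (h (sa j)) -
      PB (fun i => h (sa i)) 0 j))
  have h2 : ∀ h : SG g n →* Perm X, PB (fun i => h (S.1 (sa i))) 0 j =
      PB (fun i => h (sa i)) 0 j := fun h => PB_congr fun i hi => by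
    show h (S.1 (sa (0 + i))) = h (sa (0 + i))
    rw [hS (0 + i) (by omega)]
  simp only [cmp_apply, h2] at h1
  rw [h1]
  unfold th NN
  rw [← Finset.sum_sub_distrib, Finset.mul_sum]
  refine Finset.sum_congr rfl fun h _ => ?_
  have h3 := hs_right (fun i => h (sa i)) 0 j
  rw [zero_add] at h3
  exact h3

private theorem th_nonneg (ρ : SG g n →* Perm X) (j : ℕ) : 0 ≤ th ρ j := by
  rw [← th_right ρ j 1 fun i _ => rfl]
  exact Finset.sum_nonneg fun h _ => hs_nonneg _

private theorem nn_diff (ρ : SG g n →* Perm X) (j m : ℕ) (hj : j + m ≤ g) :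
    NN ρ 0 j - NN ρ 0 (j + m) ≤ th ρ j := by
  have h1 : NN ρ 0 j - NN ρ 0 (j + m) ≤ ((2 : ℝ) ^ m)⁻¹ * ∑ e : Fin m → Bool,
      ∑ h ∈ (oo_fin ρ).toFinset, hs (PB (fun i => h (sa i)) 0 j *
        pm (cube (fun i => h (sa i)) (0 + j) m e) - PB (fun i => h (sa i)) 0 j) := by
    rw [Finset.sum_comm, Finset.mul_sum]
    unfold NN
    rw [← Finset.sum_sub_distrib]
    exact Finset.sum_le_sum fun h _ => hs_main (fun i => h (sa i)) 0 j m
  refine h1.trans ?_
  have h2 : ∀ e : Fin m → Bool, ∑ h ∈ (oo_fin ρ).toFinset, hs (PB (fun i => h (sa i)) 0 j *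
      pm (cube (fun i => h (sa i)) (0 + j) m e) - PB (fun i => h (sa i)) 0 j) ≤ th ρ j := by
    intro e
    by_cases he : ∃ i, e i = true
    · obtain ⟨-, S, hS, hSe⟩ := cube_Sp (g := g) (n := n) hj e he
      rw [← th_right ρ j S fun i hi => hS.fix (Or.inl (show i + 1 ≤ j from hi))
        (sa_mem_Wi le_rfl (Nat.lt_succ_self i))]
      refine le_of_eq (Finset.sum_congr rfl fun h _ => ?_)
      have h3 : cube (fun i => h (sa i)) (0 + j) m e = h (S.1 (sa j)) := by
        rw [← hSe, zero_add]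
        unfold cube
        rw [map_list_prod, List.map_ofFn]
        congr 2
        funext i
        simp only [Function.comp_apply]
        split_ifs
        · rfl
        · rw [map_one]
      rw [h3]
    · push Not at he
      have h3 : ∀ h : SG g n →* Perm X, cube (fun i => h (sa i)) (0 + j) m e = 1 := fun h =>
        cube_false _ _ _ fun i => by simpa using he i
      simp only [h3, pm_one, mul_one, sub_self]
      have h4 : hs (0 : Matrix X X ℝ) = 0 := by
        unfold hs
        simp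
      rw [h4, Finset.sum_const_zero]
      exact th_nonneg ρ j
  have h5 : ∑ e : Fin m → Bool, ∑ h ∈ (oo_fin ρ).toFinset, hs (PB (fun i => h (sa i)) 0 j *
      pm (cube (fun i => h (sa i)) (0 + j) m e) - PB (fun i => h (sa i)) 0 j) ≤
      2 ^ m * th ρ j := by
    refine (Finset.sum_le_sum fun e _ => h2 e).trans (le_of_eq ?_)
    rw [Finset.sum_const, Finset.card_univ, nsmul_eq_mul, Fintype.card_fun, Fintype.card_bool,
      Fintype.card_fin]
    push_cast
    rfl
  calc _ ≤ ((2 : ℝ) ^ m)⁻¹ * (2 ^ m * th ρ j) :=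
        mul_le_mul_of_nonneg_left h5 (by positivity)
    _ = th ρ j := by
        rw [← mul_assoc, inv_mul_cancel₀ (by positivity), one_mul]

private theorem th_le (ρ : SG g n →* Perm X) (j : ℕ) (hj : j + 1 ≤ g) :
    th ρ j ≤ 4 * (3 / 4) ^ j * Fintype.card X * (oo_fin ρ).toFinset.card := by
  have h0 : NN ρ 0 0 = Fintype.card X * (oo_fin ρ).toFinset.card := by
    unfold NN
    rw [Finset.sum_congr rfl fun h _ => PB_zero (fun i => h (sa i)) 0, Finset.sum_const,
      nsmul_eq_mul, mul_comm]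
  have hg0 : 0 ≤ NN ρ 0 g := Finset.sum_nonneg fun h _ => hs_nonneg _
  have hD : ∀ i ≤ g, NN ρ 0 i - NN ρ 0 g ≤ (3 / 4) ^ i * NN ρ 0 0 := by
    intro i
    induction i with
    | zero => intro _; rw [pow_zero, one_mul]; linarith
    | succ i ih =>
      intro hi
      have h1 := ih (by omega)
      have h2 := nn_diff ρ i (g - i) (by omega)
      rw [show i + (g - i) = g by omega] at h2
      have h3 : NN ρ 0 (i + 1) = NN ρ 0 i - th ρ i / 4 := by
        unfold th
        ring
      rw [h3, pow_succ]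
      linarith
  have h1 := hD j (by omega)
  have h2 : NN ρ 0 g ≤ NN ρ 0 (j + 1) := by
    have h3 : ∀ m, j + 1 + m ≤ g → NN ρ 0 (j + 1 + m) ≤ NN ρ 0 (j + 1) := by
      intro m
      induction m with
      | zero => intro _; rfl
      | succ m ih =>
        intro hm
        have h4 := th_nonneg ρ (j + 1 + m)
        have h5 := ih (by omega)
        unfold th at h4
        rw [← Nat.add_assoc]
        linarith
    have h4 := h3 (g - (j + 1)) (by omega)
    rwa [show j + 1 + (g - (j + 1)) = g by omega] at h4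
  have h5 : th ρ j ≤ 4 * ((3 / 4) ^ j * NN ρ 0 0) := by
    unfold th
    linarith
  rw [h0] at h5
  calc th ρ j ≤ _ := h5
    _ = _ := by ring

/-- block `0, ..., j - 1`, `c` the image of `a_j` under a mapping class fixing `a_0, ..., a_(j-1)` -/
theorem theta_right (ρ : SG g n →* Perm X) (j : ℕ) (hj : j + 1 ≤ g) (S : PMod g n)
    (hS : ∀ i < j, S.1 (sa i) = sa i) :
    ∑ h ∈ (oo_fin ρ).toFinset, hs (PB (fun i => h (sa i)) 0 j * pm (h (S.1 (sa j))) -
      PB (fun i => h (sa i)) 0 j) ≤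
      4 * (3 / 4) ^ j * Fintype.card X * (oo_fin ρ).toFinset.card := by
  rw [th_right ρ j S hS]
  exact th_le ρ j hj

/-- block `q + 1, ..., q + j`, `c` the image of `a_q` under a mapping class fixing
`a_(q+1), ..., a_(q+j)` -/
theorem theta_left (ρ : SG g n →* Perm X) (q j : ℕ) (hj : q + j + 1 ≤ g) (S : PMod g n)
    (hS : ∀ i < j, S.1 (sa (q + 1 + i)) = sa (q + 1 + i)) :
    ∑ h ∈ (oo_fin ρ).toFinset, hs (pm (h (S.1 (sa q))) * PB (fun i => h (sa i)) (q + 1) j -
      PB (fun i => h (sa i)) (q + 1) j) ≤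
      4 * (3 / 4) ^ j * Fintype.card X * (oo_fin ρ).toFinset.card := by
  have h1 := oo_sum ρ S (fun h => hs (pm (h (sa q)) * PB (fun i => h (sa i)) (q + 1) j -
      PB (fun i => h (sa i)) (q + 1) j))
  have h2 : ∀ h : SG g n →* Perm X, PB (fun i => h (S.1 (sa i))) (q + 1) j =
      PB (fun i => h (sa i)) (q + 1) j := fun h => PB_congr fun i hi => by
    show h (S.1 (sa (q + 1 + i))) = h (sa (q + 1 + i))
    rw [hS i hi]
  simp only [cmp_apply, h2] at h1
  rw [h1]
  have h3 : ∑ h ∈ (oo_fin ρ).toFinset, hs (pm (h (sa q)) * PB (fun i => h (sa i)) (q + 1) j -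
      PB (fun i => h (sa i)) (q + 1) j) = 4 * (NN ρ (q + 1) j - NN ρ q (j + 1)) := by
    unfold NN
    rw [← Finset.sum_sub_distrib, Finset.mul_sum]
    exact Finset.sum_congr rfl fun h _ => hs_left (fun i => h (sa i)) q j
  rw [h3, nn_const ρ (q + 1) j (by omega), nn_const ρ q (j + 1) (by omega)]
  exact th_le ρ j (by omega)

end Pool.Agent.PWX
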