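import Pool.Agent.PWX.PosA
import Pool.Agent.PWX.MatB
import Pool.Agent.PWX.OrbC
import Pool.Agent.RGD.Topo
import Pool.Agent.PWI.Punc

/-!
# PWX: three covering blocks for one marking
-/

namespace Pool.Agent.PWX

open Pool.Agent.PWI Equiv Finset

variable {X : Type} [Fintype X] [DecidableEq X] {g n : ℕ}

/-- curves to the right of the first `m` handles -/
def Rt (m : ℕ) (c : SG g n) : Prop :=
  ∃ S : PMod g n, (∀ i < m, S.1 (sa i) = sa i) ∧ S.1 (sa m) = c

/-- curves to the left of the handles `q + 1, ..., q + j` -/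
def Lt (q j : ℕ) (c : SG g n) : Prop :=
  ∃ S : PMod g n, (∀ i < j, S.1 (sa (q + 1 + i)) = sa (q + 1 + i)) ∧ S.1 (sa q) = c

theorem rt_of {m k : ℕ} {c : SG g n} (h : m ≤ k) (hk : k < g) (S : PMod g n)
    (hS : ∀ i < m, S.1 (sa i) = sa i) (hc : S.1 (sa k) = c) : Rt m c := by
  obtain ⟨T, h1, _, h3⟩ := Pool.Agent.RGC.bring (g := g) (n := n) m k h hk
  refine ⟨S * T, fun i hi => ?_, ?_⟩
  · show S.1 (T.1 (sa i)) = sa i
    rw [(h3.1 i (Or.inl hi)).1, hS i hi]
  · show S.1 (T.1 (sa m)) = c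
    rw [h1, hc]

theorem lt_of {q j k : ℕ} {c : SG g n} (h : k ≤ q) (hq : q < g) (S : PMod g n)
    (hS : ∀ i < j, S.1 (sa (q + 1 + i)) = sa (q + 1 + i)) (hc : S.1 (sa k) = c) : Lt q j c := by
  obtain ⟨T, h1, _, h3⟩ := Pool.Agent.RGC.bring (g := g) (n := n) k q h hq
  refine ⟨S * T⁻¹, fun i hi => ?_, ?_⟩
  · show S.1 ((T⁻¹).1 (sa (q + 1 + i))) = sa (q + 1 + i)
    rw [act_inv_eq (h3.1 (q + 1 + i) (Or.inr (by omega))).1, hS i hi]
  · show S.1 ((T⁻¹).1 (sa q)) = c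
    rw [act_inv_eq h1, hc]

theorem rt_a {m k : ℕ} (h : m ≤ k) (hk : k < g) : Rt m (sa k : SG g n) :=
  rt_of h hk 1 (fun _ _ => rfl) rfl

theorem rt_b {m k : ℕ} (h : m ≤ k) (hk : k < g) : Rt m ((sb k)⁻¹ : SG g n) := by
  obtain ⟨S, hS, h1⟩ := exR (g := g) (n := n) k hk
  exact rt_of h hk S (fun i hi => ((Pool.Agent.RGC.suppI_of hS).1 i (Or.inl (by omega))).1) h1

theorem lt_a {q j k : ℕ} (h : k ≤ q) (hq : q < g) : Lt q j (sa k : SG g n) :=
  lt_of h hq 1 (fun _ _ => rfl) rfl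

theorem lt_b {q j k : ℕ} (h : k ≤ q) (hq : q < g) : Lt q j ((sb k)⁻¹ : SG g n) := by
  obtain ⟨S, hS, h1⟩ := exR (g := g) (n := n) k (by omega)
  exact lt_of h hq S
    (fun i hi => ((Pool.Agent.RGC.suppI_of hS).1 (q + 1 + i) (Or.inr (by omega))).1) h1

theorem rt_cube {m q j : ℕ} (h : m ≤ q) (hq : q + j ≤ g) (e : Fin j → Bool)
    (he : ∃ i, e i = true) : Rt m (cube (sa : ℕ → SG g n) q j e) := by
  obtain ⟨h1, S, hS, h2⟩ := cube_Sp (g := g) (n := n) hq e he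
  exact rt_of h (by omega) S
    (fun i hi => ((Pool.Agent.RGC.suppI_of hS).1 i (Or.inl (by omega))).1) h2.symm

theorem lt_cube {q j l i : ℕ} (h : l + i ≤ q + 1) (hq : q < g) (e : Fin i → Bool)
    (he : ∃ i, e i = true) : Lt q j (cube (sa : ℕ → SG g n) l i e) := by
  obtain ⟨h1, S, hS, h2⟩ := cube_Sp (g := g) (n := n) (q := l) (j := i) (by omega) e he
  exact lt_of (by omega) hq S
    (fun i hi => ((Pool.Agent.RGC.suppI_of hS).1 (q + 1 + i) (Or.inr (by omega))).1) h2.symm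

/-- A curve around the puncture `j`. -/
theorem rt_z {m : ℕ} (hm : m < g) (j : ℕ) (hj : j < n) : ∃ c : SG g n, Rt m c ∧
    Pool.Agent.RCV.zp j = sb (g - 1) * (c⁻¹ * sa (g - 1)) := by
  obtain ⟨T, t1, t2, t3, t4, t5⟩ := exE (g := g) (n := n) (by omega) j hj (Pool.Agent.RCV.wz j)
    ((sb (g - 1))⁻¹ * (Pool.Agent.RCV.wz j * sz j * (Pool.Agent.RCV.wz j)⁻¹)) rfl rfl
  refine ⟨_, rt_of (k := g - 1) (by omega) (by omega) T (fun i hi => (t3 i (by omega)).1) rfl, ?_⟩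
  rw [t1, Pool.Agent.RCV.zp]
  group

theorem cube_hom {Q : Type*} [Group Q] (h : SG g n →* Q) (q j : ℕ) (e : Fin j → Bool) :
    h (cube sa q j e) = cube (fun i => h (sa i)) q j e := by
  unfold cube
  rw [map_list_prod, List.map_ofFn]
  congr 2
  funext i
  simp only [Function.comp_apply]
  split_ifs
  · rfl
  · exact map_one h

theorem pick {ι α : Type*} (O : Finset α) (hO : O.Nonempty) (I : Finset ι) (T : ι → α → ℝ)
    (hT0 : ∀ i ∈ I, ∀ h ∈ O, 0 ≤ T i h) (w : ℝ) (hT : ∀ i ∈ I, ∑ h ∈ O, T i h ≤ w * O.card) :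
    ∃ h ∈ O, ∀ i ∈ I, T i h ≤ I.card * w := by
  obtain ⟨h, hh, hle⟩ : ∃ h ∈ O, ∑ i ∈ I, T i h ≤ I.card * w := by
    apply Finset.exists_le_of_sum_le hO
    rw [Finset.sum_comm, Finset.sum_const, nsmul_eq_mul]
    refine (Finset.sum_le_sum hT).trans (le_of_eq ?_)
    rw [Finset.sum_const, nsmul_eq_mul]
    ring
  exact ⟨h, hh, fun i hi => (Finset.single_le_sum (f := fun i => T i h)
    (fun i hi => hT0 i hi h hh) hi).trans hle⟩

/-- right defect of the first block -/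
noncomputable def rT (m : ℕ) (c : SG g n) (h : SG g n →* Perm X) : ℝ :=
  hs (PB (fun i => h (sa i)) 0 m * pm (h c) - PB (fun i => h (sa i)) 0 m)

/-- left defect of the block `q + 1, ..., q + m` -/
noncomputable def lT (q m : ℕ) (c : SG g n) (h : SG g n →* Perm X) : ℝ :=
  hs (pm (h c) * PB (fun i => h (sa i)) (q + 1) m - PB (fun i => h (sa i)) (q + 1) m)

omit [DecidableEq X] in
theorem hs_zero' : hs (0 : Matrix X X ℝ) = 0 := by
  simp [hs]

theorem rT_one (m : ℕ) (h : SG g n →* Perm X) : rT m (1 : SG g n) h = 0 := by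
  unfold rT
  rw [map_one, pm_one, mul_one, sub_self, hs_zero']

theorem lT_one (q m : ℕ) (h : SG g n →* Perm X) : lT q m (1 : SG g n) h = 0 := by
  unfold lT
  rw [map_one, pm_one, one_mul, sub_self, hs_zero']

theorem rT_sum (ρ : SG g n →* Perm X) {m : ℕ} (hm : m + 1 ≤ g) {c : SG g n} (hc : Rt m c) :
    ∑ h ∈ (oo_fin ρ).toFinset, rT m c h ≤
      4 * (3 / 4) ^ m * Fintype.card X * (oo_fin ρ).toFinset.card := by
  obtain ⟨S, hS, rfl⟩ := hc
  exact theta_right ρ m hm S hS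

theorem lT_sum (ρ : SG g n →* Perm X) {q m : ℕ} (hm : q + m + 1 ≤ g) {c : SG g n} (hc : Lt q m c) :
    ∑ h ∈ (oo_fin ρ).toFinset, lT q m c h ≤
      4 * (3 / 4) ^ m * Fintype.card X * (oo_fin ρ).toFinset.card := by
  obtain ⟨S, hS, rfl⟩ := hc
  exact theta_left ρ q m hm S hS

theorem avg_sum {α : Type*} (O : Finset α) (m : ℕ) (F : (Fin m → Bool) → α → ℝ) (W : ℝ)
    (h : ∀ e, ∑ x ∈ O, F e x ≤ W) : ∑ x ∈ O, ((2 : ℝ) ^ m)⁻¹ * ∑ e : Fin m → Bool, F e x ≤ W := by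
  rw [← Finset.mul_sum, Finset.sum_comm]
  have h1 : ∑ e : Fin m → Bool, ∑ x ∈ O, F e x ≤ 2 ^ m * W := by
    refine (Finset.sum_le_sum fun e _ => h e).trans (le_of_eq ?_)
    rw [Finset.sum_const, nsmul_eq_mul, Finset.card_univ, Fintype.card_fun, Fintype.card_bool,
      Fintype.card_fin]
    push_cast
    ring
  have h2 : (0 : ℝ) < 2 ^ m := by positivity
  calc ((2 : ℝ) ^ m)⁻¹ * ∑ e : Fin m → Bool, ∑ x ∈ O, F e x ≤ ((2 : ℝ) ^ m)⁻¹ * (2 ^ m * W) :=
        mul_le_mul_of_nonneg_left h1 (by positivity)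
    _ = W := by field_simp

theorem rT_cube_sum (ρ : SG g n →* Perm X) {m q : ℕ} (hm : m + 1 ≤ g) (h : m ≤ q)
    (hq : q + m ≤ g) :
    ∑ h ∈ (oo_fin ρ).toFinset, ((2 : ℝ) ^ m)⁻¹ * ∑ e : Fin m → Bool, rT m (cube sa q m e) h ≤
      4 * (3 / 4) ^ m * Fintype.card X * (oo_fin ρ).toFinset.card := by
  refine avg_sum _ m _ _ fun e => ?_
  by_cases he : ∃ i, e i = true
  · exact rT_sum ρ hm (rt_cube h hq e he)
  · have h0 : ∀ i, e i = false := fun i => by
      by_contra hc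
      exact he ⟨i, by simpa using hc⟩
    rw [cube_false _ _ _ h0]
    rw [Finset.sum_eq_zero fun h _ => rT_one m h]
    positivity

theorem lT_cube_sum (ρ : SG g n →* Perm X) {m q : ℕ} (hm : q + m + 1 ≤ g) (h : m ≤ q + 1) :
    ∑ h ∈ (oo_fin ρ).toFinset, ((2 : ℝ) ^ m)⁻¹ * ∑ e : Fin m → Bool, lT q m (cube sa 0 m e) h ≤
      4 * (3 / 4) ^ m * Fintype.card X * (oo_fin ρ).toFinset.card := by
  refine avg_sum _ m _ _ fun e => ?_
  by_cases he : ∃ i, e i = true
  · exact lT_sum ρ hm (lt_cube (by omega) (by omega) e he)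
  · have h0 : ∀ i, e i = false := fun i => by
      by_contra hc
      exact he ⟨i, by simpa using hc⟩
    rw [cube_false _ _ _ h0]
    rw [Finset.sum_eq_zero fun h _ => lT_one q m h]
    positivity

/-- the curve belonging to a test -/
noncomputable def tc (zc : Fin n → SG g n) : (Fin g × Bool) ⊕ Fin n → SG g n
  | .inl (k, b) => if b then sa k else (sb k)⁻¹
  | .inr j => zc j

/-- the tests -/
noncomputable def tT (m : ℕ) (zc : Fin n → SG g n) : ((Fin g × Bool) ⊕ Fin n) ⊕ Fin 4 →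
    (SG g n →* Perm X) → ℝ
  | .inl (.inl (k, b)), h => if m ≤ k.val then rT m (tc zc (.inl (k, b))) h else
      lT (2 * m - 1) m (tc zc (.inl (k, b))) h
  | .inl (.inr j), h => rT m (zc j) h
  | .inr 0, h => ((2 : ℝ) ^ m)⁻¹ * ∑ e : Fin m → Bool, rT m (cube sa m m e) h
  | .inr 1, h => ((2 : ℝ) ^ m)⁻¹ * ∑ e : Fin m → Bool, rT m (cube sa (2 * m) m e) h
  | .inr 2, h => ((2 : ℝ) ^ m)⁻¹ * ∑ e : Fin m → Bool, lT (m - 1) m (cube sa 0 m e) h
  | .inr 3, h => ((2 : ℝ) ^ m)⁻¹ * ∑ e : Fin m → Bool, lT (2 * m - 1) m (cube sa 0 m e) h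

theorem tT_nonneg (m : ℕ) (zc : Fin n → SG g n) (i : ((Fin g × Bool) ⊕ Fin n) ⊕ Fin 4)
    (h : SG g n →* Perm X) : 0 ≤ tT m zc i h := by
  have hr : ∀ c, 0 ≤ rT m c h := fun c => hs_nonneg _
  have hl : ∀ q c, 0 ≤ lT q m c h := fun q c => hs_nonneg _
  have hp : (0 : ℝ) ≤ ((2 : ℝ) ^ m)⁻¹ := by positivity
  rcases i with (⟨k, b⟩ | j) | t
  · unfold tT
    dsimp only
    split_ifs
    · exact hr _
    · exact hl _ _
  · exact hr _
  · fin_cases t
    · exact mul_nonneg hp (Finset.sum_nonneg fun e _ => hr _)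
    · exact mul_nonneg hp (Finset.sum_nonneg fun e _ => hr _)
    · exact mul_nonneg hp (Finset.sum_nonneg fun e _ => hl _ _)
    · exact mul_nonneg hp (Finset.sum_nonneg fun e _ => hl _ _)

theorem tT_sum (ρ : SG g n →* Perm X) {m : ℕ} (hm : 0 < m) (h3 : 3 * m ≤ g) (zc : Fin n → SG g n)
    (hz : ∀ j, Rt m (zc j)) (i : ((Fin g × Bool) ⊕ Fin n) ⊕ Fin 4) :
    ∑ h ∈ (oo_fin ρ).toFinset, tT m zc i h ≤
      4 * (3 / 4) ^ m * Fintype.card X * (oo_fin ρ).toFinset.card := by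
  rcases i with (⟨k, b⟩ | j) | t
  · have hk := k.2
    by_cases h : m ≤ k.val
    · have e : ∀ h' : SG g n →* Perm X, tT m zc (.inl (.inl (k, b))) h' =
          rT m (tc zc (.inl (k, b))) h' := fun h' => if_pos h
      rw [Finset.sum_congr rfl fun h' _ => e h']
      refine rT_sum ρ (by omega) ?_
      cases b
      · exact rt_b h hk
      · exact rt_a h hk
    · have e : ∀ h' : SG g n →* Perm X, tT m zc (.inl (.inl (k, b))) h' =
          lT (2 * m - 1) m (tc zc (.inl (k, b))) h' := fun h' => if_neg h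
      rw [Finset.sum_congr rfl fun h' _ => e h']
      refine lT_sum ρ (by omega) ?_
      cases b
      · exact lt_b (by omega) (by omega)
      · exact lt_a (by omega) (by omega)
  · exact rT_sum ρ (by omega) (hz j)
  · fin_cases t
    · exact rT_cube_sum ρ (by omega) le_rfl (by omega)
    · exact rT_cube_sum ρ (by omega) (by omega) (by omega)
    · exact lT_cube_sum ρ (by omega) (by omega)
    · exact lT_cube_sum ρ (by omega) (by omega)

theorem blocks (ρ : SG g n →* Perm X) (htr : ∀ p q : X, ∃ x, ρ x p = q) (m : ℕ) (hm : 0 < m)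
    (h3 : 3 * m ≤ g) (hX : 0 < Fintype.card X)
    (hnum : ((2 * g + n + 4 : ℕ) : ℝ) * (4 * (3 / 4) ^ m * Fintype.card X) * 10 ^ 8 *
      (Fintype.card X : ℝ) ^ 10 ≤ 1)
    (hpow : 2 * Fintype.card X < 2 ^ m) :
    ∃ S : PMod g n, ∀ i < 3, ∀ y z : X, ∃ v : SG g n,
      Pool.Agent.RGD.Sp (i * m) (i * m + m) v ∧ ρ (S.1 v) y = z := by
  have hzc : ∀ j : Fin n, ∃ c : SG g n, Rt m c ∧
      Pool.Agent.RCV.zp j.val = sb (g - 1) * (c⁻¹ * sa (g - 1)) :=
    fun j => rt_z (by omega) j.val j.2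
  choose zc hz1 hz2 using hzc
  have hne : (oo_fin ρ).toFinset.Nonempty := ⟨ρ, by
    rw [Set.Finite.mem_toFinset]
    exact ⟨1, fun x => rfl⟩⟩
  obtain ⟨h, hh, hT⟩ := pick (oo_fin ρ).toFinset hne Finset.univ (tT (X := X) m zc)
    (fun i _ h _ => tT_nonneg m zc i h) (4 * (3 / 4) ^ m * Fintype.card X)
    (fun i _ => tT_sum ρ hm h3 zc hz1 i)
  rw [Set.Finite.mem_toFinset] at hh
  obtain ⟨S, hS⟩ := hh
  have hcard : (Finset.univ : Finset (((Fin g × Bool) ⊕ Fin n) ⊕ Fin 4)).card = 2 * g + n + 4 := by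
    rw [Finset.card_univ]
    simp only [Fintype.card_sum, Fintype.card_prod, Fintype.card_fin, Fintype.card_bool]
    omega
  rw [hcard] at hT
  obtain ⟨ε, hε⟩ : ∃ ε : ℝ, ε = ((2 * g + n + 4 : ℕ) : ℝ) * (4 * (3 / 4) ^ m * Fintype.card X) :=
    ⟨_, rfl⟩
  rw [← hε] at hT hnum
  have hε0 : 0 ≤ ε := by rw [hε]; positivity
  have ht : ∀ i, tT m zc i h ≤ ε := fun i => hT i (Finset.mem_univ _)
  let L : Set (Perm X) := {σ | ∃ k, k < m ∧ (σ = h (sa k) ∨ σ = h (sb k)⁻¹)}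
  let R : Set (Perm X) := {σ | (∃ k, m ≤ k ∧ k < g ∧ (σ = h (sa k) ∨ σ = h (sb k)⁻¹)) ∨
    ∃ j : Fin n, σ = h (zc j)}
  have hmemA : ∀ k, k < g → h (sa k) ∈ Subgroup.closure (L ∪ R) := fun k hk => by
    apply Subgroup.subset_closure
    rcases lt_or_ge k m with h1 | h1
    · exact Or.inl ⟨k, h1, Or.inl rfl⟩
    · exact Or.inr (Or.inl ⟨k, h1, hk, Or.inl rfl⟩)
  have hmemB : ∀ k, k < g → h (sb k)⁻¹ ∈ Subgroup.closure (L ∪ R) := fun k hk => by
    apply Subgroup.subset_closure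
    rcases lt_or_ge k m with h1 | h1
    · exact Or.inl ⟨k, h1, Or.inr rfl⟩
    · exact Or.inr (Or.inl ⟨k, h1, hk, Or.inr rfl⟩)
  have hall : ∀ x, h x ∈ Subgroup.closure (L ∪ R) := by
    intro x
    have h1 : (⊤ : Subgroup (SG g n)) ≤ (Subgroup.closure (L ∪ R)).comap h := by
      rw [← Pool.Agent.RGD.gg_gen, Subgroup.closure_le]
      rintro y (⟨k, hk, rfl | rfl⟩ | ⟨j, hj, rfl⟩)
      · exact hmemA k hk
      · exact hmemB k hk
      · show h (Pool.Agent.RCV.zp j) ∈ Subgroup.closure (L ∪ R)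
        have e := hz2 ⟨j, hj⟩
        dsimp only at e
        rw [e, map_mul, map_mul, map_inv]
        refine Subgroup.mul_mem _ ?_ (Subgroup.mul_mem _ (Subgroup.inv_mem _
          (Subgroup.subset_closure (Or.inr (Or.inr ⟨⟨j, hj⟩, rfl⟩)))) (hmemA _ (by omega)))
        have := Subgroup.inv_mem _ (hmemB (g - 1) (by omega))
        rwa [map_inv, inv_inv] at this
    exact h1 (Subgroup.mem_top x)
  have key := pos3 (PB (fun i => h (sa i)) 0 m) (PB (fun i => h (sa i)) m m)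
    (PB (fun i => h (sa i)) (2 * m) m) (PB_ds _ _ _) (PB_ds _ _ _) (PB_ds _ _ _) ε hε0 hnum L R
    (fun p q => by
      obtain ⟨x, hx⟩ := htr p q
      refine ⟨h ((S⁻¹).1 x), hall _, ?_⟩
      rw [hS]
      have : S.1 ((S⁻¹).1 x) = x := by
        show S.1 ((S.1)⁻¹ x) = x
        simp
      rw [this, hx])
    (by
      have e : 2 * m - 1 + 1 = 2 * m := by omega
      rintro σ ⟨k, hk, hσ⟩
      rcases hσ with rfl | rfl
      · have h1 := ht (.inl (.inl (⟨k, by omega⟩, true)))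
        have h2 : tT m zc (.inl (.inl (⟨k, by omega⟩, true))) h = lT (2 * m - 1) m (sa k) h :=
          if_neg (by show ¬ m ≤ k; omega)
        rw [h2] at h1
        unfold lT at h1
        rwa [e] at h1
      · have h1 := ht (.inl (.inl (⟨k, by omega⟩, false)))
        have h2 : tT m zc (.inl (.inl (⟨k, by omega⟩, false))) h = lT (2 * m - 1) m (sb k)⁻¹ h :=
          if_neg (by show ¬ m ≤ k; omega)
        rw [h2] at h1
        unfold lT at h1
        rwa [e] at h1)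
    (by
      rintro σ (⟨k, hk, hk', hσ⟩ | ⟨j, rfl⟩)
      · rcases hσ with rfl | rfl
        · have h1 := ht (.inl (.inl (⟨k, hk'⟩, true)))
          have h2 : tT m zc (.inl (.inl (⟨k, hk'⟩, true))) h = rT m (sa k) h := if_pos hk
          rw [h2] at h1
          exact h1
        · have h1 := ht (.inl (.inl (⟨k, hk'⟩, false)))
          have h2 : tT m zc (.inl (.inl (⟨k, hk'⟩, false))) h = rT m (sb k)⁻¹ h := if_pos hk
          rw [h2] at h1
          exact h1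
      · exact ht (.inl (.inr j)))
    (by
      refine (hs_conv_right _ _ _ _).trans ?_
      have h1 := ht (.inr 1)
      refine le_trans (le_of_eq ?_) h1
      show _ = ((2 : ℝ) ^ m)⁻¹ * ∑ e : Fin m → Bool, rT m (cube sa (2 * m) m e) h
      unfold rT
      simp only [cube_hom])
    (by
      refine (hs_conv_left _ _ _ _).trans ?_
      have h1 := ht (.inr 3)
      refine le_trans (le_of_eq ?_) h1
      show _ = ((2 : ℝ) ^ m)⁻¹ * ∑ e : Fin m → Bool, lT (2 * m - 1) m (cube sa 0 m e) h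
      unfold lT
      have e : 2 * m - 1 + 1 = 2 * m := by omega
      simp only [cube_hom, e])
    (by
      refine (hs_conv_right _ _ _ _).trans ?_
      have h1 := ht (.inr 0)
      refine le_trans (le_of_eq ?_) h1
      show _ = ((2 : ℝ) ^ m)⁻¹ * ∑ e : Fin m → Bool, rT m (cube sa m m e) h
      unfold rT
      simp only [cube_hom])
    (by
      refine (hs_conv_left _ _ _ _).trans ?_
      have h1 := ht (.inr 2)
      refine le_trans (le_of_eq ?_) h1
      show _ = ((2 : ℝ) ^ m)⁻¹ * ∑ e : Fin m → Bool, lT (m - 1) m (cube sa 0 m e) h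
      unfold lT
      have e : m - 1 + 1 = m := by omega
      simp only [cube_hom, e])
  have hlt : ((2 : ℝ) ^ m)⁻¹ < 1 / (2 * (Fintype.card X : ℝ)) := by
    have h1 : (0 : ℝ) < 2 * Fintype.card X := by
      have : (0 : ℝ) < Fintype.card X := by exact_mod_cast hX
      linarith
    have h2 : (2 * Fintype.card X : ℝ) < 2 ^ m := by exact_mod_cast hpow
    rw [← one_div]
    exact one_div_lt_one_div_of_lt h1 h2
  have fin : ∀ q, q + m ≤ g → ∀ y z : X, ((2 : ℝ) ^ m)⁻¹ < PB (fun i => h (sa i)) q m z y →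
      ∃ v : SG g n, Pool.Agent.RGD.Sp q (q + m) v ∧ ρ (S.1 v) y = z := by
    intro q hq y z hpos
    obtain ⟨e, he, hval⟩ := PB_pos hpos
    obtain ⟨_, T, hT, h2⟩ := cube_Sp (g := g) (n := n) hq e he
    refine ⟨cube sa q m e, ⟨T, Pool.Agent.RGC.suppI_of hT, h2.symm⟩, ?_⟩
    rw [← hS, cube_hom]
    exact hval
  refine ⟨S, fun i hi y z => ?_⟩
  obtain ⟨k1, k2, k3⟩ := key z y
  have hcase : i = 0 ∨ i = 1 ∨ i = 2 := by omega
  rcases hcase with rfl | rfl | rfl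
  · have := fin 0 (by omega) y z (hlt.trans_le k1)
    simpa using this
  · have := fin m (by omega) y z (hlt.trans_le k2)
    simpa using this
  · exact fin (2 * m) (by omega) y z (hlt.trans_le k3)

end Pool.Agent.PWX
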