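import Pool.Agent.RCV.SccW

/-!
# PWX: the curve `a_(g-1) z_j`
-/

namespace Pool.Agent.PWX

open Pool.Agent.PWI Pool.Agent.RCV

variable {g n : ℕ}

private theorem inv_act {T : PMod g n} {x y : SG g n} (h : T.1 x = y) : (T⁻¹).1 y = x := by
  have h1 : (T⁻¹ * T).1 x = (T⁻¹).1 (T.1 x) := rfl
  rw [inv_mul_cancel, h] at h1
  exact h1.symm

/-- `a_q z_j` is the image of `a_q` under a mapping class fixing the handles before `q`; here only
`q = g - 1` is needed. -/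
theorem az_simple (hg : 1 ≤ g) (j : ℕ) (hj : j < n) : ∃ S : PMod g n,
    (∀ i, i + 1 < g → S.1 (sa i) = sa i) ∧ S.1 (sa (g - 1)) = sa (g - 1) * Pool.Agent.RCV.zp j := by
  obtain ⟨T, t1, t2, t3, t4, t5⟩ := exE (g := g) (n := n) hg j hj (wz j)
    ((sb (g - 1))⁻¹ * (wz j * sz j * (wz j)⁻¹)) rfl rfl
  set e : SG g n := (sb (g - 1))⁻¹ * (wz j * sz j * (wz j)⁻¹) with he
  have hw : T.1 (wz j) = wz j := fix_list fun k hk => t4 k (by omega)
  have hTe : T.1 e = e := by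
    conv_lhs => rw [he]
    rw [map_mul, map_inv, map_mul, map_mul, map_inv, t2, t5, hw]
    have : (e * sb (g - 1) * e⁻¹)⁻¹ *
        (wz j * ((wz j)⁻¹ * e * wz j * sz j * ((wz j)⁻¹ * e * wz j)⁻¹) * (wz j)⁻¹) =
        e * ((sb (g - 1))⁻¹ * (wz j * sz j * (wz j)⁻¹)) * e⁻¹ := by group
    rw [this, ← he]; group
  obtain ⟨B, b1, b2, b3⟩ := exB (g := g) (n := n) (g - 1)
  have hTa : T.1 (sa (g - 1) * e) = sa (g - 1) := by
    rw [map_mul, t1, hTe]
    group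
  have hB : B.1 (sa (g - 1) * zp j) = sa (g - 1) * e := by
    rw [map_mul, b1, fix_zp b3.2, he, zp]
    group
  refine ⟨B⁻¹ * T⁻¹, fun i hi => ?_, ?_⟩
  · have h1 : (T⁻¹).1 (sa i) = sa i := inv_act (t3 i (by omega)).1
    have h2 : (B⁻¹).1 (sa i) = sa i :=
      inv_act (b3.1 i (by simp only [Set.mem_singleton_iff]; omega)).1
    show (B⁻¹).1 ((T⁻¹).1 (sa i)) = sa i
    rw [h1, h2]
  · show (B⁻¹).1 ((T⁻¹).1 (sa (g - 1))) = _
    rw [inv_act hTa, inv_act hB]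

end Pool.Agent.PWX
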