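import Pool.Agent.PWX.FinD
import Pool.Agent.PWX.ZpZ
import Pool.Agent.PWM.Corr

/-!
# PWX: three covering blocks for one marking, any number of punctures   (helper52)
-/

namespace Pool.Agent.PWX

open Pool.Agent.PWI Pool.Agent.RCV Equiv Finset

variable {X : Type} [Fintype X] [DecidableEq X] {g n : ℕ}

private theorem inv_act' {T : PMod g n} {x y : SG g n} (h : T.1 x = y) : (T⁻¹).1 y = x := by
  have h1 : (T⁻¹ * T).1 x = (T⁻¹).1 (T.1 x) := rfl
  rw [inv_mul_cancel, h] at h1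
  exact h1.symm

/-- `a_(g-1) z_j` is the image of `a_(g-1)` under a mapping class fixing the other handles and the loops
`z_i`, `i < j`. -/
theorem az_strong (hg : 1 ≤ g) (j : ℕ) (hj : j < n) : ∃ S : PMod g n,
    (∀ i, i + 1 < g → S.1 (sa i) = sa i) ∧ S.1 (sa (g - 1)) = sa (g - 1) * zp j ∧
    ∀ i, i < j → S.1 (zp i) = zp i := by
  obtain ⟨T, t1, t2, t3, t4, t5⟩ := exE (g := g) (n := n) hg j hj (wz j)
    ((sb (g - 1))⁻¹ * (wz j * sz j * (wz j)⁻¹)) rfl rfl
  set e : SG g n := (sb (g - 1))⁻¹ * (wz j * sz j * (wz j)⁻¹) with he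
  have hw : T.1 (wz j) = wz j := fix_list fun k hk => t4 k (by omega)
  have hTe : T.1 e = e := by
    conv_lhs => rw [he]
    rw [map_mul, map_inv, map_mul, map_mul, map_inv, t2, t5, hw]
    have : (e * sb (g - 1) * e⁻¹)⁻¹ *
        (wz j * ((wz j)⁻¹ * e * wz j * sz j * ((wz j)⁻¹ * e * wz j)⁻¹) * (wz j)⁻¹) =
        e * ((sb (g - 1))⁻¹ * (wz j * sz j * (wz j)⁻¹)) * e⁻¹ := by group
    rw [this, ← he]; group
  obtain ⟨B, b1, b2, b3⟩ := exB (g := g) (n := n) (g - 1)
  have hTa : T.1 (sa (g - 1) * e) = sa (g - 1) := by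
    rw [map_mul, t1, hTe]
    group
  have hB : B.1 (sa (g - 1) * zp j) = sa (g - 1) * e := by
    rw [map_mul, b1, fix_zp b3.2, he, zp]
    group
  refine ⟨B⁻¹ * T⁻¹, fun i hi => ?_, ?_, fun i hi => ?_⟩
  · have h1 : (T⁻¹).1 (sa i) = sa i := inv_act' (t3 i (by omega)).1
    have h2 : (B⁻¹).1 (sa i) = sa i :=
      inv_act' (b3.1 i (by simp only [Set.mem_singleton_iff]; omega)).1
    show (B⁻¹).1 ((T⁻¹).1 (sa i)) = sa i
    rw [h1, h2]
  · show (B⁻¹).1 ((T⁻¹).1 (sa (g - 1))) = _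
    rw [inv_act' hTa, inv_act' hB]
  · have h0 : T.1 (zp i) = zp i := by
      unfold zp
      rw [map_mul, map_mul, map_inv, fix_list fun k hk => t4 k (by omega), t4 i (by omega)]
    have h1 : (T⁻¹).1 (zp i) = zp i := inv_act' h0
    have h2 : (B⁻¹).1 (zp i) = zp i := inv_act' (fix_zp b3.2 i)
    show (B⁻¹).1 ((T⁻¹).1 (zp i)) = zp i
    rw [h1, h2]

/-- The decreasing subset products of `x 0, ..., x (J - 1)`. -/
def vz {G : Type*} [Monoid G] (x : ℕ → G) : (J : ℕ) → (Fin J → Bool) → G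
  | 0, _ => 1
  | J + 1, e => (if e (Fin.last J) then x J else 1) * vz x J fun i => e i.castSucc

theorem vz_map {Q : Type*} [Group Q] (h : SG g n →* Q) (x : ℕ → SG g n) (J : ℕ)
    (e : Fin J → Bool) : h (vz x J e) = vz (fun i => h (x i)) J e := by
  induction J with
  | zero => exact map_one h
  | succ J ih =>
    simp only [vz]
    rw [map_mul, ih]
    congr 1
    split_ifs
    · rfl
    · exact map_one h

theorem vz_fix {T : PMod g n} {J : ℕ} (hT : ∀ i < J, T.1 (zp i) = zp i) (e : Fin J → Bool) :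
    T.1 (vz zp J e) = vz zp J e := by
  induction J with
  | zero => exact map_one T.1
  | succ J ih =>
    simp only [vz]
    rw [map_mul, ih fun i hi => hT i (by omega)]
    congr 1
    split_ifs
    · exact hT J (by omega)
    · exact map_one T.1

theorem vz_simple (hg : 1 ≤ g) (J : ℕ) (hJ : J ≤ n) (e : Fin J → Bool) : ∃ S : PMod g n,
    (∀ i, i + 1 < g → S.1 (sa i) = sa i) ∧ S.1 (sa (g - 1)) = sa (g - 1) * vz zp J e := by
  induction J with
  | zero => exact ⟨1, fun _ _ => rfl, (mul_one _).symm⟩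
  | succ J ih =>
    obtain ⟨S', h1, h2⟩ := ih (by omega) fun i => e i.castSucc
    simp only [vz]
    by_cases he : e (Fin.last J) = true
    · obtain ⟨S, s1, s2, s3⟩ := az_strong (g := g) (n := n) hg J (by omega)
      refine ⟨S * S', fun i hi => ?_, ?_⟩
      · show S.1 (S'.1 (sa i)) = sa i
        rw [h1 i hi, s1 i hi]
      · show S.1 (S'.1 (sa (g - 1))) = _
        rw [h2, map_mul, s2, vz_fix s3, if_pos he, mul_assoc]
    · refine ⟨S', h1, ?_⟩
      rw [if_neg he, one_mul, h2]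

open Classical in
/-- If more than half of the subset products lie in a subgroup, all factors do. -/
theorem half {G : Type*} [Group G] (K : Subgroup G) (x : ℕ → G) (J : ℕ)
    (h : (2 : ℝ) ^ J < 2 * ∑ e : Fin J → Bool, if vz x J e ∈ K then (1 : ℝ) else 0) :
    ∀ j < J, x j ∈ K := by
  induction J with
  | zero => intro j hj; omega
  | succ J ih =>
    rw [sum_snoc] at h
    have e1 : ∀ (e : Fin J → Bool) (b : Bool), vz x (J + 1) (Fin.snoc e b : Fin (J + 1) → Bool) =
        (if b then x J else 1) * vz x J e := by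
      intro e b
      simp only [vz, Fin.snoc_last, Fin.snoc_castSucc]
    simp only [e1, Bool.false_eq_true, if_false, if_true, one_mul] at h
    have hc : ∑ _e : Fin J → Bool, (1 : ℝ) = 2 ^ J := by
      rw [Finset.sum_const, nsmul_eq_mul, Finset.card_univ, Fintype.card_fun, Fintype.card_bool,
        Fintype.card_fin]
      push_cast
      ring
    by_cases hx : x J ∈ K
    · have e2 : ∀ e : Fin J → Bool, (x J * vz x J e ∈ K) = (vz x J e ∈ K) := fun e =>
        propext (K.mul_mem_cancel_left hx)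
      simp only [e2] at h
      rw [pow_succ] at h
      intro j hj
      rcases Nat.lt_succ_iff_lt_or_eq.1 hj with h1 | h1
      · refine ih ?_ j h1
        linarith
      · rw [h1]; exact hx
    · exfalso
      have h3 : ∀ e : Fin J → Bool, (if vz x J e ∈ K then (1 : ℝ) else 0) +
          (if x J * vz x J e ∈ K then (1 : ℝ) else 0) ≤ 1 := by
        intro e
        by_cases h1 : vz x J e ∈ K
        · have h2 : x J * vz x J e ∉ K := fun h2 => hx ((K.mul_mem_cancel_right h1).1 h2)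
          rw [if_pos h1, if_neg h2]
          norm_num
        · rw [if_neg h1]
          split_ifs <;> norm_num
      have h4 := Finset.sum_le_sum fun e (_ : e ∈ (Finset.univ : Finset (Fin J → Bool))) => h3 e
      rw [hc, Finset.sum_add_distrib] at h4
      rw [pow_succ] at h
      linarith

/-- Markov. -/
theorem markov (J : ℕ) (F : (Fin J → Bool) → ℝ) (hF : ∀ e, 0 ≤ F e) (ε : ℝ) (hε : 0 < ε)
    (h : ((2 : ℝ) ^ J)⁻¹ * ∑ e, F e ≤ ε) (P : (Fin J → Bool) → Prop) [DecidablePred P]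
    (hP : ∀ e, F e ≤ 3 * ε → P e) :
    (2 : ℝ) ^ J < 2 * ∑ e, if P e then (1 : ℝ) else 0 := by
  have h2 : (0 : ℝ) < 2 ^ J := by positivity
  have h3 : ∑ e, F e ≤ 2 ^ J * ε := by
    rw [inv_mul_le_iff₀ h2] at h
    exact h
  have h4 : ∀ e, 3 * ε * (1 - if P e then (1 : ℝ) else 0) ≤ F e := by
    intro e
    by_cases hp : P e
    · rw [if_pos hp]
      simpa using hF e
    · rw [if_neg hp]
      have : ¬ F e ≤ 3 * ε := fun h => hp (hP e h)
      linarith
  have h5 := Finset.sum_le_sum fun e (_ : e ∈ (Finset.univ : Finset (Fin J → Bool))) => h4 e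
  have hc : ∑ _e : Fin J → Bool, (1 : ℝ) = 2 ^ J := by
    rw [Finset.sum_const, nsmul_eq_mul, Finset.card_univ, Fintype.card_fun, Fintype.card_bool,
      Fintype.card_fin]
    push_cast
    ring
  rw [← Finset.mul_sum, Finset.sum_sub_distrib, hc] at h5
  by_contra hc
  push Not at hc
  nlinarith

open Classical in
/-- The loops around the punctures lie in a subgroup `K` which contains `h a_(g-1)` and all permutations with
a small right defect, if the average defect of the curves `a_(g-1) z_e` is small. -/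
theorem zp_mem (h : SG g n →* Perm X) (m : ℕ) (hg : 1 ≤ g) (ε : ℝ) (hε : 0 < ε)
    (K : Subgroup (Perm X))
    (hK : ∀ σ, hs (PB (fun i => h (sa i)) 0 m * pm σ - PB (fun i => h (sa i)) 0 m) ≤ 3 * ε → σ ∈ K)
    (ha : h (sa (g - 1)) ∈ K)
    (hav : ((2 : ℝ) ^ n)⁻¹ * ∑ e : Fin n → Bool, rT m (sa (g - 1) * vz zp n e) h ≤ ε) :
    ∀ j < n, h (zp j) ∈ K := by
  refine half K (fun i => h (zp i)) n ?_
  refine markov n (fun e => rT m (sa (g - 1) * vz zp n e) h) (fun e => hs_nonneg _) ε hε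
    hav _ fun e he => ?_
  have h1 : h (sa (g - 1) * vz zp n e) ∈ K := hK _ he
  rw [map_mul, vz_map] at h1
  exact (K.mul_mem_cancel_left ha).1 h1

/-- The sum over the orbit of the average defect of the curves `a_(g-1) z_e`. -/
theorem rT_vz_sum (ρ : SG g n →* Perm X) {m : ℕ} (hm : m + 1 ≤ g) :
    ∑ h ∈ (oo_fin ρ).toFinset,
      ((2 : ℝ) ^ n)⁻¹ * ∑ e : Fin n → Bool, rT m (sa (g - 1) * vz zp n e) h ≤
      4 * (3 / 4) ^ m * Fintype.card X * (oo_fin ρ).toFinset.card := by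
  refine avg_sum _ n (fun e h => rT m (sa (g - 1) * vz zp n e) h) _ fun e => ?_
  obtain ⟨S, s1, s2⟩ := vz_simple (g := g) (n := n) (by omega) n le_rfl e
  exact rT_sum ρ (by omega) (rt_of (k := g - 1) (by omega) (by omega) S
    (fun i hi => s1 i (by omega)) s2)

/-- the tests -/
noncomputable def tN (m : ℕ) : ((Fin g × Bool) ⊕ Fin 4) ⊕ Unit → (SG g n →* Perm X) → ℝ
  | .inl (.inl kb), h => tT m (fun _ => sa m) (.inl (.inl kb)) h
  | .inl (.inr t), h => tT m (fun _ => sa m) (.inr t) h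
  | .inr _, h => ((2 : ℝ) ^ n)⁻¹ * ∑ e : Fin n → Bool, rT m (sa (g - 1) * vz zp n e) h

theorem tN_nonneg (m : ℕ) (i : ((Fin g × Bool) ⊕ Fin 4) ⊕ Unit)
    (h : SG g n →* Perm X) : 0 ≤ tN m i h := by
  rcases i with (kb | t) | u
  · exact tT_nonneg m (fun _ => sa m) (.inl (.inl kb)) h
  · exact tT_nonneg m (fun _ => sa m) (.inr t) h
  · exact mul_nonneg (by positivity) (Finset.sum_nonneg fun e _ => hs_nonneg _)

theorem tN_sum (ρ : SG g n →* Perm X) {m : ℕ} (hm : 0 < m) (h3 : 3 * m ≤ g)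
    (i : ((Fin g × Bool) ⊕ Fin 4) ⊕ Unit) :
    ∑ h ∈ (oo_fin ρ).toFinset, tN m i h ≤
      4 * (3 / 4) ^ m * Fintype.card X * (oo_fin ρ).toFinset.card := by
  rcases i with (kb | t) | u
  · exact tT_sum ρ hm h3 (fun _ => sa m) (fun _ => rt_a le_rfl (by omega)) (.inl (.inl kb))
  · exact tT_sum ρ hm h3 (fun _ => sa m) (fun _ => rt_a le_rfl (by omega)) (.inr t)
  · exact rT_vz_sum ρ (by omega)

open Classical in
theorem blocksN (ρ : SG g n →* Perm X) (htr : ∀ p q : X, ∃ x, ρ x p = q) (m : ℕ) (hm : 0 < m)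
    (h3 : 3 * m ≤ g) (hX : 0 < Fintype.card X)
    (hnum : 3 * ((2 * g + 5 : ℕ) : ℝ) * (4 * (3 / 4) ^ m * Fintype.card X) * 10 ^ 8 *
      (Fintype.card X : ℝ) ^ 10 ≤ 1)
    (hpow : 2 * Fintype.card X < 2 ^ m) :
    ∃ S : PMod g n, ∀ i < 3, ∀ y z : X, ∃ v : SG g n,
      Pool.Agent.RGD.Sp (i * m) (i * m + m) v ∧ ρ (S.1 v) y = z := by
  have hne : (oo_fin ρ).toFinset.Nonempty := ⟨ρ, by
    rw [Set.Finite.mem_toFinset]
    exact ⟨1, fun x => rfl⟩⟩
  obtain ⟨h, hh, hT⟩ := pick (oo_fin ρ).toFinset hne Finset.univ (tN (X := X) m)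
    (fun i _ h _ => tN_nonneg m i h) (4 * (3 / 4) ^ m * Fintype.card X)
    (fun i _ => tN_sum ρ hm h3 i)
  rw [Set.Finite.mem_toFinset] at hh
  obtain ⟨S, hS⟩ := hh
  have hcard : (Finset.univ : Finset (((Fin g × Bool) ⊕ Fin 4) ⊕ Unit)).card = 2 * g + 5 := by
    rw [Finset.card_univ]
    simp only [Fintype.card_sum, Fintype.card_prod, Fintype.card_fin, Fintype.card_bool,
      Fintype.card_unit]
    omega
  rw [hcard] at hT
  obtain ⟨ε, hε⟩ : ∃ ε : ℝ, ε = ((2 * g + 5 : ℕ) : ℝ) * (4 * (3 / 4) ^ m * Fintype.card X) :=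
    ⟨_, rfl⟩
  rw [mul_assoc (3 : ℝ), ← hε] at hnum
  rw [← hε] at hT
  have hX' : (0 : ℝ) < Fintype.card X := by exact_mod_cast hX
  have hε0 : 0 < ε := by rw [hε]; positivity
  have ht : ∀ i, tN m i h ≤ ε := fun i => hT i (Finset.mem_univ _)
  have ht3 : ∀ i, tN m i h ≤ 3 * ε := fun i => (ht i).trans (by linarith)
  let L : Set (Perm X) := {σ | ∃ k, k < m ∧ (σ = h (sa k) ∨ σ = h (sb k)⁻¹)}
  let R : Set (Perm X) := {σ | hs (PB (fun i => h (sa i)) 0 m * pm σ -
    PB (fun i => h (sa i)) 0 m) ≤ 3 * ε}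
  have hRa : ∀ k, m ≤ k → k < g → h (sa k) ∈ R := fun k hk hk' => by
    have h1 := ht3 (.inl (.inl (⟨k, hk'⟩, true)))
    have h2 : tN m (.inl (.inl (⟨k, hk'⟩, true))) h = rT m (sa k) h := if_pos hk
    rw [h2] at h1
    exact h1
  have hRb : ∀ k, m ≤ k → k < g → h (sb k)⁻¹ ∈ R := fun k hk hk' => by
    have h1 := ht3 (.inl (.inl (⟨k, hk'⟩, false)))
    have h2 : tN m (.inl (.inl (⟨k, hk'⟩, false))) h = rT m (sb k)⁻¹ h := if_pos hk
    rw [h2] at h1
    exact h1
  have hmemA : ∀ k, k < g → h (sa k) ∈ Subgroup.closure (L ∪ R) := fun k hk => by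
    apply Subgroup.subset_closure
    rcases lt_or_ge k m with h1 | h1
    · exact Or.inl ⟨k, h1, Or.inl rfl⟩
    · exact Or.inr (hRa k h1 hk)
  have hmemB : ∀ k, k < g → h (sb k)⁻¹ ∈ Subgroup.closure (L ∪ R) := fun k hk => by
    apply Subgroup.subset_closure
    rcases lt_or_ge k m with h1 | h1
    · exact Or.inl ⟨k, h1, Or.inr rfl⟩
    · exact Or.inr (hRb k h1 hk)
  have hzp : ∀ j < n, h (zp j) ∈ Subgroup.closure (L ∪ R) :=
    zp_mem h m (by omega) ε hε0 (Subgroup.closure (L ∪ R))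
      (fun σ hσ => Subgroup.subset_closure (Or.inr hσ)) (hmemA (g - 1) (by omega)) (ht (.inr ()))
  have hall : ∀ x, h x ∈ Subgroup.closure (L ∪ R) := by
    intro x
    have h1 : (⊤ : Subgroup (SG g n)) ≤ (Subgroup.closure (L ∪ R)).comap h := by
      rw [← Pool.Agent.RGD.gg_gen, Subgroup.closure_le]
      rintro y (⟨k, hk, rfl | rfl⟩ | ⟨j, hj, rfl⟩)
      · exact hmemA k hk
      · exact hmemB k hk
      · exact hzp j hj
    exact h1 (Subgroup.mem_top x)
  have key := pos3 (PB (fun i => h (sa i)) 0 m) (PB (fun i => h (sa i)) m m)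
    (PB (fun i => h (sa i)) (2 * m) m) (PB_ds _ _ _) (PB_ds _ _ _) (PB_ds _ _ _) (3 * ε) (by positivity) hnum L R
    (fun p q => by
      obtain ⟨x, hx⟩ := htr p q
      refine ⟨h ((S⁻¹).1 x), hall _, ?_⟩
      rw [hS]
      have : S.1 ((S⁻¹).1 x) = x := by
        show S.1 ((S.1)⁻¹ x) = x
        simp
      rw [this, hx])
    (by
      have e : 2 * m - 1 + 1 = 2 * m := by omega
      rintro σ ⟨k, hk, hσ⟩
      rcases hσ with rfl | rfl
      · have h1 := ht3 (.inl (.inl (⟨k, by omega⟩, true)))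
        have h2 : tN m (.inl (.inl (⟨k, by omega⟩, true))) h = lT (2 * m - 1) m (sa k) h :=
          if_neg (by show ¬ m ≤ k; omega)
        rw [h2] at h1
        unfold lT at h1
        rwa [e] at h1
      · have h1 := ht3 (.inl (.inl (⟨k, by omega⟩, false)))
        have h2 : tN m (.inl (.inl (⟨k, by omega⟩, false))) h = lT (2 * m - 1) m (sb k)⁻¹ h :=
          if_neg (by show ¬ m ≤ k; omega)
        rw [h2] at h1
        unfold lT at h1
        rwa [e] at h1)
    (fun σ hσ => hσ)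
    (by
      refine (hs_conv_right _ _ _ _).trans ?_
      have h1 := ht3 (.inl (.inr 1))
      refine le_trans (le_of_eq ?_) h1
      show _ = ((2 : ℝ) ^ m)⁻¹ * ∑ e : Fin m → Bool, rT m (cube sa (2 * m) m e) h
      unfold rT
      simp only [cube_hom])
    (by
      refine (hs_conv_left _ _ _ _).trans ?_
      have h1 := ht3 (.inl (.inr 3))
      refine le_trans (le_of_eq ?_) h1
      show _ = ((2 : ℝ) ^ m)⁻¹ * ∑ e : Fin m → Bool, lT (2 * m - 1) m (cube sa 0 m e) h
      unfold lT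
      have e : 2 * m - 1 + 1 = 2 * m := by omega
      simp only [cube_hom, e])
    (by
      refine (hs_conv_right _ _ _ _).trans ?_
      have h1 := ht3 (.inl (.inr 0))
      refine le_trans (le_of_eq ?_) h1
      show _ = ((2 : ℝ) ^ m)⁻¹ * ∑ e : Fin m → Bool, rT m (cube sa m m e) h
      unfold rT
      simp only [cube_hom])
    (by
      refine (hs_conv_left _ _ _ _).trans ?_
      have h1 := ht3 (.inl (.inr 2))
      refine le_trans (le_of_eq ?_) h1
      show _ = ((2 : ℝ) ^ m)⁻¹ * ∑ e : Fin m → Bool, lT (m - 1) m (cube sa 0 m e) h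
      unfold lT
      have e : m - 1 + 1 = m := by omega
      simp only [cube_hom, e])
  have hlt : ((2 : ℝ) ^ m)⁻¹ < 1 / (2 * (Fintype.card X : ℝ)) := by
    have h1 : (0 : ℝ) < 2 * Fintype.card X := by
      have : (0 : ℝ) < Fintype.card X := by exact_mod_cast hX
      linarith
    have h2 : (2 * Fintype.card X : ℝ) < 2 ^ m := by exact_mod_cast hpow
    rw [← one_div]
    exact one_div_lt_one_div_of_lt h1 h2
  have fin : ∀ q, q + m ≤ g → ∀ y z : X, ((2 : ℝ) ^ m)⁻¹ < PB (fun i => h (sa i)) q m z y →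
      ∃ v : SG g n, Pool.Agent.RGD.Sp q (q + m) v ∧ ρ (S.1 v) y = z := by
    intro q hq y z hpos
    obtain ⟨e, he, hval⟩ := PB_pos hpos
    obtain ⟨_, T, hT, h2⟩ := cube_Sp (g := g) (n := n) hq e he
    refine ⟨cube sa q m e, ⟨T, Pool.Agent.RGC.suppI_of hT, h2.symm⟩, ?_⟩
    rw [← hS, cube_hom]
    exact hval
  refine ⟨S, fun i hi y z => ?_⟩
  obtain ⟨k1, k2, k3⟩ := key z y
  have hcase : i = 0 ∨ i = 1 ∨ i = 2 := by omega
  rcases hcase with rfl | rfl | rfl
  · have := fin 0 (by omega) y z (hlt.trans_le k1)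
    simpa using this
  · have := fin m (by omega) y z (hlt.trans_le k2)
    simpa using this
  · exact fin (2 * m) (by omega) y z (hlt.trans_le k3)

end Pool.Agent.PWX
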