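import Mathlib

/-!
# PWX: numerics without the number of punctures   (helper42)
-/

namespace Pool.Agent.PWX

private theorem phi_step (m : ℕ) (hm : 2 ≤ m) :
    (6 * ((m + 1 : ℕ) : ℝ) + 9) * (3 / 4) ^ (m + 1) ≤ (6 * (m : ℝ) + 9) * (3 / 4) ^ m := by
  have h1 : (2 : ℝ) ≤ m := by exact_mod_cast hm
  have h2 : (0 : ℝ) < (3 / 4) ^ m := by positivity
  rw [pow_succ]
  push_cast
  nlinarith

private theorem phi_mono (s t : ℕ) (hs : 2 ≤ s) :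
    (6 * ((s + t : ℕ) : ℝ) + 9) * (3 / 4) ^ (s + t) ≤ (6 * (s : ℝ) + 9) * (3 / 4) ^ s := by
  induction t with
  | zero => rfl
  | succ t ih => exact (phi_step (s + t) (by omega)).trans ih

private theorem psi (k : ℕ) :
    12 * 10 ^ 8 * ((6 * ((28 * k + 95 : ℕ) : ℝ) + 9) * (3 / 4) ^ (28 * k + 95)) *
      ((2 : ℝ) ^ k) ^ 11 ≤ 1 := by
  induction k with
  | zero => norm_num
  | succ k ih =>
    have h1 : (6 * ((28 * (k + 1) + 95 : ℕ) : ℝ) + 9) ≤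
        (13 / 10) * (6 * ((28 * k + 95 : ℕ) : ℝ) + 9) := by
      push_cast
      have : (0 : ℝ) ≤ k := Nat.cast_nonneg k
      linarith
    have h2 : ((3 : ℝ) / 4) ^ (28 * (k + 1) + 95) = (3 / 4) ^ (28 * k + 95) * (3 / 4) ^ 28 := by
      rw [← pow_add]
      congr 1
    have h3 : ((2 : ℝ) ^ (k + 1)) ^ 11 = ((2 : ℝ) ^ k) ^ 11 * 2048 := by
      rw [pow_succ (2 : ℝ) k, mul_pow]
      norm_num
    rw [h2, h3]
    obtain ⟨B, hB⟩ : ∃ B : ℝ, B = (6 * ((28 * k + 95 : ℕ) : ℝ) + 9) := ⟨_, rfl⟩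
    obtain ⟨W, hW⟩ : ∃ W : ℝ, W = ((3 : ℝ) / 4) ^ (28 * k + 95) := ⟨_, rfl⟩
    obtain ⟨D, hD⟩ : ∃ D : ℝ, D = ((2 : ℝ) ^ k) ^ 11 := ⟨_, rfl⟩
    rw [← hB] at h1 ih
    rw [← hW] at ih ⊢
    rw [← hD] at ih ⊢
    have hW0 : 0 ≤ W := by rw [hW]; positivity
    have hD0 : 0 ≤ D := by rw [hD]; positivity
    have hB0 : 0 ≤ B := by rw [hB]; positivity
    have h60 : ((3 : ℝ) / 4) ^ 28 * 2048 * (13 / 10) ≤ 1 := by norm_num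
    calc 12 * 10 ^ 8 * ((6 * ((28 * (k + 1) + 95 : ℕ) : ℝ) + 9) * (W * (3 / 4) ^ 28)) * (D * 2048)
        ≤ 12 * 10 ^ 8 * ((13 / 10 * B) * (W * (3 / 4) ^ 28)) * (D * 2048) := by gcongr
      _ = (12 * 10 ^ 8 * (B * W) * D) * ((3 / 4) ^ 28 * 2048 * (13 / 10)) := by ring
      _ ≤ 1 * 1 := mul_le_mul ih h60 (by positivity) zero_le_one
      _ = 1 := one_mul 1

/-- numerics, without a condition on the number of punctures -/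
theorem numB (g d k m : ℕ) (hm : m = g / 3) (h : 28 * k + 95 ≤ m) (hd : d ≤ 2 ^ k) :
    3 * ((2 * g + 5 : ℕ) : ℝ) * (4 * (3 / 4) ^ m * d) * 10 ^ 8 * (d : ℝ) ^ 10 ≤ 1 := by
  have hg : g ≤ 3 * m + 2 := by omega
  have hg' : (g : ℝ) ≤ 3 * m + 2 := by exact_mod_cast hg
  have hd' : (d : ℝ) ≤ 2 ^ k := by exact_mod_cast hd
  have hm0 : (0 : ℝ) ≤ m := Nat.cast_nonneg m
  have h1 : ((2 * g + 5 : ℕ) : ℝ) ≤ 6 * m + 9 := by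
    push_cast
    linarith
  obtain ⟨t, ht⟩ := Nat.exists_eq_add_of_le h
  have h2 := phi_mono (28 * k + 95) t (by omega)
  rw [← ht] at h2
  have h3 := psi k
  calc 3 * ((2 * g + 5 : ℕ) : ℝ) * (4 * (3 / 4) ^ m * d) * 10 ^ 8 * (d : ℝ) ^ 10
      ≤ 3 * (6 * m + 9) * (4 * (3 / 4) ^ m * 2 ^ k) * 10 ^ 8 * ((2 : ℝ) ^ k) ^ 10 := by
        gcongr
    _ = 12 * 10 ^ 8 * ((6 * m + 9) * (3 / 4) ^ m) * ((2 : ℝ) ^ k) ^ 11 := by ring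
    _ ≤ 12 * 10 ^ 8 * ((6 * ((28 * k + 95 : ℕ) : ℝ) + 9) * (3 / 4) ^ (28 * k + 95)) *
        ((2 : ℝ) ^ k) ^ 11 := by gcongr
    _ ≤ 1 := h3

theorem numB_pow (d k m : ℕ) (h : 28 * k + 95 ≤ m) (hd : d ≤ 2 ^ k) :
    2 * d < 2 ^ m := by
  calc 2 * d ≤ 2 * 2 ^ k := Nat.mul_le_mul_left 2 hd
    _ = 2 ^ (k + 1) := by ring
    _ < 2 ^ m := Nat.pow_lt_pow_right (by norm_num) (by omega)

end Pool.Agent.PWX
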