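import Pool.Agent.PWX.Fin
import Pool.Agent.PWX.FinN
import Pool.Agent.PWX.NumB

/-!
# PWX: all covers of degree at most `2 ^ k`, any number of punctures
-/

namespace Pool.Agent.PWX

open Pool.Agent.PWI Pool.Agent.RGD Equiv

theorem all_covers2 (g n k : ℕ) (hg : 84 * k + 285 ≤ g)
    (K : Subgroup (SG g n)) [K.FiniteIndex] (hK : K.index ≤ 2 ^ k) :
    K = Subgroup.closure {y | y ∈ K ∧ ∃ T : Mcg g n, y = T.act (loopA 0)} ∧
    ∀ H : Subgroup (Mcg g n), H.FiniteIndex →
      (∀ T : Mcg g n, T.act (loopA 0) ∈ K → pushPt (T.act (loopA 0)) ∈ H) → Kills H := by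
  have hk1 : 0 < K.index := Nat.pos_of_ne_zero Subgroup.FiniteIndex.index_ne_zero
  have h1 := numB g K.index k (g / 3) rfl (by omega) hK
  have h2 := numB_pow K.index k (g / 3) (by omega) hK
  refine final_of (by omega) K fun ρ ht => ?_
  obtain ⟨S, hS⟩ := blocksN ρ ht (g / 3) (by omega) (by omega)
    (by rw [Fintype.card_fin]; exact hk1) (by rw [Fintype.card_fin]; exact h1)
    (by rw [Fintype.card_fin]; exact h2)
  exact ⟨g / 3, S, by omega, by omega, hS⟩

end Pool.Agent.PWX
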