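import Pool.Agent.PWJ.Sup

/-!
# PWX / OneI (helper75): the group of a block of handles is `SG m 1`
-/

set_option autoImplicit false

namespace Pool.Agent.PWX

open Pool.Agent.PWI

namespace OneI

variable {m : ℕ}

/-- images of the generators in the free group -/
def uf (m : ℕ) : Gen m 1 → FreeGroup (Gen m 0)
  | Gen.a k => FreeGroup.of (Gen.a k)
  | Gen.b k => FreeGroup.of (Gen.b k)
  | Gen.z _ => (rel m 0)⁻¹

theorem uf_rel (m : ℕ) : ∀ r ∈ ({rel m 1} : Set (FreeGroup (Gen m 1))), FreeGroup.lift (uf m) r = 1 := by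
  intro r hr
  rw [Set.mem_singleton_iff] at hr
  subst hr
  unfold rel
  rw [map_mul, map_list_prod, map_list_prod, List.map_ofFn, List.map_ofFn]
  have h1 : (FreeGroup.lift (uf m) ∘ fun i : Fin m =>
      FreeGroup.of (Gen.a i : Gen m 1) * FreeGroup.of (Gen.b i) *
        (FreeGroup.of (Gen.a i))⁻¹ * (FreeGroup.of (Gen.b i))⁻¹) = fun i : Fin m =>
      FreeGroup.of (Gen.a i : Gen m 0) * FreeGroup.of (Gen.b i) *
        (FreeGroup.of (Gen.a i))⁻¹ * (FreeGroup.of (Gen.b i))⁻¹ := by
    funext i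
    simp only [Function.comp_apply, map_mul, map_inv, FreeGroup.lift_apply_of, uf]
  have h2 : (List.ofFn (FreeGroup.lift (uf m) ∘ fun j : Fin 1 =>
      FreeGroup.of (Gen.z j : Gen m 1))).prod = (rel m 0)⁻¹ := by
    simp [uf]
  rw [h1, h2]
  have h3 : rel m 0 = (List.ofFn fun i : Fin m =>
      FreeGroup.of (Gen.a i : Gen m 0) * FreeGroup.of (Gen.b i) *
        (FreeGroup.of (Gen.a i))⁻¹ * (FreeGroup.of (Gen.b i))⁻¹).prod := by
    unfold rel
    simp
  rw [← h3, mul_inv_cancel]

/-- the map to the free group -/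
def phi (m : ℕ) : SG m 1 →* FreeGroup (Gen m 0) := PresentedGroup.toGroup (uf_rel m)

/-- the map back -/
def psi (m : ℕ) : FreeGroup (Gen m 0) →* SG m 1 := iota m 0

theorem phi_a (k : ℕ) (hk : k < m) : phi m (sa k) = FreeGroup.of (Gen.a ⟨k, hk⟩) := by
  unfold phi sa
  rw [dif_pos hk, PresentedGroup.toGroup.of]
  rfl

theorem phi_b (k : ℕ) (hk : k < m) : phi m (sb k) = FreeGroup.of (Gen.b ⟨k, hk⟩) := by
  unfold phi sb
  rw [dif_pos hk, PresentedGroup.toGroup.of]
  rfl

theorem phi_z : phi m (sz 0) = (rel m 0)⁻¹ := by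
  unfold phi sz
  rw [dif_pos Nat.zero_lt_one, PresentedGroup.toGroup.of]
  rfl

theorem phi_psi (x : FreeGroup (Gen m 0)) : phi m (psi m x) = x := by
  have : (phi m).comp (psi m) = MonoidHom.id _ := by
    apply FreeGroup.ext_hom
    rintro (k | k | k)
    · show phi m (iota m 0 (FreeGroup.of (Gen.a k))) = _
      rw [iota_a, zero_add, phi_a k.1 k.2]
      rfl
    · show phi m (iota m 0 (FreeGroup.of (Gen.b k))) = _
      rw [iota_b, zero_add, phi_b k.1 k.2]
      rfl
    · exact k.elim0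
  exact DFunLike.congr_fun this x

theorem rel_hom {G : Type*} [Group G] (P : FreeGroup (Gen m 0) →* G) (M : FreeGroup (Gen m 1) →* G)
    (ha : ∀ k : Fin m, P (FreeGroup.of (Gen.a k)) = M (FreeGroup.of (Gen.a k)))
    (hb : ∀ k : Fin m, P (FreeGroup.of (Gen.b k)) = M (FreeGroup.of (Gen.b k))) :
    P (rel m 0) * M (FreeGroup.of (Gen.z 0)) = M (rel m 1) := by
  unfold rel
  rw [map_mul, map_mul, map_list_prod, map_list_prod, map_list_prod, map_list_prod,
    List.map_ofFn, List.map_ofFn, List.map_ofFn, List.map_ofFn]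
  have h1 : (P ∘ fun i : Fin m =>
      FreeGroup.of (Gen.a i : Gen m 0) * FreeGroup.of (Gen.b i) *
        (FreeGroup.of (Gen.a i))⁻¹ * (FreeGroup.of (Gen.b i))⁻¹) =
      M ∘ fun i : Fin m =>
      FreeGroup.of (Gen.a i : Gen m 1) * FreeGroup.of (Gen.b i) *
        (FreeGroup.of (Gen.a i))⁻¹ * (FreeGroup.of (Gen.b i))⁻¹ := by
    funext i
    simp only [Function.comp_apply, map_mul, map_inv, ha, hb]
  rw [h1]
  simp

theorem psi_rel : psi m (rel m 0) * sz 0 = 1 := by
  have h0 : (PresentedGroup.mk {rel m 1} (rel m 1) : SG m 1) = 1 :=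
    PresentedGroup.one_of_mem (Set.mem_singleton _)
  have h1 := rel_hom (psi m) (PresentedGroup.mk {rel m 1} : FreeGroup (Gen m 1) →* SG m 1)
    (fun k => by
      show iota m 0 (FreeGroup.of (Gen.a k)) = _
      rw [iota_a, zero_add]
      simp only [sa, dif_pos k.2]
      rfl)
    (fun k => by
      show iota m 0 (FreeGroup.of (Gen.b k)) = _
      rw [iota_b, zero_add]
      simp only [sb, dif_pos k.2]
      rfl)
  rw [h0] at h1
  have h2 : (sz 0 : SG m 1) = PresentedGroup.mk {rel m 1} (FreeGroup.of (Gen.z 0)) := by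
    simp only [sz, dif_pos Nat.zero_lt_one]
    rfl
  rw [h2]
  exact h1

theorem psi_phi (y : SG m 1) : psi m (phi m y) = y := by
  have : (psi m).comp (phi m) = MonoidHom.id _ := by
    apply PresentedGroup.ext
    rintro (k | k | k)
    · have e : (PresentedGroup.of (Gen.a k) : SG m 1) = sa k.1 := by
        simp only [sa, dif_pos k.2]
      show psi m (phi m (PresentedGroup.of (Gen.a k))) = PresentedGroup.of (Gen.a k)
      rw [e, phi_a k.1 k.2]
      show iota m 0 (FreeGroup.of (Gen.a k)) = _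
      rw [iota_a, zero_add]
    · have e : (PresentedGroup.of (Gen.b k) : SG m 1) = sb k.1 := by
        simp only [sb, dif_pos k.2]
      show psi m (phi m (PresentedGroup.of (Gen.b k))) = PresentedGroup.of (Gen.b k)
      rw [e, phi_b k.1 k.2]
      show iota m 0 (FreeGroup.of (Gen.b k)) = _
      rw [iota_b, zero_add]
    · have e : (PresentedGroup.of (Gen.z k) : SG m 1) = sz 0 := by
        have hk : k = 0 := Subsingleton.elim _ _
        subst hk
        simp only [sz, dif_pos Nat.zero_lt_one]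
        rfl
      show psi m (phi m (PresentedGroup.of (Gen.z k))) = PresentedGroup.of (Gen.z k)
      rw [e, phi_z, map_inv]
      exact inv_eq_of_mul_eq_one_right psi_rel
  exact DFunLike.congr_fun this y

/-- the isomorphism -/
def ee (m : ℕ) : SG m 1 ≃* FreeGroup (Gen m 0) where
  toFun := phi m
  invFun := psi m
  left_inv := psi_phi
  right_inv := phi_psi
  map_mul' := map_mul _

end OneI

open OneI in
theorem lift1 {g n : ℕ} (m i : ℕ) (h : i + m ≤ g) : ∃ j : SG m 1 →* SG g n,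
    (∀ k < m, j (sa k) = sa (i + k) ∧ j (sb k) = sb (i + k)) ∧
    (∀ x, j x ∈ (PWI.Wi i (i + m) : Subgroup (SG g n))) ∧
    ∀ S : PMod m 1, S.1 (sz 0) = sz 0 →
      ∃ T : PMod g n, PWI.SuppI T i (i + m) ∧ ∀ x, T.1 (j x) = j (S.1 x) := by
  refine ⟨(iota m i).comp (phi m), fun k hk => ⟨?_, ?_⟩, fun x => iota_mem_Wi m i _,
    fun S hS => ?_⟩
  · show iota m i (phi m (sa k)) = _
    rw [phi_a k hk, iota_a]
  · show iota m i (phi m (sb k)) = _
    rw [phi_b k hk, iota_b]
  · have hz : psi m (rel m 0) = (sz 0)⁻¹ := eq_inv_of_mul_eq_one_left psi_rel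
    let θ : MulAut (FreeGroup (Gen m 0)) := (ee m).symm.trans (S.1.trans (ee m))
    have hθ : ∀ x, θ x = phi m (S.1 (psi m x)) := fun x => rfl
    have hθr : θ (rel m 0) = rel m 0 := by
      rw [hθ, hz, map_inv, hS, map_inv, phi_z, inv_inv]
    obtain ⟨T, hT, hx⟩ := ext_supp (g := g) (n := n) m i h ⟨θ, hθr⟩
    refine ⟨T, hT, fun x => ?_⟩
    show T.1 (iota m i (phi m x)) = iota m i (phi m (S.1 x))
    rw [hx]
    show iota m i (θ (phi m x)) = _
    rw [hθ, psi_phi]

end Pool.Agent.PWX
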