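import Pool.Agent.PWX.OneH
import Pool.Agent.PWX.OneI
import Pool.Agent.PWM.Fin4

/-!
# PWX: a step of index at most `2 ^ k`, normal or not, costs `90 k + 301` handles   (helper87)
-/

namespace Pool.Agent.PWX

open Pool.Agent.PWI Equiv

variable {g n : ℕ}

theorem step_aux (L N : Subgroup (SG g n)) (m k : ℕ) (hm : m ≤ g) (hn : N.relIndex L ≠ 0)
    (hk : N.relIndex L ≤ 2 ^ k) (h : ContainsHandles L m) (t : ℕ) (ht : t ≤ m - (90 * k + 301)) :
    ∃ T : PMod g n, (∀ i < m, T.1 (sa i) ∈ L ∧ T.1 (sb i) ∈ L) ∧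
      ∀ i < t, T.1 (sa i) ∈ N ∧ T.1 (sb i) ∈ N := by
  classical
  have hfin : Finite (L ⧸ N.subgroupOf L) := by
    rw [Subgroup.relIndex, Subgroup.index] at hn
    exact Nat.finite_of_card_ne_zero hn
  let _ : Fintype (L ⧸ N.subgroupOf L) := Fintype.ofFinite _
  have hcard : Fintype.card (L ⧸ N.subgroupOf L) ≤ 2 ^ k := by
    rw [← Nat.card_eq_fintype_card]
    exact hk
  induction t with
  | zero =>
    obtain ⟨T, hT⟩ := h
    exact ⟨T, hT, fun i hi => absurd hi (Nat.not_lt_zero i)⟩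
  | succ t ih =>
    obtain ⟨T, hT, hTN⟩ := ih (by omega)
    obtain ⟨m', hm'⟩ : ∃ m', m' = m - t := ⟨_, rfl⟩
    have htm : t + m' = m := by omega
    obtain ⟨j, j1, j2, j3⟩ := lift1 (g := g) (n := n) m' t (by omega)
    rw [htm] at j2
    have hW : ∀ x ∈ (PWI.Wi t m : Subgroup (SG g n)), T.1 x ∈ L :=
      Wi_map_le T L fun k _ hk2 => hT k hk2
    let φ : SG m' 1 →* L :=
      { toFun := fun x => ⟨T.1 (j x), hW _ (j2 x)⟩
        map_one' := by
          apply Subtype.ext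
          show T.1 (j 1) = 1
          rw [map_one, map_one]
        map_mul' := fun x y => by
          apply Subtype.ext
          show T.1 (j (x * y)) = T.1 (j x) * T.1 (j y)
          rw [map_mul, map_mul] }
    have hφ : ∀ x, (φ x : SG g n) = T.1 (j x) := fun _ => rfl
    let ρ : SG m' 1 →* Perm (L ⧸ N.subgroupOf L) :=
      (MulAction.toPermHom L (L ⧸ N.subgroupOf L)).comp φ
    have hρ : ∀ x, ρ x ((1 : L) : L ⧸ N.subgroupOf L) = ((1 : L) : L ⧸ N.subgroupOf L) →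
        T.1 (j x) ∈ N := by
      intro x hx
      have h1 : ((φ x • (1 : L) : L) : L ⧸ N.subgroupOf L) = ((1 : L) : L ⧸ N.subgroupOf L) := hx
      rw [smul_eq_mul, mul_one] at h1
      rw [eq_comm, QuotientGroup.eq, inv_one, one_mul, Subgroup.mem_subgroupOf] at h1
      exact h1
    obtain ⟨S, s1, s2, s3⟩ := one_handle m' k (by omega) hcard ρ ((1 : L) : L ⧸ N.subgroupOf L)
    obtain ⟨T1, t1, t2⟩ := j3 S s1
    rw [htm] at t1
    refine ⟨T * T1, fun i hi => ?_, fun i hi => ?_⟩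
    · show T.1 (T1.1 (sa i)) ∈ L ∧ T.1 (T1.1 (sb i)) ∈ L
      rcases lt_or_ge i t with h1 | h1
      · rw [t1.fix (Or.inl h1) (sa_mem_Wi le_rfl (Nat.lt_succ_self i)),
          t1.fix (Or.inl h1) (sb_mem_Wi le_rfl (Nat.lt_succ_self i))]
        exact hT i hi
      · exact ⟨hW _ (t1.2.1 _ (sa_mem_Wi h1 hi)), hW _ (t1.2.1 _ (sb_mem_Wi h1 hi))⟩
    · show T.1 (T1.1 (sa i)) ∈ N ∧ T.1 (T1.1 (sb i)) ∈ N
      rcases Nat.lt_succ_iff_lt_or_eq.1 hi with h1 | h1
      · rw [t1.fix (Or.inl h1) (sa_mem_Wi le_rfl (Nat.lt_succ_self i)),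
          t1.fix (Or.inl h1) (sb_mem_Wi le_rfl (Nat.lt_succ_self i))]
        exact hTN i h1
      · subst h1
        have h2 := j1 0 (by omega)
        rw [add_zero] at h2
        rw [← h2.1, ← h2.2, t2, t2]
        exact ⟨hρ _ s2, hρ _ s3⟩

/-- Any step of index at most `2 ^ k`, normal or not, costs `90 k + 301` handles. -/
theorem handles_any (L N : Subgroup (SG g n)) (m k : ℕ) (hm : m ≤ g) (hn : N.relIndex L ≠ 0)
    (hk : N.relIndex L ≤ 2 ^ k) (h : ContainsHandles L m) :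
    ContainsHandles N (m - (90 * k + 301)) := by
  obtain ⟨T, -, hT⟩ := step_aux L N m k hm hn hk h _ le_rfl
  exact ⟨T, hT⟩

end Pool.Agent.PWX
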