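import Pool.Agent.PWM.Fin4
import Pool.Agent.PWX.Step

/-!
# PWX: chains of subgroups with a linear cost for every step of finite index
-/

namespace Pool.Agent.PWX

open Pool.Agent.PWI

/-- `LinCost2 P M c`: the subgroup `M` is joined to `P` by a chain of subgroups of total cost
`c`, where a step `N ≤ L` costs `1` if `N` is normal in `L` with cyclic quotient, any
`e ≥ 2 (i - 1)` if `N` has finite index `i` in `L`, any `e ≥ 71 k + 9` if `N` is normal in `L` of
finite index at most `2 ^ k`, and any `e ≥ 90 k + 301` if `N` has finite index at most `2 ^ k` in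
`L`. -/
inductive LinCost2 {G : Type} [Group G] (P : Subgroup G) : Subgroup G → ℕ → Prop
  | refl : LinCost2 P P 0
  | cyc {L N : Subgroup G} {c : ℕ} (hL : LinCost2 P L c) (hle : N ≤ L)
      (hno : (N.subgroupOf L).Normal) (hcy : ∃ t ∈ L, ∀ x ∈ L, ∃ e : ℤ, x * (t ^ e)⁻¹ ∈ N) :
      LinCost2 P N (c + 1)
  | idx {L N : Subgroup G} {c e : ℕ} (hL : LinCost2 P L c) (hle : N ≤ L) (hn : N.relIndex L ≠ 0)
      (he : 2 * (N.relIndex L - 1) ≤ e) : LinCost2 P N (c + e)
  | nor {L N : Subgroup G} {c e k : ℕ} (hL : LinCost2 P L c) (hle : N ≤ L)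
      (hno : (N.subgroupOf L).Normal) (hn : N.relIndex L ≠ 0)
      (hk : N.relIndex L ≤ 2 ^ k) (he : 71 * k + 9 ≤ e) : LinCost2 P N (c + e)
  | any {L N : Subgroup G} {c e k : ℕ} (hL : LinCost2 P L c) (hle : N ≤ L)
      (hn : N.relIndex L ≠ 0) (hk : N.relIndex L ≤ 2 ^ k) (he : 90 * k + 301 ≤ e) :
      LinCost2 P N (c + e)

variable {g n : ℕ}

theorem handles_linchain2 {P M : Subgroup (SG g n)} {c : ℕ} (h : LinCost2 P M c) (m : ℕ)
    (hm : m ≤ g) (hP : ContainsHandles P m) : ContainsHandles M (m - c) := by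
  induction h with
  | refl => exact hP
  | @cyc L N c hL hle hno hcy ih =>
    exact handles_mono (by omega) (handles_cyclic L N (m - c) (by omega) hno hcy ih)
  | @idx L N c e hL hle hn he ih =>
    exact handles_mono (by omega) (handles_index L N hn (m - c) (by omega) ih)
  | @nor L N c e k hL hle hno hn hk he ih =>
    exact handles_mono (by omega) (handles_lin L N (m - c) k (by omega) hno hn hk ih)
  | @any L N c e k hL hle hn hk he ih =>
    exact handles_mono (by omega) (handles_any L N (m - c) k (by omega) hn hk ih)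

theorem final5 (g n : ℕ) (hg : 3 ≤ g) (H : Subgroup (PMod g n)) [H.FiniteIndex]
    (M P : Subgroup (SG g n)) [M.Normal] [M.FiniteIndex] (c : ℕ) (hc : c + 2 ≤ g)
    (hM : LinCost2 P M c) (hP : ContainsHandles P (c + 2))
    (hH : ∀ x ∈ M, ∀ y ∈ M, push (x * y * x⁻¹ * y⁻¹) ∈ H)
    (f : H →* Multiplicative ℤ) (x : SG g n) (hx : push x ∈ H) : f ⟨push x, hx⟩ = 1 := by
  obtain ⟨T, hT⟩ := handles_linchain2 hM (c + 2) hc hP
  have h0 := hT 0 (by omega)
  have h1 := hT 1 (by omega)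
  have hN : M.index ≠ 0 := Subgroup.FiniteIndex.index_ne_zero
  have hxM : x ^ M.index ∈ M := Subgroup.pow_index_mem M x
  have hxH : push (x ^ M.index) ∈ H := by
    rw [map_pow]; exact H.pow_mem hx _
  have h := final_aux hg H f M T h0.1 h0.2 h1.1 h1.2 hH (x ^ M.index) hxM hxH
  have e : (⟨push (x ^ M.index), hxH⟩ : H) = ⟨push x, hx⟩ ^ M.index := by
    apply Subtype.ext
    show push (x ^ M.index) = push x ^ M.index
    rw [map_pow]
  rw [e, map_pow] at h
  exact pow_eq_one_int hN h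

theorem main8 (g n : ℕ) (hg : 3 ≤ g) (H : Subgroup (Mcg g n)) [H.FiniteIndex]
    (M P : Subgroup (Pi1 g n)) [M.Normal] [M.FiniteIndex] (c : ℕ) (hc : c + 2 ≤ g)
    (hM : LinCost2 P M c) (hP : HasHandles P (c + 2))
    (hH : ∀ x ∈ M, ∀ y ∈ M, pushPt (x * y * x⁻¹ * y⁻¹) ∈ H)
    (f : H →* Multiplicative ℤ) (x : Pi1 g n) (hx : pushPt x ∈ H) : f ⟨pushPt x, hx⟩ = 1 :=
  @final5 g n hg H ‹_› M P ‹_› ‹_› c hc hM hP hH f x hx

end Pool.Agent.PWX
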