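import Pool.Agent.PWM.Word

/-!
# PWX: non-Galois covers of exponential degree.  Common definitions
-/

namespace Pool.Agent.PWX

open Pool.Agent.PWI Equiv

variable {X : Type} [Fintype X] [DecidableEq X]

/-- The permutation matrix: `pm σ e_q = e_(σ q)`. -/
def pm (σ : Perm X) : Matrix X X ℝ := fun p q => if p = σ q then 1 else 0

/-- Sum of the squares of the entries. -/
def hs (A : Matrix X X ℝ) : ℝ := ∑ p, ∑ q, A p q ^ 2

/-- The average of the permutation matrices of the subset products of `x q, ..., x (q + j - 1)`. -/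
noncomputable def PB (x : ℕ → Perm X) (q j : ℕ) : Matrix X X ℝ :=
  ((2 : ℝ) ^ j)⁻¹ • ∑ e : Fin j → Bool, pm (cube x q j e)

end Pool.Agent.PWX
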