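import Pool.Agent.RGD.Main

/-!
# PWX: from three transitive blocks to the final statements
-/

namespace Pool.Agent.PWX

open Pool.Agent.PWI Pool.Agent.RGD Equiv

variable {g n d : ℕ}

/-- In some marking, each of the first three blocks of handles moves every point to every point by
simple closed curves. -/
def Blocks (ρ : SG g n →* Perm (Fin d)) : Prop :=
  ∃ (M : ℕ) (S : PMod g n), 0 < M ∧ 3 * M ≤ g ∧ ∀ i < 3, ∀ y z : Fin d,
    ∃ v : SG g n, RGD.Sp (i * M) (i * M + M) v ∧ ρ (S.1 v) y = z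

/-- Generation by simple curves. -/
theorem gen_of_blocks (ρ : SG g n →* Perm (Fin d)) (hB : Blocks ρ) (x0 : Fin d)
    (x : SG g n) (hx : ρ x x0 = x0) : x ∈ NS ρ x0 := by
  obtain ⟨M, S, hM, hg, key⟩ := hB
  let ρ' : SG g n →* Perm (Fin d) := ρ.comp (S.1 : SG g n →* SG g n)
  have hρ' : ∀ y, ρ' y = ρ (S.1 y) := fun _ => rfl
  have k0 := key 0 (by omega)
  have k1 := key 1 (by omega)
  have k2 := key 2 (by omega)
  have e0 : 0 * M = 0 := zero_mul _
  have e1 : 1 * M = M := one_mul _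
  have e2 : M + M = 2 * M := by ring
  have e3 : 2 * M + M = 3 * M := by ring
  rw [e0, zero_add] at k0
  rw [e1, e2] at k1
  rw [e3] at k2
  choose v0 sv0 hv0 using fun z => k0 x0 z
  choose t0 st0 ht0 using fun z => k0 z x0
  choose v1 sv1 hv1 using fun z => k1 x0 z
  choose t1 st1 ht1 using fun z => k1 z x0
  choose v2 sv2 hv2 using fun z => k2 x0 z
  choose t2 st2 ht2 using fun z => k2 z x0
  have hgen : ∀ y, ρ' y x0 = x0 → y ∈ NS ρ' x0 :=
    gen3 ρ' M hM hg x0 v0 v1 v2 t0 t1 t2 sv0 sv1 sv2 st0 st1 st2 hv0 hv1 hv2 ht0 ht1 ht2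
  obtain ⟨y, rfl⟩ := S.1.surjective x
  have h3 := hgen y hx
  have h4 : ∀ y ∈ NS ρ' x0, S.1 y ∈ NS ρ x0 := by
    intro y hy
    unfold NS at hy
    induction hy using Subgroup.closure_induction with
    | mem y hy => exact ns_mem (IsS.act hy.1 S) hy.2
    | one => rw [map_one]; exact Subgroup.one_mem _
    | mul x y _ _ hx hy => rw [map_mul]; exact Subgroup.mul_mem _ hx hy
    | inv x _ hx => rw [map_inv]; exact Subgroup.inv_mem _ hx
  exact h4 y h3

/-- The action on the cosets. -/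
theorem coset_rho {G : Type} [Group G] (K : Subgroup G) [K.FiniteIndex] :
    ∃ (ρ : G →* Perm (Fin K.index)) (x0 : Fin K.index),
      (∀ x, ρ x x0 = x0 ↔ x ∈ K) ∧ ∀ i j, ∃ x, ρ x i = j := by
  have : Finite (G ⧸ K) := K.finite_quotient_of_finiteIndex
  let e : (G ⧸ K) ≃ Fin K.index := Finite.equivFinOfCardEq rfl
  let ρ : G →* Perm (Fin K.index) :=
    { toFun := fun x => (e.symm.trans (MulAction.toPerm x)).trans e
      map_one' := by
        ext i
        simp
      map_mul' := fun x y => by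
        ext i
        simp [mul_smul] }
  have hρ : ∀ x i, ρ x i = e (x • e.symm i) := fun _ _ => rfl
  refine ⟨ρ, e ((1 : G) : G ⧸ K), fun x => ?_, fun i j => ?_⟩
  · rw [hρ, e.symm_apply_apply, e.apply_eq_iff_eq, MulAction.Quotient.smul_coe, smul_eq_mul, mul_one,
      eq_comm, QuotientGroup.eq, inv_one, one_mul]
  · obtain ⟨x, hx⟩ := MulAction.exists_smul_eq G (e.symm i) (e.symm j)
    exact ⟨x, by rw [hρ, hx, e.apply_symm_apply]⟩

/-- The final statements for one subgroup. -/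
theorem final_of (hg : 3 ≤ g) (K : Subgroup (SG g n)) [K.FiniteIndex]
    (hB : ∀ ρ : SG g n →* Perm (Fin K.index), (∀ i j, ∃ x, ρ x i = j) → Blocks ρ) :
    K = Subgroup.closure {y | y ∈ K ∧ ∃ T : Mcg g n, y = T.act (loopA 0)} ∧
    ∀ H : Subgroup (Mcg g n), H.FiniteIndex →
      (∀ T : Mcg g n, T.act (loopA 0) ∈ K → pushPt (T.act (loopA 0)) ∈ H) → Kills H := by
  obtain ⟨ρ, x0, h0, ht⟩ := coset_rho K
  have hgen : ∀ x, ρ x x0 = x0 → x ∈ NS ρ x0 := fun x hx => gen_of_blocks ρ (hB ρ ht) x0 x hx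
  refine ⟨?_, ?_⟩
  · apply le_antisymm
    · intro x hx
      have h1 := hgen x ((h0 x).2 hx)
      refine (Subgroup.closure_mono ?_ : NS ρ x0 ≤ _) h1
      rintro y ⟨⟨T, hT⟩, hy⟩
      exact ⟨(h0 y).1 hy, T, hT⟩
    · rw [Subgroup.closure_le]
      rintro y ⟨hy, -⟩
      exact hy
  · intro H hH h1 f x hx
    exact @kill_sg1 g n hg _ ρ x0 hgen H hH (fun S hS => h1 S ((h0 _).1 hS)) f x hx

end Pool.Agent.PWX
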