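import Pool.Agent.PWX.PosA
import Pool.Agent.PWX.OrbC
import Pool.Agent.RGD.Topo

/-!
# PWX, module D: three transitive blocks   (helper87, twin of helper37)
-/

set_option linter.unusedSectionVars false

namespace Pool.Agent.PWX

open Pool.Agent.PWI Equiv

variable {X : Type} [Fintype X] [DecidableEq X] {g n : ℕ}

/-- a large entry comes from a nonempty subset product -/
theorem PB_big {x : ℕ → Perm X} {q j : ℕ} {p r : X} (h : ((2 : ℝ) ^ j)⁻¹ < PB x q j p r) :
    ∃ e : Fin j → Bool, (∃ i, e i = true) ∧ cube x q j e r = p := by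
  by_contra hc
  push Not at hc
  have h2 : (0 : ℝ) < ((2 : ℝ) ^ j)⁻¹ := by positivity
  have h1 : ∑ e : Fin j → Bool, pm (cube x q j e) p r ≤ 1 := by
    rw [Finset.sum_eq_single (fun _ => false)]
    · unfold pm
      split_ifs <;> norm_num
    · intro e _ he
      have h3 : ∃ i, e i = true := by
        by_contra h4
        push Not at h4
        exact he (funext fun i => by simpa using h4 i)
      unfold pm
      exact if_neg fun h5 => hc e h3 h5.symm
    · intro h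
      exact absurd (Finset.mem_univ _) h
  rw [PB_apply] at h
  have h3 := mul_le_mul_of_nonneg_left h1 h2.le
  rw [mul_one] at h3
  linarith

/-- `x` is a curve on the right of the block `0, ..., m - 1` -/
def Rt (m : ℕ) (x : SG g n) : Prop := ∃ S : PMod g n, (∀ i < m, S.1 (sa i) = sa i) ∧ S.1 (sa m) = x

/-- `x` is a curve on the left of the blocks starting at `q + 1` -/
def Lt (q : ℕ) (x : SG g n) : Prop :=
  ∃ S : PMod g n, (∀ i, S.1 (sa (q + 1 + i)) = sa (q + 1 + i)) ∧ S.1 (sa q) = x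

theorem rt_of {m : ℕ} {x : SG g n} (h : RGD.Sp m g x) : Rt m x := by
  obtain ⟨S, hS, h1⟩ := h
  exact ⟨S, fun i hi => (hS.1 i (Or.inl hi)).1, h1⟩

theorem lt_of {q : ℕ} {x : SG g n} (hq : q < g) (h : RGD.Sp 0 (q + 1) x) : Lt q x := by
  obtain ⟨S, hS, h1⟩ := h
  obtain ⟨B, hB1, _, hB⟩ := Pool.Agent.RGC.bring (g := g) (n := n) 0 q (Nat.zero_le _) hq
  refine ⟨S * B⁻¹, fun i => ?_, ?_⟩
  · show S.1 ((B⁻¹).1 (sa (q + 1 + i))) = _
    have h2 : B.1 (sa (q + 1 + i)) = sa (q + 1 + i) := (hB.1 _ (Or.inr (by omega))).1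
    rw [act_inv_eq h2]
    exact (hS.1 _ (Or.inr (by omega))).1
  · show S.1 ((B⁻¹).1 (sa q)) = _
    rw [act_inv_eq hB1, h1]

theorem sp_of {q r : ℕ} {x : SG g n} (h : x ∈ (Pool.Agent.PWI.Sp q r : Set (SG g n))) :
    RGD.Sp q r x := by
  obtain ⟨_, S, hS, h1⟩ := h
  exact ⟨S, Pool.Agent.RGC.suppI_of hS, h1.symm⟩

theorem cube_hom (h : SG g n →* Perm X) (q m : ℕ) (e : Fin m → Bool) :
    cube (fun i => h (sa i)) q m e = h (cube sa q m e) := by
  unfold cube
  rw [map_list_prod, List.map_ofFn]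
  congr 2
  funext i
  simp only [Function.comp_apply]
  split_ifs
  · rfl
  · rw [map_one]

/-- the bound -/
noncomputable def tt (X : Type) [Fintype X] (m : ℕ) : ℝ := 4 * (3 / 4) ^ m * Fintype.card X

theorem sum_rt (ρ : SG g n →* Perm X) {m : ℕ} (hm : m + 1 ≤ g) {x : SG g n} (hx : Rt m x) :
    ∑ h ∈ (oo_fin ρ).toFinset, hs (PB (fun i => h (sa i)) 0 m * pm (h x) -
      PB (fun i => h (sa i)) 0 m) ≤ tt X m * (oo_fin ρ).toFinset.card := by
  obtain ⟨S, hS, rfl⟩ := hx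
  exact theta_right ρ m hm S hS

theorem sum_lt (ρ : SG g n →* Perm X) {m q : ℕ} (hm : q + m + 1 ≤ g) {x : SG g n} (hx : Lt q x) :
    ∑ h ∈ (oo_fin ρ).toFinset, hs (pm (h x) * PB (fun i => h (sa i)) (q + 1) m -
      PB (fun i => h (sa i)) (q + 1) m) ≤ tt X m * (oo_fin ρ).toFinset.card := by
  obtain ⟨S, hS, rfl⟩ := hx
  exact theta_left ρ q m hm S fun i _ => hS i

theorem tt_nonneg (m : ℕ) : 0 ≤ tt X m := by
  unfold tt
  positivity

private theorem avg_le {m : ℕ} {F : (Fin m → Bool) → ℝ} {c : ℝ} (h : ∀ e, F e ≤ c) :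
    ((2 : ℝ) ^ m)⁻¹ * ∑ e, F e ≤ c := by
  have h2 : (0 : ℝ) < 2 ^ m := by positivity
  have h1 : ∑ e, F e ≤ 2 ^ m * c := by
    refine (Finset.sum_le_sum fun e _ => h e).trans (le_of_eq ?_)
    rw [Finset.sum_const, Finset.card_univ, nsmul_eq_mul, Fintype.card_fun, Fintype.card_bool,
      Fintype.card_fin]
    push_cast
    rfl
  calc ((2 : ℝ) ^ m)⁻¹ * ∑ e, F e ≤ ((2 : ℝ) ^ m)⁻¹ * (2 ^ m * c) :=
        mul_le_mul_of_nonneg_left h1 (by positivity)
    _ = c := by rw [← mul_assoc, inv_mul_cancel₀ h2.ne', one_mul]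

private theorem hs_zero : hs (0 : Matrix X X ℝ) = 0 := by
  unfold hs
  simp

/-- block product on the right -/
theorem sum_right (ρ : SG g n →* Perm X) {m q : ℕ} (hq : m ≤ q) (hg : q + m ≤ g) (hm : 0 < m) :
    ∑ h ∈ (oo_fin ρ).toFinset, hs (PB (fun i => h (sa i)) 0 m * PB (fun i => h (sa i)) q m -
      PB (fun i => h (sa i)) 0 m) ≤ tt X m * (oo_fin ρ).toFinset.card := by
  refine (Finset.sum_le_sum fun h _ => hs_conv_right (PB (fun i => h (sa i)) 0 m)
    (fun i => h (sa i)) q m).trans ?_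
  rw [← Finset.mul_sum, Finset.sum_comm]
  refine avg_le fun e => ?_
  by_cases he : ∃ i, e i = true
  · simp only [cube_hom]
    have h1 := sp_of (cube_Sp (g := g) (n := n) hg e he)
    exact sum_rt ρ (by omega) (rt_of ((h1.left hq (by omega) hg).right hg))
  · push Not at he
    have h0 : ∀ h : SG g n →* Perm X, cube (fun i => h (sa i)) q m e = 1 := fun h =>
      cube_false _ _ _ fun i => by simpa using he i
    simp only [h0, pm_one, mul_one, sub_self, hs_zero, Finset.sum_const_zero]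
    exact mul_nonneg (tt_nonneg m) (Nat.cast_nonneg _)

/-- block product on the left -/
theorem sum_left (ρ : SG g n →* Perm X) {m q : ℕ} (hq : m ≤ q + 1) (hg : q + m + 1 ≤ g) :
    ∑ h ∈ (oo_fin ρ).toFinset, hs (PB (fun i => h (sa i)) 0 m * PB (fun i => h (sa i)) (q + 1) m -
      PB (fun i => h (sa i)) (q + 1) m) ≤ tt X m * (oo_fin ρ).toFinset.card := by
  refine (Finset.sum_le_sum fun h _ => hs_conv_left (PB (fun i => h (sa i)) (q + 1) m)
    (fun i => h (sa i)) 0 m).trans ?_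
  rw [← Finset.mul_sum, Finset.sum_comm]
  refine avg_le fun e => ?_
  by_cases he : ∃ i, e i = true
  · simp only [cube_hom]
    have h1 := sp_of (cube_Sp (g := g) (n := n) (q := 0) (j := m) (by omega) e he)
    rw [zero_add] at h1
    exact sum_lt ρ hg (lt_of (by omega) (h1.right hq))
  · push Not at he
    have h0 : ∀ h : SG g n →* Perm X, cube (fun i => h (sa i)) 0 m e = 1 := fun h =>
      cube_false _ _ _ fun i => by simpa using he i
    simp only [h0, pm_one, one_mul, sub_self, hs_zero, Finset.sum_const_zero]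
    exact mul_nonneg (tt_nonneg m) (Nat.cast_nonneg _)

/-- the curves used -/
theorem curves (m : ℕ) (hm : 0 < m) (hg : 2 * m < g) :
    ∃ c : (Fin g ⊕ Fin g) ⊕ Fin n → SG g n, (∀ i, Rt m (c i) ∨ Lt (2 * m - 1) (c i)) ∧
      Subgroup.closure (Set.range c) = ⊤ := by
  have hz : ∀ j : Fin n, ∃ a' : SG g n, Rt m a' ∧ RCV.zp j.1 = sb (g - 1) * a'⁻¹ * sa (g - 1) := by
    intro j
    obtain ⟨T, t1, _, t3, _, _⟩ := exE (g := g) (n := n) (by omega) j.1 j.2 _ _ rfl rfl
    obtain ⟨B, hB1, _, hB⟩ := Pool.Agent.RGC.bring (g := g) (n := n) m (g - 1) (by omega) (by omega)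
    refine ⟨T.1 (sa (g - 1)), ⟨T * B, fun i hi => ?_, ?_⟩, ?_⟩
    · show T.1 (B.1 (sa i)) = _
      rw [(hB.1 i (Or.inl hi)).1, (t3 i (by omega)).1]
    · show T.1 (B.1 (sa m)) = _
      rw [hB1]
    · rw [t1]
      unfold RCV.zp RCV.wz
      group
  choose a' ha' hzp using hz
  refine ⟨Sum.elim (Sum.elim (fun k : Fin g => sa k.1) (fun k : Fin g => (sb k.1)⁻¹)) a', ?_, ?_⟩
  · rintro ((k | k) | j)
    · have h1 : RGD.Sp k.1 (k.1 + 1) (sa k.1 : SG g n) := RGD.sp_a
      have hk := k.2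
      rcases lt_or_ge k.1 m with h | h
      · right
        refine lt_of (by omega) ?_
        exact (h1.left (q := 0) (Nat.zero_le _) (by omega) (by omega)).right (by omega)
      · left
        exact rt_of ((h1.left (q := m) h (by omega) (by omega)).right (by omega))
    · have hk := k.2
      have h1 : RGD.Sp k.1 (k.1 + 1) ((sb k.1)⁻¹ : SG g n) := RGD.sp_b hk
      rcases lt_or_ge k.1 m with h | h
      · right
        refine lt_of (by omega) ?_
        exact (h1.left (q := 0) (Nat.zero_le _) (by omega) (by omega)).right (by omega)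
      · left
        exact rt_of ((h1.left (q := m) h (by omega) (by omega)).right (by omega))
    · exact Or.inl (ha' j)
  · rw [eq_top_iff, ← RGD.gg_gen, Subgroup.closure_le]
    have hc : ∀ i, (Sum.elim (Sum.elim (fun k : Fin g => (sa k.1 : SG g n))
        (fun k : Fin g => (sb k.1)⁻¹)) a') i ∈ Subgroup.closure (Set.range
        (Sum.elim (Sum.elim (fun k : Fin g => (sa k.1 : SG g n))
          (fun k : Fin g => (sb k.1)⁻¹)) a')) :=
      fun i => Subgroup.subset_closure ⟨i, rfl⟩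
    have ha : ∀ k (hk : k < g), (sa k : SG g n) ∈ _ := fun k hk => hc (Sum.inl (Sum.inl ⟨k, hk⟩))
    have hb : ∀ k (hk : k < g), ((sb k)⁻¹ : SG g n) ∈ _ := fun k hk =>
      hc (Sum.inl (Sum.inr ⟨k, hk⟩))
    rintro x (⟨k, hk, rfl | rfl⟩ | ⟨j, hj, rfl⟩)
    · exact ha k hk
    · exact hb k hk
    · have h1 := hzp ⟨j, hj⟩
      rw [show RCV.zp j = RCV.zp (⟨j, hj⟩ : Fin n).1 from rfl, h1]
      refine Subgroup.mul_mem _ (Subgroup.mul_mem _ ?_ (Subgroup.inv_mem _ (hc (Sum.inr ⟨j, hj⟩))))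
        (ha _ (by omega))
      have h2 := Subgroup.inv_mem _ (hb (g - 1) (by omega))
      rwa [inv_inv] at h2

/-- the choice of the marking -/
theorem good (ρ : SG g n →* Perm X) (m : ℕ) (hm : 0 < m) (hg : 3 * m ≤ g)
    (c : (Fin g ⊕ Fin g) ⊕ Fin n → SG g n) (hc : ∀ i, Rt m (c i) ∨ Lt (2 * m - 1) (c i)) :
    ∃ h ∈ OO ρ,
      (∀ i, hs (PB (fun i => h (sa i)) 0 m * pm (h (c i)) - PB (fun i => h (sa i)) 0 m) ≤
          (2 * g + n + 4) * tt X m ∨
        hs (pm (h (c i)) * PB (fun i => h (sa i)) (2 * m) m - PB (fun i => h (sa i)) (2 * m) m) ≤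
          (2 * g + n + 4) * tt X m) ∧
      hs (PB (fun i => h (sa i)) 0 m * PB (fun i => h (sa i)) (2 * m) m -
        PB (fun i => h (sa i)) 0 m) ≤ (2 * g + n + 4) * tt X m ∧
      hs (PB (fun i => h (sa i)) 0 m * PB (fun i => h (sa i)) (2 * m) m -
        PB (fun i => h (sa i)) (2 * m) m) ≤ (2 * g + n + 4) * tt X m ∧
      hs (PB (fun i => h (sa i)) 0 m * PB (fun i => h (sa i)) m m -
        PB (fun i => h (sa i)) 0 m) ≤ (2 * g + n + 4) * tt X m ∧
      hs (PB (fun i => h (sa i)) 0 m * PB (fun i => h (sa i)) m m -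
        PB (fun i => h (sa i)) m m) ≤ (2 * g + n + 4) * tt X m := by
  classical
  let P (h : SG g n →* Perm X) (q : ℕ) : Matrix X X ℝ := PB (fun i => h (sa i)) q m
  let F (i : (Fin g ⊕ Fin g) ⊕ Fin n) (h : SG g n →* Perm X) : ℝ :=
    if Rt m (c i) then hs (P h 0 * pm (h (c i)) - P h 0)
    else hs (pm (h (c i)) * P h (2 * m) - P h (2 * m))
  let E1 (h : SG g n →* Perm X) : ℝ := hs (P h 0 * P h (2 * m) - P h 0)
  let E2 (h : SG g n →* Perm X) : ℝ := hs (P h 0 * P h (2 * m) - P h (2 * m))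
  let E3 (h : SG g n →* Perm X) : ℝ := hs (P h 0 * P h m - P h 0)
  let E4 (h : SG g n →* Perm X) : ℝ := hs (P h 0 * P h m - P h m)
  have hF : ∀ i, ∑ h ∈ (oo_fin ρ).toFinset, F i h ≤ tt X m * (oo_fin ρ).toFinset.card := by
    intro i
    simp only [F]
    by_cases hi : Rt m (c i)
    · simp only [if_pos hi]
      exact sum_rt ρ (by omega) hi
    · simp only [if_neg hi]
      have h1 := sum_lt ρ (m := m) (q := 2 * m - 1) (by omega) ((hc i).resolve_left hi)
      rwa [show 2 * m - 1 + 1 = 2 * m by omega] at h1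
  have hF0 : ∀ i h, 0 ≤ F i h := by
    intro i h
    simp only [F]
    split_ifs <;> exact hs_nonneg _
  have h1 : ∑ h ∈ (oo_fin ρ).toFinset, E1 h ≤ tt X m * (oo_fin ρ).toFinset.card :=
    sum_right ρ (by omega) (by omega) hm
  have h2 : ∑ h ∈ (oo_fin ρ).toFinset, E2 h ≤ tt X m * (oo_fin ρ).toFinset.card := by
    have h3 := sum_left ρ (m := m) (q := 2 * m - 1) (by omega) (by omega)
    rwa [show 2 * m - 1 + 1 = 2 * m by omega] at h3
  have h3 : ∑ h ∈ (oo_fin ρ).toFinset, E3 h ≤ tt X m * (oo_fin ρ).toFinset.card :=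
    sum_right ρ le_rfl (by omega) hm
  have h4 : ∑ h ∈ (oo_fin ρ).toFinset, E4 h ≤ tt X m * (oo_fin ρ).toFinset.card := by
    have h3 := sum_left ρ (m := m) (q := m - 1) (by omega) (by omega)
    rwa [show m - 1 + 1 = m by omega] at h3
  have hne : (oo_fin ρ).toFinset.Nonempty :=
    ⟨ρ, by rw [Set.Finite.mem_toFinset]; exact ⟨1, fun x => rfl⟩⟩
  have htot : ∑ h ∈ (oo_fin ρ).toFinset, ((∑ i, F i h) + (E1 h + E2 h + E3 h + E4 h)) ≤
      ∑ _h ∈ (oo_fin ρ).toFinset, ((2 * g + n + 4 : ℝ) * tt X m) := by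
    rw [Finset.sum_add_distrib, Finset.sum_comm]
    simp only [Finset.sum_add_distrib, Finset.sum_const, nsmul_eq_mul]
    have h5 : ∑ i, ∑ h ∈ (oo_fin ρ).toFinset, F i h ≤
        (2 * g + n : ℝ) * (tt X m * (oo_fin ρ).toFinset.card) := by
      refine (Finset.sum_le_sum fun i _ => hF i).trans (le_of_eq ?_)
      rw [Finset.sum_const, Finset.card_univ, nsmul_eq_mul]
      simp only [Fintype.card_sum, Fintype.card_fin]
      push_cast
      ring
    nlinarith [h1, h2, h3, h4, h5]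
  obtain ⟨h, hh, hle⟩ := Finset.exists_le_of_sum_le hne htot
  have hs0 : 0 ≤ ∑ i, F i h := Finset.sum_nonneg fun i _ => hF0 i h
  have n1 : 0 ≤ E1 h := hs_nonneg _
  have n2 : 0 ≤ E2 h := hs_nonneg _
  have n3 : 0 ≤ E3 h := hs_nonneg _
  have n4 : 0 ≤ E4 h := hs_nonneg _
  refine ⟨h, (Set.Finite.mem_toFinset _).1 hh, fun i => ?_, ?_, ?_, ?_, ?_⟩
  · have h5 : F i h ≤ ∑ i, F i h := Finset.single_le_sum (fun i _ => hF0 i h) (Finset.mem_univ i)
    have h6 : F i h ≤ (2 * g + n + 4) * tt X m := by linarith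
    simp only [F] at h6
    by_cases hi : Rt m (c i)
    · rw [if_pos hi] at h6
      exact Or.inl h6
    · rw [if_neg hi] at h6
      exact Or.inr h6
  · show E1 h ≤ _
    linarith
  · show E2 h ≤ _
    linarith
  · show E3 h ≤ _
    linarith
  · show E4 h ≤ _
    linarith

theorem blocks (ρ : SG g n →* Perm X) (htr : ∀ i j : X, ∃ x, ρ x i = j) (m : ℕ) (hm : 0 < m)
    (hg : 3 * m ≤ g)
    (hnum : ((2 * g + n + 4 : ℝ)) * (4 * (3 / 4) ^ m * Fintype.card X) * 10 ^ 8 *
      (Fintype.card X : ℝ) ^ 10 ≤ 1) (hpow : 2 * Fintype.card X < 2 ^ m) :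
    ∃ S : PMod g n, ∀ i < 3, ∀ y z : X, ∃ v : SG g n,
      RGD.Sp (i * m) (i * m + m) v ∧ ρ (S.1 v) y = z := by
  obtain ⟨c, hc, htop⟩ := curves (g := g) (n := n) m hm (by omega)
  obtain ⟨h, ⟨S, hS⟩, hF, h1, h2, h3, h4⟩ := good ρ m hm hg c hc
  refine ⟨S, fun i hi y z => ?_⟩
  have hε : (0 : ℝ) ≤ (2 * g + n + 4) * tt X m := mul_nonneg (by positivity) (tt_nonneg m)
  have key := pos3 (PB (fun i => h (sa i)) 0 m) (PB (fun i => h (sa i)) m m)
    (PB (fun i => h (sa i)) (2 * m) m) (PB_ds _ _ _) (PB_ds _ _ _) (PB_ds _ _ _)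
    ((2 * g + n + 4) * tt X m) hε hnum
    {σ | hs (pm σ * PB (fun i => h (sa i)) (2 * m) m - PB (fun i => h (sa i)) (2 * m) m) ≤
          (2 * g + n + 4) * tt X m}
    {σ | hs (PB (fun i => h (sa i)) 0 m * pm σ - PB (fun i => h (sa i)) 0 m) ≤
          (2 * g + n + 4) * tt X m}
    ?_ (fun σ hσ => hσ) (fun σ hσ => hσ) h1 h2 h3 h4 z y
  · have hX : (0 : ℝ) < Fintype.card X := by
      exact_mod_cast Fintype.card_pos_iff.2 ⟨y⟩
    have hp : ((2 : ℝ) ^ m)⁻¹ < 1 / (2 * (Fintype.card X : ℝ)) := by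
      rw [one_div]
      apply inv_strictAnti₀ (by positivity)
      exact_mod_cast hpow
    have hbig : ((2 : ℝ) ^ m)⁻¹ < PB (fun i => h (sa i)) (i * m) m z y := by
      have h5 : i = 0 ∨ i = 1 ∨ i = 2 := by omega
      rcases h5 with rfl | rfl | rfl
      · rw [zero_mul]
        exact lt_of_lt_of_le hp key.1
      · rw [one_mul]
        exact lt_of_lt_of_le hp key.2.1
      · exact lt_of_lt_of_le hp key.2.2
    obtain ⟨e, he, he2⟩ := PB_big hbig
    have h6 : i * m + m ≤ g := by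
      have : i * m ≤ 2 * m := Nat.mul_le_mul_right _ (by omega)
      omega
    refine ⟨cube sa (i * m) m e, sp_of (cube_Sp h6 e he), ?_⟩
    rw [← hS, ← cube_hom]
    exact he2
  · intro p q
    obtain ⟨x, hx⟩ := htr p q
    obtain ⟨x', rfl⟩ := S.1.surjective x
    refine ⟨h x', ?_, by rw [hS]; exact hx⟩
    have h7 : x' ∈ Subgroup.closure (Set.range c) := by
      rw [htop]
      exact Subgroup.mem_top _
    have h8 := Subgroup.mem_map_of_mem h h7
    rw [MonoidHom.map_closure] at h8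
    refine Subgroup.closure_mono ?_ h8
    rintro _ ⟨_, ⟨i, rfl⟩, rfl⟩
    rcases hF i with h9 | h9
    · exact Or.inr h9
    · exact Or.inl h9

end Pool.Agent.PWX
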