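import Mathlib

/-!
# PWX: numerics for `N` blocks   (helper42)
-/

namespace Pool.Agent.PWX

private theorem phi_step (m : ℕ) (hm : 2 ≤ m) :
    (9 * ((m + 1 : ℕ) : ℝ) + 11) * (3 / 4) ^ (m + 1) ≤ (9 * (m : ℝ) + 11) * (3 / 4) ^ m := by
  have h1 : (2 : ℝ) ≤ m := by exact_mod_cast hm
  have h2 : (0 : ℝ) < (3 / 4) ^ m := by positivity
  rw [pow_succ]
  push_cast
  nlinarith

private theorem phi_mono (s t : ℕ) (hs : 2 ≤ s) :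
    (9 * ((s + t : ℕ) : ℝ) + 11) * (3 / 4) ^ (s + t) ≤ (9 * (s : ℝ) + 11) * (3 / 4) ^ s := by
  induction t with
  | zero => rfl
  | succ t ih => exact (phi_step (s + t) (by omega)).trans ih

private theorem psi (k : ℕ) :
    12 * 10 ^ 8 * ((9 * ((30 * k + 100 : ℕ) : ℝ) + 11) * (3 / 4) ^ (30 * k + 100)) *
      ((2 : ℝ) ^ k) ^ 12 ≤ 1 := by
  induction k with
  | zero => norm_num
  | succ k ih =>
    have h1 : (9 * ((30 * (k + 1) + 100 : ℕ) : ℝ) + 11) ≤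
        (13 / 10) * (9 * ((30 * k + 100 : ℕ) : ℝ) + 11) := by
      push_cast
      have : (0 : ℝ) ≤ k := Nat.cast_nonneg k
      linarith
    have h2 : ((3 : ℝ) / 4) ^ (30 * (k + 1) + 100) = (3 / 4) ^ (30 * k + 100) * (3 / 4) ^ 30 := by
      rw [← pow_add]
      congr 1
    have h3 : ((2 : ℝ) ^ (k + 1)) ^ 12 = ((2 : ℝ) ^ k) ^ 12 * 4096 := by
      rw [pow_succ (2 : ℝ) k, mul_pow]
      norm_num
    rw [h2, h3]
    obtain ⟨B, hB⟩ : ∃ B : ℝ, B = (9 * ((30 * k + 100 : ℕ) : ℝ) + 11) := ⟨_, rfl⟩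
    obtain ⟨W, hW⟩ : ∃ W : ℝ, W = ((3 : ℝ) / 4) ^ (30 * k + 100) := ⟨_, rfl⟩
    obtain ⟨D, hD⟩ : ∃ D : ℝ, D = ((2 : ℝ) ^ k) ^ 12 := ⟨_, rfl⟩
    rw [← hB] at h1 ih
    rw [← hW] at ih ⊢
    rw [← hD] at ih ⊢
    have hW0 : 0 ≤ W := by rw [hW]; positivity
    have hD0 : 0 ≤ D := by rw [hD]; positivity
    have hB0 : 0 ≤ B := by rw [hB]; positivity
    have h60 : ((3 : ℝ) / 4) ^ 30 * 4096 * (13 / 10) ≤ 1 := by norm_num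
    calc 12 * 10 ^ 8 * ((9 * ((30 * (k + 1) + 100 : ℕ) : ℝ) + 11) * (W * (3 / 4) ^ 30)) * (D * 4096)
        ≤ 12 * 10 ^ 8 * ((13 / 10 * B) * (W * (3 / 4) ^ 30)) * (D * 4096) := by gcongr
      _ = (12 * 10 ^ 8 * (B * W) * D) * ((3 / 4) ^ 30 * 4096 * (13 / 10)) := by ring
      _ ≤ 1 * 1 := mul_le_mul ih h60 (by positivity) zero_le_one
      _ = 1 := one_mul 1

/-- numerics for `N` blocks of length `m` -/
theorem numC (g N d k m : ℕ) (hN0 : 0 < N) (hN : N ≤ 3 * 2 ^ k) (hm : m = g / N)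
    (h : 30 * k + 100 ≤ m) (hd : d ≤ 2 ^ k) :
    3 * ((3 * g + 2 : ℕ) : ℝ) * (4 * (3 / 4) ^ m * d) * 10 ^ 8 * (d : ℝ) ^ 10 ≤ 1 := by
  have hg : g < N * m + N := by
    rw [hm]
    have h1 := Nat.div_add_mod g N
    have h2 := Nat.mod_lt g hN0
    omega
  have hg2 : g + 1 ≤ 3 * 2 ^ k * (m + 1) := by
    calc g + 1 ≤ N * m + N := hg
      _ = N * (m + 1) := by ring
      _ ≤ 3 * 2 ^ k * (m + 1) := Nat.mul_le_mul_right _ hN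
  have hg' : (g : ℝ) + 1 ≤ 3 * 2 ^ k * (m + 1) := by exact_mod_cast hg2
  have hd' : (d : ℝ) ≤ 2 ^ k := by exact_mod_cast hd
  have hk : (1 : ℝ) ≤ 2 ^ k := one_le_pow₀ (by norm_num)
  have hm0 : (0 : ℝ) ≤ m := Nat.cast_nonneg m
  have h1 : ((3 * g + 2 : ℕ) : ℝ) ≤ (9 * m + 11) * 2 ^ k := by
    push_cast
    nlinarith
  obtain ⟨t, ht⟩ := Nat.exists_eq_add_of_le h
  have h2 := phi_mono (30 * k + 100) t (by omega)
  rw [← ht] at h2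
  have h3 := psi k
  calc 3 * ((3 * g + 2 : ℕ) : ℝ) * (4 * (3 / 4) ^ m * d) * 10 ^ 8 * (d : ℝ) ^ 10
      ≤ 3 * ((9 * m + 11) * 2 ^ k) * (4 * (3 / 4) ^ m * 2 ^ k) * 10 ^ 8 * ((2 : ℝ) ^ k) ^ 10 := by
        gcongr
    _ = 12 * 10 ^ 8 * ((9 * m + 11) * (3 / 4) ^ m) * ((2 : ℝ) ^ k) ^ 12 := by ring
    _ ≤ 12 * 10 ^ 8 * ((9 * ((30 * k + 100 : ℕ) : ℝ) + 11) * (3 / 4) ^ (30 * k + 100)) *
        ((2 : ℝ) ^ k) ^ 12 := by gcongr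
    _ ≤ 1 := h3

theorem numC_pow (d k m : ℕ) (h : 30 * k + 100 ≤ m) (hd : d ≤ 2 ^ k) :
    2 * d < 2 ^ m := by
  calc 2 * d ≤ 2 * 2 ^ k := Nat.mul_le_mul_left 2 hd
    _ = 2 ^ (k + 1) := by ring
    _ < 2 ^ m := Nat.pow_lt_pow_right (by norm_num) (by omega)

end Pool.Agent.PWX
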