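import Pool.Agent.PWX.FinN
import Pool.Agent.PWX.NumC
import Pool.Agent.PWX.Fin
import Pool.Agent.RGD.AsmP

/-!
# PWX: many covering blocks in one marking, handles in the stabiliser

Not used in the hand-ins (superseded by OneH, Step, Chain4: handles one at a time).
-/

namespace Pool.Agent.PWX.NB

open Pool.Agent.PWX Pool.Agent.PWI Equiv Finset

variable {X : Type} [Fintype X] [DecidableEq X] {g n : ℕ}

/-- letters -/
def lc (k : ℕ) (b : Bool) : SG g n := if b then sa k else (sb k)⁻¹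

/-- average right defect of a block of cubes -/
noncomputable def rA (m q : ℕ) (h : SG g n →* Perm X) : ℝ :=
  ((2 : ℝ) ^ m)⁻¹ * ∑ e : Fin m → Bool, rT m (cube sa q m e) h

/-- average left defect -/
noncomputable def lA (m q : ℕ) (h : SG g n →* Perm X) : ℝ :=
  ((2 : ℝ) ^ m)⁻¹ * ∑ e : Fin m → Bool, lT q m (cube sa 0 m e) h

theorem rT_nonneg (m : ℕ) (c : SG g n) (h : SG g n →* Perm X) : 0 ≤ rT m c h := hs_nonneg _

theorem lT_nonneg (q m : ℕ) (c : SG g n) (h : SG g n →* Perm X) : 0 ≤ lT q m c h := hs_nonneg _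

theorem rA_nonneg (m q : ℕ) (h : SG g n →* Perm X) : 0 ≤ rA m q h :=
  mul_nonneg (by positivity) (Finset.sum_nonneg fun _ _ => rT_nonneg _ _ _)

theorem lA_nonneg (m q : ℕ) (h : SG g n →* Perm X) : 0 ≤ lA m q h :=
  mul_nonneg (by positivity) (Finset.sum_nonneg fun _ _ => lT_nonneg _ _ _ _)

/-- the tests for `N` blocks -/
noncomputable def tM (m N : ℕ) (E : (SG g n →* Perm X) → ℝ) :
    ((Fin g × Bool) ⊕ (Fin N × Bool)) ⊕ Unit → (SG g n →* Perm X) → ℝ
  | .inl (.inl (k, b)), h => if m ≤ k.val then rT m (lc k.val b) h else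
      lT ((N - 1) * m - 1) m (lc k.val b) h
  | .inl (.inr (i, b)), h => if i.val = 0 then 0 else
      if b then rA m (i.val * m) h else lA m (i.val * m - 1) h
  | .inr _, h => E h

theorem tM_nonneg (m N : ℕ) (E : (SG g n →* Perm X) → ℝ) (hE : ∀ h, 0 ≤ E h)
    (i : ((Fin g × Bool) ⊕ (Fin N × Bool)) ⊕ Unit) (h : SG g n →* Perm X) : 0 ≤ tM m N E i h := by
  rcases i with (⟨k, b⟩ | ⟨i, b⟩) | _
  · unfold tM
    dsimp only
    split_ifs
    · exact rT_nonneg _ _ _
    · exact lT_nonneg _ _ _ _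
  · unfold tM
    dsimp only
    split_ifs
    · exact le_rfl
    · exact rA_nonneg _ _ _
    · exact lA_nonneg _ _ _
  · exact hE h

theorem tM_sum (ρ : SG g n →* Perm X) {m N : ℕ} (hm : 0 < m) (hN : 2 ≤ N) (hg : N * m ≤ g)
    (E : (SG g n →* Perm X) → ℝ)
    (hE : ∑ h ∈ (oo_fin ρ).toFinset, E h ≤
      4 * (3 / 4) ^ m * Fintype.card X * (oo_fin ρ).toFinset.card)
    (i : ((Fin g × Bool) ⊕ (Fin N × Bool)) ⊕ Unit) :
    ∑ h ∈ (oo_fin ρ).toFinset, tM m N E i h ≤
      4 * (3 / 4) ^ m * Fintype.card X * (oo_fin ρ).toFinset.card := by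
  obtain ⟨N', rfl⟩ : ∃ N', N = N' + 2 := ⟨N - 2, by omega⟩
  have hNm : (N' + 2) * m = N' * m + 2 * m := by ring
  have hNm' : (N' + 2 - 1) * m = N' * m + m := by
    rw [show N' + 2 - 1 = N' + 1 by omega]; ring
  rcases i with (⟨k, b⟩ | ⟨i, b⟩) | _
  · have hk := k.2
    by_cases h : m ≤ k.val
    · have e : ∀ h' : SG g n →* Perm X, tM m (N' + 2) E (.inl (.inl (k, b))) h' =
          rT m (lc k.val b) h' := fun h' => if_pos h
      rw [Finset.sum_congr rfl fun h' _ => e h']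
      refine rT_sum ρ (by omega) ?_
      cases b
      · exact rt_b h hk
      · exact rt_a h hk
    · have e : ∀ h' : SG g n →* Perm X, tM m (N' + 2) E (.inl (.inl (k, b))) h' =
          lT ((N' + 2 - 1) * m - 1) m (lc k.val b) h' := fun h' => if_neg h
      rw [Finset.sum_congr rfl fun h' _ => e h', hNm']
      refine lT_sum ρ (by omega) ?_
      cases b
      · exact lt_b (by omega) (by omega)
      · exact lt_a (by omega) (by omega)
  · have hi := i.2
    by_cases h0 : i.val = 0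
    · have e : ∀ h' : SG g n →* Perm X, tM m (N' + 2) E (.inl (.inr (i, b))) h' = 0 :=
        fun h' => if_pos h0
      rw [Finset.sum_congr rfl fun h' _ => e h', Finset.sum_const_zero]
      positivity
    · have h1 : i.val * m + m ≤ (N' + 2) * m := by
        have : (i.val + 1) * m ≤ (N' + 2) * m := Nat.mul_le_mul_right _ hi
        calc i.val * m + m = (i.val + 1) * m := by ring
          _ ≤ _ := this
      have h2 : m ≤ i.val * m := Nat.le_mul_of_pos_left _ (by omega)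
      cases b
      · have e : ∀ h' : SG g n →* Perm X, tM m (N' + 2) E (.inl (.inr (i, false))) h' =
            lA m (i.val * m - 1) h' := fun h' => by
          show (if i.val = 0 then 0 else if false = true then _ else _) = _
          rw [if_neg h0]; rfl
        rw [Finset.sum_congr rfl fun h' _ => e h']
        exact lT_cube_sum ρ (by omega) (by omega)
      · have e : ∀ h' : SG g n →* Perm X, tM m (N' + 2) E (.inl (.inr (i, true))) h' =
            rA m (i.val * m) h' := fun h' => by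
          show (if i.val = 0 then 0 else if true = true then _ else _) = _
          rw [if_neg h0]; rfl
        rw [Finset.sum_congr rfl fun h' _ => e h']
        exact rT_cube_sum ρ (by omega) (by omega) (by omega)
  · exact hE

/-- One marking in which all tests are small. -/
theorem marking (ρ : SG g n →* Perm X) {m N : ℕ} (hm : 0 < m) (hN : 2 ≤ N) (hg : N * m ≤ g)
    (E : (SG g n →* Perm X) → ℝ) (hE0 : ∀ h, 0 ≤ E h)
    (hE : ∑ h ∈ (oo_fin ρ).toFinset, E h ≤
      4 * (3 / 4) ^ m * Fintype.card X * (oo_fin ρ).toFinset.card) :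
    ∃ (h : SG g n →* Perm X) (S : PMod g n) (ε : ℝ), (∀ x, h x = ρ (S.1 x)) ∧ 0 ≤ ε ∧
      ε = ((2 * g + 2 * N + 1 : ℕ) : ℝ) * (4 * (3 / 4) ^ m * Fintype.card X) ∧
      (∀ k, m ≤ k → k < g → ∀ b, rT m (lc k b) h ≤ ε) ∧
      (∀ k, k < m → ∀ b, lT ((N - 1) * m - 1) m (lc k b) h ≤ ε) ∧
      (∀ i, 1 ≤ i → i < N → rA m (i * m) h ≤ ε ∧ lA m (i * m - 1) h ≤ ε) ∧ E h ≤ ε := by
  have hne : (oo_fin ρ).toFinset.Nonempty := ⟨ρ, by
    rw [Set.Finite.mem_toFinset]
    exact ⟨1, fun x => rfl⟩⟩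
  obtain ⟨h, hh, hT⟩ := pick (oo_fin ρ).toFinset hne Finset.univ (tM (X := X) m N E)
    (fun i _ h _ => tM_nonneg m N E hE0 i h) (4 * (3 / 4) ^ m * Fintype.card X)
    (fun i _ => tM_sum ρ hm hN hg E hE i)
  rw [Set.Finite.mem_toFinset] at hh
  obtain ⟨S, hS⟩ := hh
  have hcard : (Finset.univ : Finset (((Fin g × Bool) ⊕ (Fin N × Bool)) ⊕ Unit)).card =
      2 * g + 2 * N + 1 := by
    rw [Finset.card_univ]
    simp only [Fintype.card_sum, Fintype.card_prod, Fintype.card_fin, Fintype.card_bool,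
      Fintype.card_unit]
    omega
  rw [hcard] at hT
  have hmg : m ≤ g := le_trans (Nat.le_mul_of_pos_left _ (by omega)) hg
  refine ⟨h, S, _, hS, by positivity, rfl, ?_, ?_, ?_, ?_⟩
  · intro k hk hkg b
    have := hT (.inl (.inl (⟨k, hkg⟩, b))) (Finset.mem_univ _)
    have e : tM m N E (.inl (.inl (⟨k, hkg⟩, b))) h = rT m (lc k b) h := if_pos hk
    rwa [e] at this
  · intro k hk b
    have := hT (.inl (.inl (⟨k, by omega⟩, b))) (Finset.mem_univ _)
    have e : tM m N E (.inl (.inl (⟨k, by omega⟩, b))) h = lT ((N - 1) * m - 1) m (lc k b) h :=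
      if_neg (by show ¬ m ≤ k; omega)
    rwa [e] at this
  · intro i hi hiN
    have hi0 : ¬ i = 0 := by omega
    constructor
    · have := hT (.inl (.inr (⟨i, hiN⟩, true))) (Finset.mem_univ _)
      have e : tM m N E (.inl (.inr (⟨i, hiN⟩, true))) h = rA m (i * m) h := by
        show (if i = 0 then 0 else if true = true then _ else _) = _
        rw [if_neg hi0]; rfl
      rwa [e] at this
    · have := hT (.inl (.inr (⟨i, hiN⟩, false))) (Finset.mem_univ _)
      have e : tM m N E (.inl (.inr (⟨i, hiN⟩, false))) h = lA m (i * m - 1) h := by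
        show (if i = 0 then 0 else if false = true then _ else _) = _
        rw [if_neg hi0]; rfl
      rwa [e] at this
  · exact hT (.inr ()) (Finset.mem_univ _)

/-- All blocks cover, for a marking with small defects. -/
theorem cover_of (h : SG g n →* Perm X) {m N : ℕ} (hm : 0 < m) (hN : 3 ≤ N) (hg : N * m ≤ g)
    (hX : 0 < Fintype.card X) (ε ε' : ℝ) (hε : 0 ≤ ε) (hεε : ε ≤ ε')
    (hnum : ε' * 10 ^ 8 * (Fintype.card X : ℝ) ^ 10 ≤ 1) (hpow : 2 * Fintype.card X < 2 ^ m)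
    (h2 : ∀ k, k < m → ∀ b, lT ((N - 1) * m - 1) m (lc k b) h ≤ ε)
    (h3 : ∀ i, 1 ≤ i → i < N → rA m (i * m) h ≤ ε ∧ lA m (i * m - 1) h ≤ ε)
    (htr : ∀ p q : X, ∃ σ ∈ Subgroup.closure
      ({σ : Perm X | ∃ k, k < m ∧ ∃ b, σ = h (lc k b)} ∪
        {σ : Perm X | hs (PB (fun i => h (sa i)) 0 m * pm σ - PB (fun i => h (sa i)) 0 m) ≤ ε'}),
      σ p = q) :
    ∀ i < N, ∀ y z : X, ∃ v : SG g n, Pool.Agent.RGD.Sp (i * m) (i * m + m) v ∧ h v y = z := by
  have key : ∀ i, 1 ≤ i → i < N → ∀ p q : X,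
      1 / (2 * (Fintype.card X : ℝ)) ≤ PB (fun i => h (sa i)) 0 m p q ∧
      1 / (2 * (Fintype.card X : ℝ)) ≤ PB (fun i => h (sa i)) (i * m) m p q := by
    intro i hi hiN p q
    have hlast := h3 (N - 1) (by omega) (by omega)
    have hmid := h3 i hi hiN
    have e1 : (N - 1) * m - 1 + 1 = (N - 1) * m := by
      have : 1 ≤ (N - 1) * m := Nat.mul_pos (by omega) hm
      omega
    have e2 : i * m - 1 + 1 = i * m := by
      have : 1 ≤ i * m := Nat.mul_pos (by omega) hm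
      omega
    have conv1 : ∀ q, rA m q h ≤ ε → hs (PB (fun i => h (sa i)) 0 m * PB (fun i => h (sa i)) q m -
        PB (fun i => h (sa i)) 0 m) ≤ ε' := by
      intro q hq
      refine (hs_conv_right _ _ _ _).trans ((le_of_eq ?_).trans (hq.trans hεε))
      unfold rA rT
      simp only [cube_hom]
    have conv2 : ∀ q, 1 ≤ q → lA m (q - 1) h ≤ ε → hs (PB (fun i => h (sa i)) 0 m *
        PB (fun i => h (sa i)) q m - PB (fun i => h (sa i)) q m) ≤ ε' := by
      intro q hq1 hq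
      refine (hs_conv_left _ _ _ _).trans ((le_of_eq ?_).trans (hq.trans hεε))
      unfold lA lT
      have e : q - 1 + 1 = q := by omega
      simp only [cube_hom, e]
    have := pos3 (PB (fun i => h (sa i)) 0 m) (PB (fun i => h (sa i)) (i * m) m)
      (PB (fun i => h (sa i)) ((N - 1) * m) m) (PB_ds _ _ _) (PB_ds _ _ _) (PB_ds _ _ _) ε'
      (hε.trans hεε) hnum {σ : Perm X | ∃ k, k < m ∧ ∃ b, σ = h (lc k b)}
      {σ : Perm X | hs (PB (fun i => h (sa i)) 0 m * pm σ - PB (fun i => h (sa i)) 0 m) ≤ ε'} htr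
      (by
        rintro σ ⟨k, hk, b, rfl⟩
        have h4 := h2 k hk b
        unfold lT at h4
        rw [e1] at h4
        exact h4.trans hεε)
      (fun σ hσ => hσ)
      (conv1 _ hlast.1) (conv2 _ (Nat.mul_pos (by omega) hm) hlast.2)
      (conv1 _ hmid.1) (conv2 _ (Nat.mul_pos (by omega) hm) hmid.2) p q
    exact ⟨this.1, this.2.1⟩
  have hlt : ((2 : ℝ) ^ m)⁻¹ < 1 / (2 * (Fintype.card X : ℝ)) := by
    have h1 : (0 : ℝ) < 2 * Fintype.card X := by
      have : (0 : ℝ) < Fintype.card X := by exact_mod_cast hX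
      linarith
    have h2 : (2 * Fintype.card X : ℝ) < 2 ^ m := by exact_mod_cast hpow
    rw [← one_div]
    exact one_div_lt_one_div_of_lt h1 h2
  have fin : ∀ q, q + m ≤ g → ∀ y z : X, ((2 : ℝ) ^ m)⁻¹ < PB (fun i => h (sa i)) q m z y →
      ∃ v : SG g n, Pool.Agent.RGD.Sp q (q + m) v ∧ h v y = z := by
    intro q hq y z hpos
    obtain ⟨e, he, hval⟩ := PB_pos hpos
    obtain ⟨_, T, hT, h2⟩ := cube_Sp (g := g) (n := n) hq e he
    refine ⟨cube sa q m e, ⟨T, Pool.Agent.RGC.suppI_of hT, h2.symm⟩, ?_⟩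
    rw [cube_hom]
    exact hval
  intro i hi y z
  have hb : i * m + m ≤ g := by
    have h4 : (i + 1) * m ≤ N * m := Nat.mul_le_mul_right _ hi
    have h5 : (i + 1) * m = i * m + m := by ring
    omega
  rcases Nat.eq_zero_or_pos i with rfl | hi0
  · have := fin 0 (by omega) y z (hlt.trans_le (key 1 le_rfl (by omega) z y).1)
    simpa using this
  · exact fin (i * m) hb y z (hlt.trans_le (key i hi0 hi z y).2)

omit [Fintype X] [DecidableEq X] in
/-- One handle in the stabiliser from two covering blocks. -/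
theorem one_handle (h : SG g n →* Perm X) (x0 : X) (s q1 q2 m : ℕ) (hm : 0 < m) (h1 : s < q1)
    (h2 : q1 + m ≤ q2) (hg : q2 + m ≤ g)
    (c1 : ∀ y z : X, ∃ v : SG g n, Pool.Agent.RGD.Sp q1 (q1 + m) v ∧ h v y = z)
    (c2 : ∀ y z : X, ∃ v : SG g n, Pool.Agent.RGD.Sp q2 (q2 + m) v ∧ h v y = z) :
    ∃ T : PMod g n, Pool.Agent.RGC.SuppI T s (q2 + m) ∧ h (T.1 (sa s)) x0 = x0 ∧
      h (T.1 (sb s)) x0 = x0 := by
  obtain ⟨v1, ⟨S1, hS1, e1⟩, hv1⟩ := c1 x0 ((h (sa s))⁻¹ x0)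
  obtain ⟨W1, hW1, hW1s⟩ := Pool.Agent.RGC.farV (g := g) (n := n) s q1 h1 (by omega)
  obtain ⟨W2, hW2, hW2b, hW2s⟩ :=
    Pool.Agent.RGC.farU (g := g) (n := n) s q2 (by omega) (by omega)
  have hT1s : Pool.Agent.RGC.SuppI (S1 * W1) s (q1 + m) :=
    (hS1.mono (by omega) le_rfl).mul (hW1s.mono le_rfl (by omega))
  obtain ⟨v2, ⟨S2, hS2, e2⟩, hv2⟩ := c2 x0 (h ((S1 * W1).1 (sb s)) x0)
  have ha : (S1 * W1).1 (sa s) = sa s * v1 := by
    show S1.1 (W1.1 (sa s)) = _
    rw [hW1, map_mul, (hS1.1 s (Or.inl h1)).1, e1]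
  have ha2 : (S2 * W2).1 (sa s) = sa s := by
    show S2.1 (W2.1 (sa s)) = _
    rw [hW2, (hS2.1 s (Or.inl (by omega))).1]
  have hb2 : (S2 * W2).1 (sb s) = v2⁻¹ * sb s := by
    show S2.1 (W2.1 (sb s)) = _
    rw [hW2b, map_mul, map_inv, e2, (hS2.1 s (Or.inl (by omega))).2]
  have hv2m : v2 ∈ (Pool.Agent.RGC.Wi q2 (q2 + m) : Subgroup (SG g n)) :=
    Pool.Agent.RGD.Sp.mem ⟨S2, hS2, e2⟩ (by omega)
  have hfix : (S1 * W1).1 v2 = v2 := hT1s.fix (Or.inr h2) hv2m
  refine ⟨(S1 * W1) * (S2 * W2), ?_, ?_, ?_⟩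
  · exact (hT1s.mono le_rfl (by omega)).mul
      ((hS2.mono (by omega) le_rfl).mul (hW2s.mono le_rfl (by omega)))
  · show h ((S1 * W1).1 ((S2 * W2).1 (sa s))) x0 = x0
    rw [ha2, ha, map_mul, Perm.mul_apply, hv1, ← Perm.mul_apply, mul_inv_cancel, Perm.one_apply]
  · show h ((S1 * W1).1 ((S2 * W2).1 (sb s))) x0 = x0
    rw [hb2, map_mul, map_inv, hfix, map_mul, map_inv, Perm.mul_apply, ← hv2, ← Perm.mul_apply,
      inv_mul_cancel, Perm.one_apply]

omit [Fintype X] [DecidableEq X] in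
/-- Handles in the stabiliser. -/
theorem handles_of (ρ : SG g n →* Perm X) (S : PMod g n) (m c : ℕ) (hm : 0 < m)
    (hg : 3 * c * m ≤ g)
    (hB : ∀ i < 3 * c, ∀ y z : X, ∃ v : SG g n,
      Pool.Agent.RGD.Sp (i * m) (i * m + m) v ∧ ρ (S.1 v) y = z) (x0 : X) :
    ∃ T : PMod g n, ∀ t < c, ρ (T.1 (sa t)) x0 = x0 ∧ ρ (T.1 (sb t)) x0 = x0 := by
  let h : SG g n →* Perm X := ρ.comp (S.1 : SG g n →* SG g n)
  let K : Subgroup (SG g n) :=
    { carrier := {x | h x x0 = x0}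
      one_mem' := by
        show h 1 x0 = x0
        rw [map_one, Equiv.Perm.one_apply]
      mul_mem' := fun {a b} ha hb => by
        show h (a * b) x0 = x0
        rw [map_mul, Equiv.Perm.mul_apply, show h b x0 = x0 from hb, show h a x0 = x0 from ha]
      inv_mem' := fun {a} ha => by
        show h a⁻¹ x0 = x0
        rw [map_inv, Equiv.Perm.inv_eq_iff_eq]
        exact (show h a x0 = x0 from ha).symm }
  obtain ⟨T, hT⟩ := Pool.Agent.RGD.asmP K c (3 * m) (by omega)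
    (by
      have : c * (3 * m) = 3 * c * m := by ring
      omega) fun t ht => by
    have b1 : (3 * t + 1) * m = t * (3 * m) + m := by ring
    have b2 : (3 * t + 2) * m = t * (3 * m) + 2 * m := by ring
    have b3 : (3 * t + 2) * m + m ≤ g := by
      have h4 : (3 * t + 3) * m ≤ 3 * c * m := Nat.mul_le_mul_right _ (by omega)
      have h5 : (3 * t + 3) * m = (3 * t + 2) * m + m := by ring
      omega
    have := one_handle h x0 (t * (3 * m)) ((3 * t + 1) * m) ((3 * t + 2) * m) m hm (by omega)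
      (by omega) b3 (hB (3 * t + 1) (by omega)) (hB (3 * t + 2) (by omega))
    rw [show (3 * t + 2) * m + m = t * (3 * m) + 3 * m by omega] at this
    exact this
  exact ⟨S * T, fun t ht => hT t ht⟩

open Classical in
/-- `N` covering blocks in one marking, any number of punctures. -/
theorem blocksM (ρ : SG g n →* Perm X) (htr : ∀ p q : X, ∃ x, ρ x p = q) (m N : ℕ) (hm : 0 < m)
    (hN : 3 ≤ N) (hg : N * m ≤ g) (hX : 0 < Fintype.card X)
    (hnum : 3 * ((3 * g + 2 : ℕ) : ℝ) * (4 * (3 / 4) ^ m * Fintype.card X) * 10 ^ 8 *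
      (Fintype.card X : ℝ) ^ 10 ≤ 1)
    (hpow : 2 * Fintype.card X < 2 ^ m) :
    ∃ S : PMod g n, ∀ i < N, ∀ y z : X, ∃ v : SG g n,
      Pool.Agent.RGD.Sp (i * m) (i * m + m) v ∧ ρ (S.1 v) y = z := by
  have hm2 : 2 ≤ m := by
    by_contra hc
    have h1 : m = 1 := by omega
    subst h1
    omega
  have h2N : 2 * N ≤ g := by
    calc 2 * N = N * 2 := by ring
      _ ≤ N * m := Nat.mul_le_mul_left _ hm2
      _ ≤ g := hg
  have h3m : 3 * m ≤ g := (Nat.mul_le_mul_right _ hN).trans hg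
  obtain ⟨h, S, ε, hS, hε0, hεd, t1, t2, t3, t4⟩ := marking ρ (m := m) (N := N) hm (by omega) hg
    (fun h => ((2 : ℝ) ^ n)⁻¹ * ∑ e : Fin n → Bool, rT m (sa (g - 1) * vz Pool.Agent.RCV.zp n e) h)
    (fun h => mul_nonneg (by positivity) (Finset.sum_nonneg fun e _ => rT_nonneg _ _ _))
    (rT_vz_sum ρ (by omega))
  have hX' : (0 : ℝ) < Fintype.card X := by exact_mod_cast hX
  have hεpos : 0 < ε := by rw [hεd]; positivity
  have hle : ((2 * g + 2 * N + 1 : ℕ) : ℝ) ≤ ((3 * g + 2 : ℕ) : ℝ) := by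
    exact_mod_cast (by omega : 2 * g + 2 * N + 1 ≤ 3 * g + 2)
  have hnum' : 3 * ε * 10 ^ 8 * (Fintype.card X : ℝ) ^ 10 ≤ 1 := by
    refine le_trans ?_ hnum
    rw [hεd, mul_assoc (3 : ℝ) ((3 * g + 2 : ℕ) : ℝ)]
    gcongr
  have hε3 : ε ≤ 3 * ε := by linarith
  let C : Subgroup (Perm X) := Subgroup.closure
      ({σ : Perm X | ∃ k, k < m ∧ ∃ b, σ = h (lc k b)} ∪
        {σ : Perm X | hs (PB (fun i => h (sa i)) 0 m * pm σ - PB (fun i => h (sa i)) 0 m) ≤ 3 * ε})
  have hlc : ∀ k, k < g → ∀ b, h (lc k b) ∈ C := by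
    intro k hk b
    apply Subgroup.subset_closure
    rcases lt_or_ge k m with h1 | h1
    · exact Or.inl ⟨k, h1, b, rfl⟩
    · exact Or.inr ((t1 k h1 hk b).trans hε3)
  have hzp : ∀ j < n, h (Pool.Agent.RCV.zp j) ∈ C :=
    zp_mem h m (by omega) ε hεpos C (fun σ hσ => Subgroup.subset_closure (Or.inr hσ))
      (hlc (g - 1) (by omega) true) t4
  have hall : ∀ x, h x ∈ C := by
    intro x
    have h1 : (⊤ : Subgroup (SG g n)) ≤ C.comap h := by
      rw [← Pool.Agent.RGD.gg_gen, Subgroup.closure_le]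
      rintro y (⟨k, hk, rfl | rfl⟩ | ⟨j, hj, rfl⟩)
      · exact hlc k hk true
      · exact hlc k hk false
      · exact hzp j hj
    exact h1 (Subgroup.mem_top x)
  have hcov := cover_of h hm hN hg hX ε (3 * ε) hε0 hε3 hnum' hpow t2 t3 (fun p q => by
    obtain ⟨x, hx⟩ := htr p q
    refine ⟨h ((S⁻¹).1 x), hall _, ?_⟩
    rw [hS]
    have : S.1 ((S⁻¹).1 x) = x := by
      show S.1 ((S.1)⁻¹ x) = x
      simp
    rw [this, hx])
  refine ⟨S, fun i hi y z => ?_⟩
  obtain ⟨v, hv, hv'⟩ := hcov i hi y z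
  exact ⟨v, hv, by rw [← hS]; exact hv'⟩

/-- A subgroup of index at most `2 ^ k` contains `c` handles. -/
theorem has_handles (K : Subgroup (SG g n)) [K.FiniteIndex] (k c : ℕ) (hc : 0 < c)
    (hck : c ≤ 2 ^ k) (hK : K.index ≤ 2 ^ k) (hg : 3 * c * (30 * k + 100) ≤ g) :
    HasHandles (g := g) (n := n) K c := by
  obtain ⟨ρ, x0, h0, ht⟩ := coset_rho K
  have hN : 0 < 3 * c := by omega
  have hm : 30 * k + 100 ≤ g / (3 * c) := by
    rw [Nat.le_div_iff_mul_le hN]
    calc (30 * k + 100) * (3 * c) = 3 * c * (30 * k + 100) := by ring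
      _ ≤ g := hg
  have hg' : 3 * c * (g / (3 * c)) ≤ g := Nat.mul_div_le _ _
  obtain ⟨S, hS⟩ := blocksM ρ ht (g / (3 * c)) (3 * c) (by omega) (by omega) hg'
    (by rw [Fintype.card_fin]; exact Fin.pos x0)
    (by
      rw [Fintype.card_fin]
      exact numC g (3 * c) _ k _ hN (by omega) rfl hm hK)
    (by rw [Fintype.card_fin]; exact numC_pow _ k _ hm hK)
  obtain ⟨T, hT⟩ := handles_of ρ S (g / (3 * c)) c (by omega) hg' hS x0
  exact ⟨T, fun t ht => ⟨(h0 _).1 (hT t ht).1, (h0 _).1 (hT t ht).2⟩⟩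

/-- Subgroups joined to a subgroup of index at most `2 ^ k` by a chain of cost `c`. -/
theorem kills_chain (g n k c : ℕ) (hck : c + 2 ≤ 2 ^ k)
    (hg : 3 * (c + 2) * (30 * k + 100) ≤ g) (K M : Subgroup (SG g n)) [K.FiniteIndex]
    (hK : K.index ≤ 2 ^ k) [M.Normal] [M.FiniteIndex] (hM : LinCost K M c)
    (H : Subgroup (Mcg g n)) [H.FiniteIndex]
    (hH : ∀ x ∈ M, ∀ y ∈ M, pushPt (g := g) (n := n) (x * y * x⁻¹ * y⁻¹) ∈ H)
    (f : H →* Multiplicative ℤ) (x : Pi1 g n) (hx : pushPt x ∈ H) : f ⟨pushPt x, hx⟩ = 1 := by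
  have h1 : 3 * (c + 2) ≤ 3 * (c + 2) * (30 * k + 100) := Nat.le_mul_of_pos_right _ (by omega)
  exact @main6 g n (by omega) H ‹_› M K ‹_› ‹_› c (by omega) hM
    (has_handles K k (c + 2) (by omega) hck hK hg) hH f x hx

end Pool.Agent.PWX.NB
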