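import Pool.Agent.PWX.Step

/-!
# PWX: a subgroup of index at most `2 ^ k` contains all but `90 k + 301` handles
-/

namespace Pool.Agent.PWX

open Pool.Agent.PWI

theorem has_handles' (g n k : ℕ) (K : Subgroup (SG g n)) (h0 : K.index ≠ 0)
    (hk : K.index ≤ 2 ^ k) : ContainsHandles K (g - (90 * k + 301)) := by
  have h1 : K.relIndex ⊤ = K.index := Subgroup.relIndex_top_right K
  exact handles_any ⊤ K g k le_rfl (by rw [h1]; exact h0) (by rw [h1]; exact hk)
    ⟨1, fun _ _ => ⟨Subgroup.mem_top _, Subgroup.mem_top _⟩⟩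

/-- A subgroup of index at most `2 ^ k` contains all but `90 k + 301` handles. -/
theorem has_handles (g n k : ℕ) (K : Subgroup (Pi1 g n)) (h0 : K.index ≠ 0) (hk : K.index ≤ 2 ^ k) :
    HasHandles K (g - (90 * k + 301)) :=
  has_handles' g n k K h0 hk

end Pool.Agent.PWX
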