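import Mathlib

/-!
# PWX: numerical inequality
-/

namespace Pool.Agent.PWX

theorem bern (x c : ℝ) (hx : 0 < x) (hc : 0 < c) (hc1 : c ≤ 1) (h : x * (1 + c) ≤ 1) (k : ℕ) :
    (1 + (k : ℝ)) * x ^ k ≤ c⁻¹ := by
  have h1 : 1 + (k : ℝ) * c ≤ (1 + c) ^ k := one_add_mul_le_pow (by linarith) k
  have h2 : x ^ k * (1 + c) ^ k ≤ 1 := by
    rw [← mul_pow]
    exact pow_le_one₀ (by positivity) h
  have h3 : c * (1 + (k : ℝ)) ≤ 1 + (k : ℝ) * c := by nlinarith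
  have h4 : 0 < x ^ k := by positivity
  have h5 : x ^ k * (c * (1 + (k : ℝ))) ≤ 1 :=
    (mul_le_mul_of_nonneg_left (h3.trans h1) h4.le).trans h2
  rw [← one_div, le_div_iff₀ hc]
  nlinarith

theorem num37 (g n d k m : ℕ) (hm : m = g / 3) (h : 30 * k + 100 ≤ m) (hd : d ≤ 2 ^ k)
    (hn : n ≤ 2 ^ k) :
    ((2 * g + n + 4 : ℕ) : ℝ) * (4 * (3 / 4) ^ m * d) * 10 ^ 8 * (d : ℝ) ^ 10 ≤ 1 := by
  obtain ⟨r, hr⟩ : ∃ r, m = 30 * k + 100 + r := ⟨m - (30 * k + 100), by omega⟩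
  have hA : 2 * g + n + 4 ≤ 609 * (1 + k) * (1 + r) * 2 ^ k := by
    have h1 : 1 ≤ 2 ^ k := Nat.one_le_two_pow
    have h2 : 2 * g + n + 4 ≤ 180 * k + 6 * r + 608 + 2 ^ k := by omega
    have h3 : 180 * k + 6 * r + 609 ≤ 609 * (1 + k) * (1 + r) := by nlinarith [Nat.zero_le (k * r)]
    calc 2 * g + n + 4 ≤ 180 * k + 6 * r + 608 + 2 ^ k := h2
      _ ≤ (180 * k + 6 * r + 609) * 2 ^ k := by nlinarith
      _ ≤ _ := Nat.mul_le_mul_right _ h3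
  have hA' : ((2 * g + n + 4 : ℕ) : ℝ) ≤ 609 * (1 + (k : ℝ)) * (1 + (r : ℝ)) * 2 ^ k := by
    exact_mod_cast hA
  have hd' : (d : ℝ) ≤ 2 ^ k := by exact_mod_cast hd
  have hd0 : (0 : ℝ) ≤ d := Nat.cast_nonneg d
  have hd10 : (d : ℝ) ^ 10 ≤ (2 ^ k) ^ 10 := pow_le_pow_left₀ hd0 hd' 10
  have e1 : ((3 : ℝ) / 4) ^ m = ((3 / 4) ^ 30) ^ k * (3 / 4) ^ 100 * (3 / 4) ^ r := by
    rw [hr, pow_add, pow_add, pow_mul]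
  have hk := bern ((2 : ℝ) ^ 12 * (3 / 4) ^ 30) (36 / 100) (by positivity) (by norm_num) (by norm_num)
    (by norm_num) k
  have hrr := bern ((3 : ℝ) / 4) (1 / 3) (by norm_num) (by norm_num) (by norm_num) (by norm_num) r
  have step : ((2 * g + n + 4 : ℕ) : ℝ) * (4 * (3 / 4) ^ m * d) * 10 ^ 8 * (d : ℝ) ^ 10 ≤
      (609 * (1 + (k : ℝ)) * (1 + (r : ℝ)) * 2 ^ k) * (4 * (3 / 4) ^ m * 2 ^ k) * 10 ^ 8 *
        (2 ^ k) ^ 10 := by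
    gcongr
  refine step.trans ?_
  rw [e1]
  have e2 : (609 * (1 + (k : ℝ)) * (1 + (r : ℝ)) * 2 ^ k) *
      (4 * (((3 / 4) ^ 30) ^ k * (3 / 4) ^ 100 * (3 / 4) ^ r) * 2 ^ k) * 10 ^ 8 * (2 ^ k) ^ 10 =
      (609 * 4 * 10 ^ 8 * (3 / 4) ^ 100) * ((1 + (k : ℝ)) * ((2 : ℝ) ^ 12 * (3 / 4) ^ 30) ^ k) *
        ((1 + (r : ℝ)) * (3 / 4) ^ r) := by
    rw [mul_pow, ← pow_mul (2 : ℝ) 12 k, mul_comm 12 k, pow_mul (2 : ℝ) k 12]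
    ring
  rw [e2]
  have hk0 : 0 ≤ (1 + (k : ℝ)) * ((2 : ℝ) ^ 12 * (3 / 4) ^ 30) ^ k := by positivity
  have hr0 : 0 ≤ (1 + (r : ℝ)) * (3 / 4) ^ r := by positivity
  calc (609 * 4 * 10 ^ 8 * (3 / 4) ^ 100) * ((1 + (k : ℝ)) * ((2 : ℝ) ^ 12 * (3 / 4) ^ 30) ^ k) *
        ((1 + (r : ℝ)) * (3 / 4) ^ r)
      ≤ (609 * 4 * 10 ^ 8 * (3 / 4) ^ 100) * ((36 / 100 : ℝ)⁻¹) * ((1 / 3 : ℝ)⁻¹) := by
        gcongr
    _ ≤ 1 := by norm_num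

theorem num37' (d k m : ℕ) (h : 30 * k + 100 ≤ m) (hd : d ≤ 2 ^ k) : 2 * d < 2 ^ m := by
  calc 2 * d ≤ 2 * 2 ^ k := Nat.mul_le_mul_left _ hd
    _ = 2 ^ (k + 1) := by rw [pow_succ]; ring
    _ < 2 ^ m := Nat.pow_lt_pow_right (by norm_num) (by omega)

end Pool.Agent.PWX
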