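import Pool.Agent.PWX.Num37

/-!
# PWX: numerical inequality for `N` blocks   (helper87)
-/

namespace Pool.Agent.PWX

theorem numM (g N d k m : ℕ) (hN3 : 3 ≤ N) (hN : N ≤ 3 * 2 ^ k) (hm : m = g / N)
    (h : 30 * k + 105 ≤ m) (hd : d ≤ 2 ^ k) :
    ((3 * g + 2 : ℕ) : ℝ) * 3 * (4 * (3 / 4) ^ m * d) * 10 ^ 8 * (d : ℝ) ^ 10 ≤ 1 := by
  obtain ⟨r, hr⟩ : ∃ r, m = 30 * k + 105 + r := ⟨m - (30 * k + 105), by omega⟩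
  have hA : (3 * g + 2) * 3 ≤ 2862 * (1 + k) * (1 + r) * 2 ^ k := by
    have h0 : g < N * (m + 1) := by
      rw [hm]
      exact Nat.lt_mul_div_succ g (by omega)
    have h1 : N * (m + 1) ≤ 3 * 2 ^ k * (m + 1) := Nat.mul_le_mul_right _ hN
    have h2 : m + 1 ≤ 106 * (1 + k) * (1 + r) := by
      rw [hr]
      nlinarith [Nat.zero_le (k * r)]
    have h3 : 3 * 2 ^ k * (m + 1) ≤ 3 * 2 ^ k * (106 * (1 + k) * (1 + r)) :=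
      Nat.mul_le_mul_left _ h2
    have h4 : 3 * 2 ^ k * (106 * (1 + k) * (1 + r)) = 318 * ((1 + k) * (1 + r) * 2 ^ k) := by ring
    have h5 : 2862 * (1 + k) * (1 + r) * 2 ^ k = 2862 * ((1 + k) * (1 + r) * 2 ^ k) := by ring
    rw [h5]
    rw [h4] at h3
    omega
  have hA' : ((3 * g + 2 : ℕ) : ℝ) * 3 ≤ 2862 * (1 + (k : ℝ)) * (1 + (r : ℝ)) * 2 ^ k := by
    exact_mod_cast hA
  have hd' : (d : ℝ) ≤ 2 ^ k := by exact_mod_cast hd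
  have hd0 : (0 : ℝ) ≤ d := Nat.cast_nonneg d
  have hd10 : (d : ℝ) ^ 10 ≤ (2 ^ k) ^ 10 := pow_le_pow_left₀ hd0 hd' 10
  have e1 : ((3 : ℝ) / 4) ^ m = ((3 / 4) ^ 30) ^ k * (3 / 4) ^ 105 * (3 / 4) ^ r := by
    rw [hr, pow_add, pow_add, pow_mul]
  have hk := bern ((2 : ℝ) ^ 12 * (3 / 4) ^ 30) (36 / 100) (by positivity) (by norm_num) (by norm_num)
    (by norm_num) k
  have hrr := bern ((3 : ℝ) / 4) (1 / 3) (by norm_num) (by norm_num) (by norm_num) (by norm_num) r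
  have step : ((3 * g + 2 : ℕ) : ℝ) * 3 * (4 * (3 / 4) ^ m * d) * 10 ^ 8 * (d : ℝ) ^ 10 ≤
      (2862 * (1 + (k : ℝ)) * (1 + (r : ℝ)) * 2 ^ k) * (4 * (3 / 4) ^ m * 2 ^ k) * 10 ^ 8 *
        (2 ^ k) ^ 10 := by
    gcongr
  refine step.trans ?_
  rw [e1]
  have e2 : (2862 * (1 + (k : ℝ)) * (1 + (r : ℝ)) * 2 ^ k) *
      (4 * (((3 / 4) ^ 30) ^ k * (3 / 4) ^ 105 * (3 / 4) ^ r) * 2 ^ k) * 10 ^ 8 * (2 ^ k) ^ 10 =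
      (2862 * 4 * 10 ^ 8 * (3 / 4) ^ 105) * ((1 + (k : ℝ)) * ((2 : ℝ) ^ 12 * (3 / 4) ^ 30) ^ k) *
        ((1 + (r : ℝ)) * (3 / 4) ^ r) := by
    rw [mul_pow, ← pow_mul (2 : ℝ) 12 k, mul_comm 12 k, pow_mul (2 : ℝ) k 12]
    ring
  rw [e2]
  have hk0 : 0 ≤ (1 + (k : ℝ)) * ((2 : ℝ) ^ 12 * (3 / 4) ^ 30) ^ k := by positivity
  have hr0 : 0 ≤ (1 + (r : ℝ)) * (3 / 4) ^ r := by positivity
  calc (2862 * 4 * 10 ^ 8 * (3 / 4) ^ 105) * ((1 + (k : ℝ)) * ((2 : ℝ) ^ 12 * (3 / 4) ^ 30) ^ k) *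
        ((1 + (r : ℝ)) * (3 / 4) ^ r)
      ≤ (2862 * 4 * 10 ^ 8 * (3 / 4) ^ 105) * ((36 / 100 : ℝ)⁻¹) * ((1 / 3 : ℝ)⁻¹) := by
        gcongr
    _ ≤ 1 := by norm_num

/-- the form with `40 k + 120` -/
theorem numM' (g N d k m : ℕ) (hN3 : 3 ≤ N) (hN : N ≤ 3 * 2 ^ k) (hm : m = g / N)
    (h : 40 * k + 120 ≤ m) (hd : d ≤ 2 ^ k) :
    ((3 * g + 2 : ℕ) : ℝ) * 3 * (4 * (3 / 4) ^ m * d) * 10 ^ 8 * (d : ℝ) ^ 10 ≤ 1 :=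
  numM g N d k m hN3 hN hm (by omega) hd

end Pool.Agent.PWX
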