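import Pool.Agent.PWX.Num37

/-!
# PWX: numerical inequality, without the number of punctures
-/

namespace Pool.Agent.PWX

theorem numN (g d k m : ℕ) (hm : m = g / 3) (h : 30 * k + 100 ≤ m) (hd : d ≤ 2 ^ k) :
    3 * ((2 * g + 5 : ℕ) : ℝ) * (4 * (3 / 4) ^ m * d) * 10 ^ 8 * (d : ℝ) ^ 10 ≤ 1 := by
  obtain ⟨r, hr⟩ : ∃ r, m = 30 * k + 100 + r := ⟨m - (30 * k + 100), by omega⟩
  have hA : 3 * (2 * g + 5) ≤ 1827 * (1 + k) * (1 + r) := by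
    have h2 : 3 * (2 * g + 5) ≤ 540 * k + 18 * r + 1827 := by omega
    have h3 : 540 * k + 18 * r + 1827 ≤ 1827 * (1 + k) * (1 + r) := by
      nlinarith [Nat.zero_le (k * r)]
    exact h2.trans h3
  have hA' : 3 * ((2 * g + 5 : ℕ) : ℝ) ≤ 1827 * (1 + (k : ℝ)) * (1 + (r : ℝ)) := by
    exact_mod_cast hA
  have hd' : (d : ℝ) ≤ 2 ^ k := by exact_mod_cast hd
  have hd0 : (0 : ℝ) ≤ d := Nat.cast_nonneg d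
  have hd10 : (d : ℝ) ^ 10 ≤ (2 ^ k) ^ 10 := pow_le_pow_left₀ hd0 hd' 10
  have e1 : ((3 : ℝ) / 4) ^ m = ((3 / 4) ^ 30) ^ k * (3 / 4) ^ 100 * (3 / 4) ^ r := by
    rw [hr, pow_add, pow_add, pow_mul]
  have hk := bern ((2 : ℝ) ^ 11 * (3 / 4) ^ 30) 1 (by positivity) (by norm_num) (by norm_num)
    (by norm_num) k
  have hrr := bern ((3 : ℝ) / 4) (1 / 3) (by norm_num) (by norm_num) (by norm_num) (by norm_num) r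
  have step : 3 * ((2 * g + 5 : ℕ) : ℝ) * (4 * (3 / 4) ^ m * d) * 10 ^ 8 * (d : ℝ) ^ 10 ≤
      (1827 * (1 + (k : ℝ)) * (1 + (r : ℝ))) * (4 * (3 / 4) ^ m * 2 ^ k) * 10 ^ 8 *
        (2 ^ k) ^ 10 := by
    gcongr
  refine step.trans ?_
  rw [e1]
  have e2 : (1827 * (1 + (k : ℝ)) * (1 + (r : ℝ))) *
      (4 * (((3 / 4) ^ 30) ^ k * (3 / 4) ^ 100 * (3 / 4) ^ r) * 2 ^ k) * 10 ^ 8 * (2 ^ k) ^ 10 =
      (1827 * 4 * 10 ^ 8 * (3 / 4) ^ 100) * ((1 + (k : ℝ)) * ((2 : ℝ) ^ 11 * (3 / 4) ^ 30) ^ k) *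
        ((1 + (r : ℝ)) * (3 / 4) ^ r) := by
    rw [mul_pow, ← pow_mul (2 : ℝ) 11 k, mul_comm 11 k, pow_mul (2 : ℝ) k 11]
    ring
  rw [e2]
  have hk0 : 0 ≤ (1 + (k : ℝ)) * ((2 : ℝ) ^ 11 * (3 / 4) ^ 30) ^ k := by positivity
  have hr0 : 0 ≤ (1 + (r : ℝ)) * (3 / 4) ^ r := by positivity
  calc (1827 * 4 * 10 ^ 8 * (3 / 4) ^ 100) * ((1 + (k : ℝ)) * ((2 : ℝ) ^ 11 * (3 / 4) ^ 30) ^ k) *
        ((1 + (r : ℝ)) * (3 / 4) ^ r)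
      ≤ (1827 * 4 * 10 ^ 8 * (3 / 4) ^ 100) * ((1 : ℝ)⁻¹) * ((1 / 3 : ℝ)⁻¹) := by
        gcongr
    _ ≤ 1 := by norm_num

end Pool.Agent.PWX
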