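import Pool.Agent.PWX.FinD
import Pool.Agent.PWX.Num37

/-!
# PWX: a handle in the stabiliser of a point, for a surface with one boundary component
-/

namespace Pool.Agent.PWX

open Pool.Agent.PWI Equiv

/-- The action on the orbit of `x0`. -/
theorem orbit_hom {G X : Type} [Group G] (ρ : G →* Perm X) (x0 : X) :
    ∃ ρ' : G →* Perm {y : X // ∃ x, ρ x x0 = y}, ∀ x y, (ρ' x y).1 = ρ x y.1 := by
  have key : ∀ (x : G) (y : X), (∃ t, ρ t x0 = ρ x y) ↔ ∃ t, ρ t x0 = y := by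
    intro x y
    constructor
    · rintro ⟨t, ht⟩
      refine ⟨x⁻¹ * t, ?_⟩
      rw [map_mul, Perm.mul_apply, ht, ← Perm.mul_apply, ← map_mul, inv_mul_cancel, map_one,
        Perm.one_apply]
    · rintro ⟨t, rfl⟩
      exact ⟨x * t, by rw [map_mul, Perm.mul_apply]⟩
  refine ⟨{ toFun := fun x => (ρ x).subtypePerm fun y => key x y
            map_one' := ?_
            map_mul' := fun x y => ?_ }, fun x y => rfl⟩
  · ext y
    show ρ 1 y.1 = y.1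
    rw [map_one, Perm.one_apply]
  · ext t
    show ρ (x * y) t.1 = ρ x (ρ y t.1)
    rw [map_mul, Perm.mul_apply]

theorem one_handle (g k : ℕ) (hg : 90 * k + 302 ≤ g) {X : Type} [Fintype X]
    (hX : Fintype.card X ≤ 2 ^ k) (ρ : SG g 1 →* Perm X) (x0 : X) :
    ∃ S : PMod g 1, S.1 (sz 0) = sz 0 ∧ ρ (S.1 (sa 0)) x0 = x0 ∧ ρ (S.1 (sb 0)) x0 = x0 := by
  classical
  obtain ⟨ρ', hρ'⟩ := orbit_hom ρ x0
  obtain ⟨m, hm⟩ : ∃ m, m = g / 3 := ⟨_, rfl⟩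
  have hm1 : 30 * k + 100 ≤ m := by omega
  have hcard : Fintype.card {y : X // ∃ x, ρ x x0 = y} ≤ 2 ^ k :=
    (Fintype.card_subtype_le _).trans hX
  let p0 : {y : X // ∃ x, ρ x x0 = y} := ⟨x0, 1, by rw [map_one, Perm.one_apply]⟩
  have htr : ∀ p q : {y : X // ∃ x, ρ x x0 = y}, ∃ x, ρ' x p = q := by
    rintro ⟨_, s, rfl⟩ ⟨_, t, rfl⟩
    refine ⟨t * s⁻¹, Subtype.ext ?_⟩
    rw [hρ']
    show ρ (t * s⁻¹) (ρ s x0) = ρ t x0
    rw [← Perm.mul_apply, ← map_mul, inv_mul_cancel_right]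
  have h2k : 1 ≤ 2 ^ k := Nat.one_le_two_pow
  obtain ⟨S0, hS0⟩ := blocks ρ' htr m (by omega) (by omega) (Fintype.card_pos_iff.2 ⟨p0⟩)
    (num37 g 1 _ k m hm hm1 hcard h2k) (num37' _ k m hm1 hcard)
  -- fix the boundary
  obtain ⟨w, hw⟩ := isConj_iff.1 (S0.2 0)
  obtain ⟨S1, hS1⟩ : ∃ S1 : PMod g 1, ∀ x, S1.1 x = w⁻¹ * S0.1 x * w := by
    refine ⟨push w⁻¹ * S0, fun x => ?_⟩
    show (push w⁻¹).1 (S0.1 x) = _
    rw [push_apply, inv_inv]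
  have hz : S1.1 (sz 0) = sz 0 := by
    rw [hS1]
    have : S0.1 (sz 0) = w * sz 0 * w⁻¹ := hw.symm
    rw [this]
    group
  have hB : ∀ i < 3, ∀ y z, ∃ v : SG g 1, RGD.Sp (i * m) (i * m + m) v ∧ ρ' (S1.1 v) y = z := by
    intro i hi y z
    obtain ⟨v, hv, h⟩ := hS0 i hi (ρ' w y) (ρ' w z)
    refine ⟨v, hv, ?_⟩
    rw [hS1, map_mul, map_mul, Perm.mul_apply, Perm.mul_apply, h, ← Perm.mul_apply, ← map_mul,
      inv_mul_cancel, map_one, Perm.one_apply]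
  have e1 : 1 * m = m := one_mul m
  -- the first curve
  obtain ⟨v1, hv1, h1⟩ := hB 1 (by omega) p0 ((ρ' (S1.1 (sa 0)))⁻¹ p0)
  rw [e1] at hv1
  obtain ⟨T1, hT1, hT1a⟩ := (RGD.sp_a (g := g) (n := 1) (q := 0) (r := m)).mul hv1 (by omega)
    (by omega) (by omega)
  -- the second curve
  obtain ⟨v2, hv2, h2⟩ := hB 2 (by omega) p0 (ρ' (S1.1 (T1.1 (sb 0))) p0)
  have hv2m := hv2.mem (by omega)
  obtain ⟨V, hV, hV2⟩ := hv2
  obtain ⟨U, hU1, hU2, hU⟩ := RGC.farU (g := g) (n := 1) 0 (2 * m) (by omega) (by omega)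
  have a1 : (T1 * (V * U)).1 (sa 0) = sa 0 * v1 := by
    show T1.1 (V.1 (U.1 (sa 0))) = _
    rw [hU1, (hV.1 0 (Or.inl (by omega))).1, hT1a]
  have b1 : (T1 * (V * U)).1 (sb 0) = v2⁻¹ * T1.1 (sb 0) := by
    show T1.1 (V.1 (U.1 (sb 0))) = _
    rw [hU2, map_mul, map_mul, map_inv, map_inv, hV2, (hV.1 0 (Or.inl (by omega))).2,
      hT1.fix (Or.inr (by omega)) hv2m]
  have c1 : (T1 * (V * U)).1 (sz 0) = sz 0 := by
    show T1.1 (V.1 (U.1 (sz 0))) = _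
    rw [hU.2.1, hV.2.1, hT1.2.1]
  have f1 : ρ' (S1.1 (sa 0 * v1)) p0 = p0 := by
    rw [map_mul, map_mul, Perm.mul_apply, h1, ← Perm.mul_apply, mul_inv_cancel, Perm.one_apply]
  have f2 : ρ' (S1.1 (v2⁻¹ * T1.1 (sb 0))) p0 = p0 := by
    rw [map_mul, map_inv, map_mul, map_inv, Perm.mul_apply, ← h2, ← Perm.mul_apply,
      inv_mul_cancel, Perm.one_apply]
  refine ⟨S1 * (T1 * (V * U)), ?_, ?_, ?_⟩
  · show S1.1 ((T1 * (V * U)).1 (sz 0)) = _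
    rw [c1, hz]
  · show ρ (S1.1 ((T1 * (V * U)).1 (sa 0))) x0 = x0
    rw [a1]
    have := congrArg Subtype.val f1
    rwa [hρ'] at this
  · show ρ (S1.1 ((T1 * (V * U)).1 (sb 0))) x0 = x0
    rw [b1]
    have := congrArg Subtype.val f2
    rwa [hρ'] at this

end Pool.Agent.PWX
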