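import Pool.Agent.PWX.Defs
import Pool.Agent.PWN.Mat

/-!
# PWX: the deterministic lemma on three almost idempotent doubly stochastic matrices
-/

namespace Pool.Agent.PWX

open Equiv

variable {X : Type} [Fintype X] [DecidableEq X]

/-- doubly stochastic -/
def DS (A : Matrix X X ℝ) : Prop :=
  (∀ p q, 0 ≤ A p q) ∧ (∀ p, ∑ q, A p q = 1) ∧ ∀ q, ∑ p, A p q = 1

private theorem mul_pm (A : Matrix X X ℝ) (σ : Perm X) (p q : X) : (A * pm σ) p q = A p (σ q) := by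
  rw [Matrix.mul_apply]
  unfold pm
  simp

private theorem pm_mul' (A : Matrix X X ℝ) (σ : Perm X) (p q : X) :
    (pm σ * A) (σ p) q = A p q := by
  rw [Matrix.mul_apply]
  unfold pm
  simp

theorem pos3 (P1 P2 P3 : Matrix X X ℝ) (h1 : DS P1) (h2 : DS P2) (h3 : DS P3) (ε : ℝ) (hε : 0 ≤ ε)
    (hε' : ε * 10 ^ 8 * (Fintype.card X : ℝ) ^ 10 ≤ 1) (L R : Set (Perm X))
    (htr : ∀ p q : X, ∃ σ ∈ Subgroup.closure (L ∪ R), σ p = q)
    (hL : ∀ σ ∈ L, hs (pm σ * P3 - P3) ≤ ε) (hR : ∀ σ ∈ R, hs (P1 * pm σ - P1) ≤ ε)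
    (h13 : hs (P1 * P3 - P1) ≤ ε) (h13' : hs (P1 * P3 - P3) ≤ ε)
    (h12 : hs (P1 * P2 - P1) ≤ ε) (h12' : hs (P1 * P2 - P2) ≤ ε) (p q : X) :
    1 / (2 * (Fintype.card X : ℝ)) ≤ P1 p q ∧ 1 / (2 * (Fintype.card X : ℝ)) ≤ P2 p q ∧
      1 / (2 * (Fintype.card X : ℝ)) ≤ P3 p q := by
  have hD1 : (1 : ℝ) ≤ Fintype.card X := by
    exact_mod_cast Fintype.card_pos_iff.2 ⟨p⟩
  refine Pool.Agent.PWN.entries_pos P1 P2 P3 ⟨h1.1, h1.2.1, h1.2.2⟩ ε hε ?_ h13 h13' h12 h12' R L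
    ?_ ?_ ?_ p q
  · refine le_trans ?_ hε'
    have h4 : (Fintype.card X : ℝ) ^ 9 ≤ (Fintype.card X : ℝ) ^ 10 :=
      pow_le_pow_right₀ hD1 (by norm_num)
    calc 10 ^ 8 * (Fintype.card X : ℝ) ^ 9 * ε ≤ 10 ^ 8 * (Fintype.card X : ℝ) ^ 10 * ε := by
          gcongr
      _ = ε * 10 ^ 8 * (Fintype.card X : ℝ) ^ 10 := by ring
  · intro σ hσ
    refine le_trans (le_of_eq ?_) (hR σ hσ)
    unfold hs
    refine Finset.sum_congr rfl fun i _ => Finset.sum_congr rfl fun j _ => ?_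
    rw [Matrix.sub_apply, mul_pm]
  · intro σ hσ
    refine le_trans (le_of_eq ?_) (hL σ hσ)
    unfold hs
    rw [← Equiv.sum_comp σ fun i => ∑ j, ((pm σ * P3 - P3) i j) ^ 2]
    refine Finset.sum_congr rfl fun i _ => Finset.sum_congr rfl fun j _ => ?_
    rw [Matrix.sub_apply, pm_mul']
    ring
  · rw [Set.union_comm]
    exact htr

end Pool.Agent.PWX
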